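import Pool.Agent.MP_b2c033_nt.UA.Spec

/-! Sets that cover each class modulo a lattice at most `K` times have total area at most `K`
times the covolume. -/

namespace Pool.Agent.MP_b2c033_nt.UA

open Filter MeasureTheory
open scoped ENNReal

noncomputable section

theorem ar2_vol (P : PeriodPair) :
    volume (ZSpan.fundamentalDomain P.basis) = ENNReal.ofReal (Om P) := by
  have h1 : volume (ZSpan.fundamentalDomain Complex.basisOneI) = 1 := by
    rw [measure_congr (ZSpan.fundamentalDomain_ae_parallelepiped Complex.basisOneI volume)]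
    have := Complex.orthonormalBasisOneI.volume_parallelepiped
    rwa [← Complex.orthonormalBasisOneI.coe_toBasis, Complex.toBasis_orthonormalBasisOneI] at this
  rw [ZSpan.measure_fundamentalDomain P.basis volume Complex.basisOneI, h1, mul_one,
    Module.Basis.det_apply, Matrix.det_fin_two, Om]
  congr 2
  simp only [Module.Basis.toMatrix_apply, Complex.coe_basisOneI_repr, PeriodPair.basis_zero,
    PeriodPair.basis_one, Matrix.cons_val_zero, Matrix.cons_val_one, Complex.mul_im,
    Complex.conj_re, Complex.conj_im]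
  ring

theorem ar2_cnt {ι : Type*} (p : ι → Prop) [DecidablePred p] (K : ℕ)
    (h : ∀ T : Finset ι, (∀ i ∈ T, p i) → T.card ≤ K) :
    ∑' i, (if p i then (1 : ℝ≥0∞) else 0) ≤ K := by
  rw [ENNReal.tsum_eq_iSup_sum]
  refine iSup_le fun s => ?_
  rw [Finset.sum_boole]
  exact_mod_cast h _ fun i hi => (Finset.mem_filter.1 hi).2

theorem ar2 : S_AR2 := by
  intro P κ _ B K Z hB hZ h
  classical
  let Λ := (Submodule.span ℤ (Set.range P.basis)).toAddSubgroup
  have hD : IsAddFundamentalDomain Λ (ZSpan.fundamentalDomain P.basis) volume :=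
    ZSpan.isAddFundamentalDomain' P.basis volume
  have : Countable Λ := inferInstanceAs (Countable (Submodule.span ℤ (Set.range P.basis)))
  have hm : ∀ p : κ × Λ, Measurable fun x : ℂ =>
      (B p.1).indicator (1 : ℂ → ℝ≥0∞) (-p.2 +ᵥ x) := fun p =>
    (measurable_one.indicator (hB p.1)).comp (measurable_const_vadd _)
  have h1 : ∀ k, volume (B k) = ∑' g : Λ, ∫⁻ x in ZSpan.fundamentalDomain P.basis,
      (B k).indicator (1 : ℂ → ℝ≥0∞) (-g +ᵥ x) := fun k => by
    rw [← lintegral_indicator_one (hB k), hD.lintegral_eq_tsum']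
  simp only [h1]
  rw [← ENNReal.tsum_prod (f := fun k (g : Λ) => ∫⁻ x in ZSpan.fundamentalDomain P.basis,
      (B k).indicator (1 : ℂ → ℝ≥0∞) (-g +ᵥ x)),
    ← lintegral_tsum fun p => (hm p).aemeasurable, ← ar2_vol, ← setLIntegral_const]
  refine lintegral_mono_ae (ae_restrict_of_ae ?_)
  filter_upwards [compl_mem_ae_iff.2 (hZ.measure_zero volume)] with w hw
  refine le_trans (le_of_eq (tsum_congr fun p => ?_))
    (ar2_cnt (fun p : κ × Λ => -p.2 +ᵥ w ∈ B p.1) K fun T hT => ?_)
  · simp only [Set.indicator_apply, Pi.one_apply]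
  · have hi : Function.Injective fun p : κ × Λ => (p.1, -p.2 +ᵥ w) := fun p q hpq => by
      obtain ⟨e1, e2⟩ := Prod.ext_iff.1 hpq
      refine Prod.ext e1 (neg_injective (Subtype.ext ?_))
      exact add_right_cancel (show ((-p.2 : Λ) : ℂ) + w = ((-q.2 : Λ) : ℂ) + w from e2)
    rw [← Finset.card_image_of_injective T hi]
    refine h w hw _ fun p hp => ?_
    obtain ⟨q, hq, rfl⟩ := Finset.mem_image.1 hp
    refine ⟨hT q hq, ?_⟩
    rw [P.lattice_eq_span_range_basis]
    change ((-q.2 : Λ) : ℂ) + w - w ∈ _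
    rw [add_sub_cancel_right]
    exact (-q.2).2

end

end Pool.Agent.MP_b2c033_nt.UA
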