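import Pool.Agent.MP_b2c033_nt.UA.Spec

/-! The area inequality for a finite family of holomorphic maps to a complex torus. -/

namespace Pool.Agent.MP_b2c033_nt.UA

open MeasureTheory

theorem area_of (h1 : S_AR1) (h2 : S_AR2) : S_AREA := by
  classical
  intro P ι _ ψ U K Z hU hψ hZ hK
  choose A a1 a2 a3 a4 using fun i => h1 (ψ i) U hU (hψ i)
  have h := h2 P (ι × ℕ) (fun p => ψ p.1 '' A p.1 p.2) K Z (fun p => a3 p.1 p.2) hZ
    fun w hw T hT => by
      have ex : ∀ p : (ι × ℕ) × ℂ, ∃ z, p ∈ T → z ∈ A p.1.1 p.1.2 ∧ ψ p.1.1 z = p.2 := fun p => by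
        by_cases hp : p ∈ T
        · exact (hT p hp).1.imp fun z hz _ => hz
        · exact ⟨0, fun q => absurd q hp⟩
      choose z hz using ex
      have inj : Set.InjOn (fun p : (ι × ℕ) × ℂ => (p.1.1, z p)) T := by
        rintro ⟨⟨i, k⟩, v⟩ hp ⟨⟨i', k'⟩, v'⟩ hp' e
        obtain ⟨e1, e2⟩ := Prod.mk.inj e
        obtain rfl : i = i' := e1
        have b := hz _ hp
        have b' := hz _ hp'
        rw [e2] at b
        obtain rfl : k = k' := by
          by_contra q
          exact Set.disjoint_left.1 (a2 i q) b.1 b'.1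
        exact Prod.ext rfl (b.2.symm.trans b'.2)
      rw [← Finset.card_image_of_injOn inj]
      refine hK w hw _ fun p hp => ?_
      obtain ⟨q, hq, rfl⟩ := Finset.mem_image.1 hp
      exact ⟨a1 _ _ (hz q hq).1, (hz q hq).2.symm ▸ (hT q hq).2⟩
  rw [ENNReal.tsum_prod', tsum_fintype] at h
  simpa only [a4] using h

end Pool.Agent.MP_b2c033_nt.UA
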