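import Pool.Agent.MP_b2c033_nt.UA.Spec

namespace Pool.Agent.MP_b2c033_nt.UA

open CongruenceSubgroup
open scoped MatrixGroups

theorem be_of (h1 : S_EX1) (h2 : S_EX2) : S_BE := by
  have he : ∀ f b, Ex f b → beta f = b := fun f b h =>
    h2 f _ _ (Classical.epsilon_spec (p := Ex f) ⟨b, h⟩) h
  refine ⟨fun L f hL hf => ?_, he⟩
  have hT : ModularGroup.T ^ L ∈ Gamma L := by
    have := ModularGroup_T_pow_mem_Gamma (L : ℤ) (L : ℤ) dvd_rfl
    simpa using this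
  obtain ⟨b, hb, hd⟩ := h1 L f hL hf.1 (hf.2 _ hT)
  rw [he f b hb]
  exact ⟨hb, hd⟩

end Pool.Agent.MP_b2c033_nt.UA
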