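import Pool.Agent.MP_b2c033_nt.UA.Spec
import Pool.Agent.MP_b2c033_nt.H87.M1

/-! An invariant holomorphic function of exponential type `κ` at the cusp is a polynomial in `j`
of degree at most `κ`. -/

namespace Pool.Agent.MP_b2c033_nt.UA

open Filter Asymptotics Polynomial
open UpperHalfPlane hiding I
open scoped Real Manifold MatrixGroups ModularForm Topology

noncomputable section

theorem cn1_im : Tendsto (fun z : ℍ => z.im) atImInfty atTop := tendsto_comap

theorem cn1_val : valueAtInfty (ModularForm.E₄ : ℍ → ℂ) = 1 := by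
  have h1 := EisensteinSeries.E_qExpansion_coeff_zero (k := 4) (by norm_num) ⟨2, rfl⟩
  have : Fact (IsCusp OnePoint.infty 𝒮ℒ) :=
    ⟨Subgroup.isCusp_of_mem_strictPeriods one_pos one_mem_strictPeriods_SL⟩
  have h2 := qExpansion_coeff_zero (f := (ModularForm.E₄ : ℍ → ℂ)) one_pos
    (ModularFormClass.analyticAt_cuspFunction_zero ModularForm.E₄ one_pos one_mem_strictPeriods_SL)
    (SlashInvariantFormClass.periodic_comp_ofComplex ModularForm.E₄ one_mem_strictPeriods_SL)
  rw [← h2]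
  exact h1

theorem cn1_e4 : Tendsto (fun z : ℍ => ModularForm.E₄ z) atImInfty (𝓝 1) := by
  obtain ⟨c, hc, h⟩ := ModularFormClass.exp_decay_sub_atImInfty' ModularForm.E₄
  rw [cn1_val] at h
  have h0 : Tendsto (fun τ : ℍ => Real.exp (-c * τ.im)) atImInfty (𝓝 0) :=
    Real.tendsto_exp_atBot.comp (cn1_im.const_mul_atTop_of_neg (neg_neg_of_pos hc))
  have := (h.trans_tendsto h0).add_const 1
  simpa using this

theorem cn1_low : (fun z : ℍ => Real.exp (2 * π * z.im)) =O[atImInfty] jj := by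
  have h1 := H87.M1x.pow_bigO 1
  have h2 : (fun _ : ℍ => (1 : ℝ)) =O[atImInfty] fun z : ℍ => ModularForm.E₄ z ^ 3 := by
    have h3 : Tendsto (fun z : ℍ => ModularForm.E₄ z ^ 3) atImInfty (𝓝 1) := by
      simpa using cn1_e4.pow 3
    have h4 : ∀ᶠ z in atImInfty, (1 / 2 : ℝ) < ‖ModularForm.E₄ z ^ 3‖ :=
      h3.norm.eventually (lt_mem_nhds (by norm_num))
    refine IsBigO.of_bound 2 ?_
    filter_upwards [h4] with z hz
    rw [norm_one]
    linarith
  obtain ⟨C, hC0, hC⟩ := h1.exists_pos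
  obtain ⟨D, hD0, hD⟩ := h2.exists_pos
  refine IsBigO.of_bound (C * D) ?_
  filter_upwards [hC.bound, hD.bound] with z a b
  have hd : 0 < ‖ModularForm.discriminant z‖ :=
    norm_pos_iff.2 (ModularForm.discriminant_ne_zero z)
  rw [pow_one, Real.norm_eq_abs, abs_of_pos (Real.exp_pos _)] at a
  rw [norm_one] at b
  rw [Real.norm_eq_abs, abs_of_pos (Real.exp_pos _), jj, norm_div, ← mul_div_assoc,
    le_div_iff₀ hd]
  have he : Real.exp (2 * π * z.im) * Real.exp (-(2 * π * (1 : ℕ)) * z.im) = 1 := by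
    rw [← Real.exp_add]
    simp
  calc Real.exp (2 * π * z.im) * ‖ModularForm.discriminant z‖
      ≤ Real.exp (2 * π * z.im) * (C * Real.exp (-(2 * π * (1 : ℕ)) * z.im)) :=
        mul_le_mul_of_nonneg_left a (Real.exp_pos _).le
    _ = C * 1 := by rw [← he]; ring
    _ ≤ C * (D * ‖ModularForm.E₄ z ^ 3‖) := mul_le_mul_of_nonneg_left b hC0.le
    _ = C * D * ‖ModularForm.E₄ z ^ 3‖ := by ring

theorem cn1_cob : Tendsto jj atImInfty (Bornology.cobounded ℂ) := by
  rw [← tendsto_norm_atTop_iff_cobounded]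
  have h0 : Tendsto (fun z : ℍ => ‖Real.exp (2 * π * z.im)‖) atImInfty atTop := by
    refine tendsto_norm_atTop_atTop.comp (Real.tendsto_exp_atTop.comp ?_)
    exact cn1_im.const_mul_atTop (by positivity)
  exact cn1_low.norm_norm.trans_tendsto_norm_atTop (by simpa using h0) |>.congr fun z => by simp

theorem cn1 : S_CN1 := by
  intro Φ κ hΦ hi hb h0
  obtain ⟨Q, hQ⟩ := H87.m1 Φ ⟨hΦ, fun γ => ⟨2 * π * κ, by simpa only [hi] using hb⟩⟩ hi
  have hQ' : ∀ z, Φ z = Q.eval (jj z) := hQ
  have hQ0 : Q ≠ 0 := by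
    rintro rfl
    exact h0 (funext fun z => by simpa using hQ' z)
  refine ⟨Q, hQ0, ?_, hQ'⟩
  have h1 : (fun z => Q.leadingCoeff * jj z ^ Q.natDegree) =O[atImInfty] Φ := by
    have := (isEquivalent_cobounded_leading_monomial (P := Q)).symm.isBigO.comp_tendsto cn1_cob
    exact this.congr (fun z => rfl) fun z => (hQ' z).symm
  have h2 : (fun z => jj z ^ Q.natDegree) =O[atImInfty] Φ :=
    (isBigO_self_const_mul (leadingCoeff_ne_zero.2 hQ0) _ _).trans h1
  have h3 := ((cn1_low.pow Q.natDegree).trans h2).trans hb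
  have h4 : (fun z : ℍ => Real.exp (Q.natDegree * (2 * π * z.im))) =O[atImInfty]
      fun z => Real.exp (2 * π * κ * z.im) :=
    h3.congr (fun z => (Real.exp_nat_mul _ _).symm) fun z => rfl
  rw [Real.isBigO_exp_comp_exp_comp] at h4
  by_contra hlt
  have hlt' : 0 < 2 * π * ((Q.natDegree : ℝ) - κ) := by
    have := not_le.1 hlt
    have h5 : 0 < (Q.natDegree : ℝ) - κ := by linarith
    positivity
  refine not_isBoundedUnder_of_tendsto_atTop ?_ h4
  refine (cn1_im.const_mul_atTop hlt').congr fun z => ?_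
  simp only [Pi.sub_apply]
  ring

end

end Pool.Agent.MP_b2c033_nt.UA
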