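import Pool.Agent.MP_b2c033_nt.UA.Spec
import Pool.Agent.MP_c481b3_nt.H31F.K4
import Pool.Agent.MP_c481b3_nt.H31F.Mat
import Pool.Agent.MP_c481b3_nt.H31F.Ys1

/-! The modular invariant is holomorphic, injective on the open fundamental domain, and has
countably many critical points. -/

namespace Pool.Agent.MP_b2c033_nt.UA

open Filter
open UpperHalfPlane hiding I
open scoped Real Manifold MatrixGroups ModularForm Modular Topology

theorem cn2_eq (z : ℍ) : jj z = MP_c481b3_nt.H31F.JJ z := by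
  have h := MP_c481b3_nt.H31F.ys1_of MP_c481b3_nt.H31F.mat
  rw [h.eJ, h.disc, jj]

theorem cn2_hol : MDifferentiable 𝓘(ℂ) 𝓘(ℂ) jj := by
  have h := MP_c481b3_nt.H31F.ys1_of MP_c481b3_nt.H31F.mat
  have e : jj = fun z => MP_c481b3_nt.H31F.YY z ^ 2 + 1728 := funext cn2_eq
  rw [e]
  exact (h.hY.pow 2).add mdifferentiable_const

theorem cn2_inj : Set.InjOn jj 𝒟ᵒ := by
  intro z hz w hw e
  rw [cn2_eq, cn2_eq] at e
  obtain ⟨γ, hγ, h⟩ := MP_c481b3_nt.H31F.k4_of (MP_c481b3_nt.H31F.ys1_of MP_c481b3_nt.H31F.mat)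
    MP_c481b3_nt.H31F.u1 z w e
  let g : SL(2, ℤ) := ⟨γ, hγ⟩
  have h' : g • z = w := (MP_c481b3_nt.H31F.act_SL g z).symm.trans h
  exact (ModularGroup.eq_smul_self_of_mem_fdo_mem_fdo hz (h' ▸ hw)).trans h'

theorem cn2_crit : {w : ℂ | 0 < w.im ∧ deriv (fun w => jj (ofComplex w)) w = 0}.Countable := by
  have hd : DifferentiableOn ℂ (fun w => jj (ofComplex w)) {z : ℂ | 0 < z.im} :=
    mdifferentiable_iff.1 cn2_hol
  have ho : IsOpen {z : ℂ | 0 < z.im} := isOpen_upperHalfPlaneSet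
  have hc : IsPreconnected {z : ℂ | 0 < z.im} := (convex_halfSpace_im_gt 0).isPreconnected
  have ha := (hd.analyticOnNhd ho).deriv
  rcases ha.eqOn_zero_or_eventually_ne_zero_of_preconnected hc with h | h
  · exfalso
    obtain ⟨a, h1⟩ := ho.exists_is_const_of_deriv_eq_zero hc hd h
    let z : ℍ := ⟨2 * Complex.I, by simp⟩
    let w : ℍ := ⟨3 * Complex.I, by simp⟩
    have hz : z ∈ 𝒟ᵒ := ⟨by norm_num [z, Complex.normSq_apply], by norm_num [z, re]⟩
    have hw : w ∈ 𝒟ᵒ := ⟨by norm_num [w, Complex.normSq_apply], by norm_num [w, re]⟩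
    have e1 := h1 z z.2
    have e2 := h1 w w.2
    simp only [ofComplex_apply] at e1 e2
    have e3 := congrArg UpperHalfPlane.im (cn2_inj hz hw (e1.trans e2.symm))
    norm_num [z, w, im] at e3
  · refine (HereditarilyLindelofSpace.isLindelof _).countable_of_isDiscrete ?_
    have h2 := isDiscrete_of_codiscreteWithin (U := {z : ℂ | 0 < z.im})
      (s := {w | deriv (fun w => jj (ofComplex w)) w = 0}) h
    exact h2.mono fun w hw => ⟨hw.2, hw.1⟩

theorem cn2 : S_CN2 := ⟨cn2_hol, cn2_inj, cn2_crit⟩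

end Pool.Agent.MP_b2c033_nt.UA
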