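import Pool.Agent.MP_b2c033_nt.UA.Spec

/-! Counting zeros of a product that is a polynomial in an injective function. -/

namespace Pool.Agent.MP_b2c033_nt.UA

open Filter Polynomial
open scoped Topology

noncomputable section

theorem cn3_loc {ι : Type} [Fintype ι] {J : ℂ → ℂ} {g : ι → ℂ → ℂ} {Q : ℂ[X]} {z : ℂ}
    (S : Finset ι) (hJ : DifferentiableAt ℂ J z) (hg : ∀ i, DifferentiableAt ℂ (g i) z)
    (hQ : Q ≠ 0) (he : ∀ᶠ w in 𝓝 z, ∏ i, g i w = Q.eval (J w)) (hd : deriv J z ≠ 0)
    (h0 : ∀ i ∈ S, g i z = 0) : S.card ≤ Q.rootMultiplicity (J z) := by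
  classical
  by_contra hlt
  obtain ⟨d, hk⟩ := Nat.exists_eq_add_of_lt (not_le.1 hlt)
  obtain ⟨R, hR, hnd⟩ := exists_eq_pow_rootMultiplicity_mul_and_not_dvd Q hQ (J z)
  generalize Q.rootMultiplicity (J z) = m at hk hR
  have hRz : R.eval (J z) ≠ 0 := fun h => hnd (dvd_iff_isRoot.2 h)
  have cA : ContinuousAt (fun w => (w - z) ^ (d + 1) *
      ((∏ i ∈ S, dslope (g i) z w) * ∏ i ∈ Sᶜ, g i w)) z := by
    refine ContinuousAt.mul (by fun_prop) (ContinuousAt.mul ?_ ?_)
    · exact tendsto_finsetProd _ fun i _ => continuousAt_dslope_same.2 (hg i)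
    · exact tendsto_finsetProd _ fun i _ => (hg i).continuousAt
  have cB : ContinuousAt (fun w => dslope J z w ^ m * R.eval (J w)) z :=
    ((continuousAt_dslope_same.2 hJ).pow m).mul
      (R.continuous.continuousAt.comp hJ.continuousAt)
  have e : ∀ᶠ w in 𝓝[≠] z, (w - z) ^ (d + 1) *
      ((∏ i ∈ S, dslope (g i) z w) * ∏ i ∈ Sᶜ, g i w) = dslope J z w ^ m * R.eval (J w) := by
    filter_upwards [mem_nhdsWithin_of_mem_nhds he, self_mem_nhdsWithin] with w hw hne
    have hne' : w - z ≠ 0 := sub_ne_zero.2 hne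
    have e1 : ∏ i ∈ S, g i w = (w - z) ^ S.card * ∏ i ∈ S, dslope (g i) z w := by
      rw [← Finset.prod_const, ← Finset.prod_mul_distrib]
      refine Finset.prod_congr rfl fun i hi => ?_
      have := sub_smul_dslope (g i) z w
      rw [h0 i hi, sub_zero, smul_eq_mul] at this
      exact this.symm
    have e2 : J w - J z = (w - z) * dslope J z w := by
      rw [← sub_smul_dslope J z w, smul_eq_mul]
    have hw' : ∏ i, g i w = Q.eval (J w) := hw
    rw [← Finset.prod_mul_prod_compl S, e1, hk, hR, eval_mul, eval_pow, eval_sub, eval_X, eval_C,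
      e2, mul_pow] at hw'
    refine mul_left_cancel₀ (pow_ne_zero m hne') ?_
    linear_combination hw'
  have e3 := tendsto_nhds_unique ((cA.tendsto.mono_left nhdsWithin_le_nhds).congr' e)
    (cB.tendsto.mono_left nhdsWithin_le_nhds)
  rw [sub_self, zero_pow d.succ_ne_zero, zero_mul, dslope_same] at e3
  exact mul_ne_zero (pow_ne_zero m hd) hRz e3.symm

theorem cn3 : S_CN3 := by
  classical
  intro ι _ J g U Q T hU hJ hinj hg hQ he hT
  have h1 : T.card = ∑ z ∈ T.image Prod.snd, (T.filter fun p => p.2 = z).card :=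
    Finset.card_eq_sum_card_image Prod.snd T
  have h2 : ∀ z ∈ T.image Prod.snd,
      (T.filter fun p => p.2 = z).card ≤ Q.roots.count (J z) := by
    intro z hz
    obtain ⟨p, hp, rfl⟩ := Finset.mem_image.1 hz
    have hn := hU.mem_nhds (hT p hp).1
    rw [count_roots, ← Finset.card_image_of_injOn (f := Prod.fst)]
    · refine cn3_loc _ (hJ.differentiableAt hn) (fun i => (hg i).differentiableAt hn) hQ
        (by filter_upwards [hn] with w hw using he w hw) (hT p hp).2.1 fun i hi => ?_
      obtain ⟨q, hq, rfl⟩ := Finset.mem_image.1 hi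
      obtain ⟨hq1, hq2⟩ := Finset.mem_filter.1 hq
      rw [← hq2]
      exact (hT q hq1).2.2
    · intro a ha b hb hab
      exact Prod.ext hab ((Finset.mem_filter.1 ha).2.trans (Finset.mem_filter.1 hb).2.symm)
  have h3 : ∑ z ∈ T.image Prod.snd, Q.roots.count (J z) =
      ∑ c ∈ (T.image Prod.snd).image J, Q.roots.count c := by
    refine (Finset.sum_image (f := fun c => Q.roots.count c)
      fun a ha b hb hab => hinj ?_ ?_ hab).symm
    · obtain ⟨p, hp, rfl⟩ := Finset.mem_image.1 ha
      exact (hT p hp).1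
    · obtain ⟨p, hp, rfl⟩ := Finset.mem_image.1 hb
      exact (hT p hp).1
  calc T.card ≤ ∑ c ∈ (T.image Prod.snd).image J, Q.roots.count c := by
        rw [h1, ← h3]
        exact Finset.sum_le_sum h2
    _ ≤ ∑ c ∈ (T.image Prod.snd).image J ∪ Q.roots.toFinset, Q.roots.count c :=
        Finset.sum_le_sum_of_subset Finset.subset_union_left
    _ = Multiset.card Q.roots := Multiset.sum_count_eq_card fun a ha =>
        Finset.mem_union_right _ (Multiset.mem_toFinset.2 ha)
    _ ≤ Q.natDegree := card_roots' Q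

end

end Pool.Agent.MP_b2c033_nt.UA
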