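import Pool.Agent.MP_b2c033_nt.UA.Spec

/-! The norm of `℘(φ - s) - ξ` is holomorphic, invariant and of controlled growth. -/

namespace Pool.Agent.MP_b2c033_nt.UA

open Filter MeasureTheory CongruenceSubgroup Asymptotics
open UpperHalfPlane hiding I
open scoped Real Manifold MatrixGroups ModularForm Modular Topology

theorem cn4_tr (hc : S_CU) (hp : S_PER) {f : ℍ → ℂ} (hf : InS f) (γ : SL(2, ℤ)) (z : ℍ) :
    phi f (γ • z) = per f (γ : GL (Fin 2) ℝ) + phi (f ∣[(2 : ℤ)] γ) z := by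
  rw [← hp.const f _ hf (hc.rpsl γ) z, ModularForm.SL_slash, sub_add_cancel]
  rfl

theorem cn4_mono {a b : ℝ} (h : a ≤ b) : (fun z : ℍ => Real.exp (2 * π * (2 * a) * z.im))
    =O[atImInfty] fun z => Real.exp (2 * π * (2 * b) * z.im) := by
  refine IsBigO.of_norm_le fun z => ?_
  have := z.im_pos
  rw [Real.norm_of_nonneg (Real.exp_pos _).le]
  gcongr

theorem cn4_min {L : ℕ} {b : ℚ → ℂ} {o : ℚ} (hL : 0 < L) (hd : Den L b) (ho : b o ≠ 0) :
    ∃ o', b o' ≠ 0 ∧ ∀ ν < o', b ν = 0 := by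
  classical
  have hL' : (0 : ℚ) < L := by exact_mod_cast hL
  have k : ∀ ν, b ν ≠ 0 → ∃ n : ℕ, ν = n / L := fun ν h =>
    (hd ν h).imp fun n hn => by rw [← hn, mul_div_cancel_right₀ _ hL'.ne']
  have ex : ∃ n : ℕ, b (n / L) ≠ 0 := (k o ho).imp fun n hn => by rwa [← hn]
  refine ⟨_, Nat.find_spec ex, fun ν hν => by_contra fun h => ?_⟩
  obtain ⟨n, rfl⟩ := k ν h
  rw [div_lt_div_iff_of_pos_right hL', Nat.cast_lt] at hν
  exact Nat.find_min ex hν h

open Classical in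
theorem cn4_one (h2 : S_PH2) (hw : S_WP) (P : PeriodPair) {L : ℕ} {g : ℍ → ℂ} {b : ℚ → ℂ} {o : ℚ}
    (c s ξ : ℂ) (hL : 0 < L) (he : Ex g b) (hd : Den L b) (ho : b o ≠ 0) :
    (fun z => P.weierstrassP (c + ph b z - s) - ξ) =O[atImInfty] fun z =>
      Real.exp (2 * π * (2 * if c - s ∈ P.lattice then (o : ℝ) else 0) * z.im) := by
  have pos : ∀ ν, b ν ≠ 0 → 0 < ν := fun ν h => lt_of_not_ge fun q => h (he.1 ν q)
  have one : ∀ a : ℝ, 0 ≤ a → (fun _ : ℍ => (1 : ℝ)) =O[atImInfty] fun z =>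
      Real.exp (2 * π * (2 * a) * z.im) := fun a ha => by simpa using cn4_mono ha
  split_ifs with h
  · obtain ⟨o', k1, k2⟩ := cn4_min hL hd ho
    have k3 : o' ≤ o := le_of_not_gt fun q => ho (k2 o q)
    refine ((hw.pole P _ (c - s) (b o' / o') o' h
      (div_ne_zero k1 (Rat.cast_ne_zero.2 (pos o' k1).ne')) (pos o' k1) ?_).trans
      (cn4_mono (Rat.cast_le.2 k3))).sub
      ((isBigO_const_one ℝ ξ _).trans (one _ (Rat.cast_nonneg.2 (pos o ho).le)))
    exact (h2.lim g b o' he k2).congr fun z => by ring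
  · refine ((hw.fin P _ (c - s) h ?_).sub (isBigO_const_one ℝ ξ _)).trans (one 0 le_rfl)
    have := h2.lim g b 0 he fun ν hν => he.1 ν hν.le
    simp only [ee, Rat.cast_zero, mul_zero, zero_mul, Complex.exp_zero, div_one, div_zero] at this
    simpa using (this.const_add c).sub_const s

theorem cn4_of (hc : S_CU) (hb : S_BE) (h1 : S_PH1) (h2 : S_PH2) (hp : S_PER) (hg : S_GRP)
    (hw : S_WP) : S_CN4 := by
  intro ι _ P L rep f o s ξ S hs
  have hf : InS f := ⟨L, S.pos, S.cu⟩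
  have ex := fun i => hb.ex L _ S.pos (hc.sl L f (rep i) S.cu)
  refine ⟨?_, fun γ z => ?_, ?_⟩
  · rw [UpperHalfPlane.mdifferentiable_iff]
    intro w hw'
    refine DifferentiableAt.differentiableWithinAt ?_
    refine DifferentiableAt.fun_finsetProd (u := Finset.univ) fun i _ => ?_
    have d1 : DifferentiableAt ℂ (fun w => phi f (rep i • ofComplex w) - s) w := by
      simp only [cn4_tr hc hp hf]
      exact ((h1.der _ _ (ex i).1 ⟨w, hw'⟩).differentiableAt.const_add _).sub_const s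
    exact ((P.analyticOnNhd_weierstrassP _ (hs _)).differentiableAt.comp w d1).sub_const ξ
  · obtain ⟨σ, hσ⟩ := hg.perm ι _ rep γ S.tr
    rw [nrm, nrm, ← Equiv.prod_comp σ fun i => P.weierstrassP (phi f (rep i • z) - s) - ξ]
    refine Finset.prod_congr rfl fun i _ => ?_
    have e : rep i • γ • z = (rep i * γ * (rep (σ i))⁻¹) • rep (σ i) • z := by
      rw [← mul_smul, ← mul_smul, inv_mul_cancel_right]
    rw [e, cn4_tr hc hp hf, S.cu.2 _ (hσ i), add_sub_assoc, add_comm]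
    exact congrArg (· - ξ) (P.weierstrassP_add_coe _ ⟨_, S.lat _ (hσ i)⟩)
  · have := IsBigO.finsetProd (s := Finset.univ) fun i _ =>
      cn4_one h2 hw P (per f (rep i : GL (Fin 2) ℝ)) s ξ S.pos (ex i).1 (ex i).2 (S.ne i)
    refine this.congr (fun z => ?_) fun z => ?_
    · simp only [nrm, cn4_tr hc hp hf]
      rfl
    · rw [← Real.exp_sum, ms, Finset.mul_sum, Finset.mul_sum, Finset.sum_mul]

end Pool.Agent.MP_b2c033_nt.UA
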