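import Pool.Agent.MP_b2c033_nt.UA.Spec

namespace Pool.Agent.MP_b2c033_nt.UA

open Filter CongruenceSubgroup
open UpperHalfPlane hiding I
open scoped Real Manifold MatrixGroups ModularForm Modular Topology Polynomial

theorem cnt_lat (P : PeriodPair) : (P.lattice : Set ℂ).Countable := by
  have h : (P.lattice : Set ℂ) ⊆
      Set.range (fun p : ℤ × ℤ => (p.1 : ℂ) * P.ω₁ + (p.2 : ℂ) * P.ω₂) := by
    intro x hx
    obtain ⟨m, n, e⟩ := PeriodPair.mem_lattice.mp hx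
    exact ⟨(m, n), e⟩
  exact (Set.countable_range _).mono h

theorem cnt_sub (P : PeriodPair) (c : ℂ) : {w : ℂ | c - w ∈ P.lattice}.Countable :=
  (cnt_lat P).preimage_of_injOn (f := fun w => c - w) (fun _ _ _ _ h => sub_right_injective h)

theorem cnt_two (P : PeriodPair) : {w : ℂ | 2 * w ∈ P.lattice}.Countable :=
  (cnt_lat P).preimage_of_injOn (f := fun w => 2 * w)
    (fun _ _ _ _ h => mul_left_cancel₀ two_ne_zero h)

theorem cnt_phi (hb : S_BE) (h1 : S_PH1) {L : ℕ} {f : ℍ → ℂ} (hL : 0 < L) (hf : Cu L f) :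
    MDifferentiable 𝓘(ℂ) 𝓘(ℂ) (phi f) := by
  rw [UpperHalfPlane.mdifferentiable_iff]
  intro w hw
  have h := h1.der f _ (hb.ex L f hL hf).1 ⟨w, hw⟩
  exact h.differentiableAt.differentiableWithinAt

theorem cnt_smul (γ : SL(2, ℤ)) : MDifferentiable 𝓘(ℂ) 𝓘(ℂ) (fun z : ℍ => γ • z) := by
  have h : 0 < (γ : GL (Fin 2) ℝ).det.val := by simp
  exact UpperHalfPlane.mdifferentiable_smul h

theorem cnt_mem {w : ℂ} (hw : w ∈ {w : ℂ | 0 < w.im ∧ 1 < ‖w‖ ∧ |w.re| < 1 / 2}) :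
    ofComplex w ∈ 𝒟ᵒ ∧ (ofComplex w : ℂ) = w := by
  rw [← ModularGroup.coe_fdo] at hw
  obtain ⟨z, hz, rfl⟩ := hw
  rw [ofComplex_apply]
  exact ⟨hz, rfl⟩

theorem cnt_wp (P : PeriodPair) (b : Bool) (u w : ℂ)
    (h : (if b then 1 else -1) * u - w ∈ P.lattice) :
    P.weierstrassP u = P.weierstrassP w := by
  have h2 := P.weierstrassP_add_coe w ⟨_, h⟩
  rw [← h2]
  cases b
  · rw [← P.weierstrassP_neg u]
    congr 1
    simp
  · congr 1
    simp

theorem cnt_of (_hc : S_CU) (hb : S_BE) (h1 : S_PH1) (c1 : S_CN1) (c2 : S_CN2) (c3 : S_CN3)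
    (hw : S_WP) (c4 : S_CN4) : S_CNT := by
  classical
  intro ι _ P L rep f o s h0 hs
  refine ⟨{w : ℂ | 2 * w ∈ P.lattice} ∪
    ((⋃ i, {w | P.weierstrassP w = P.weierstrassP (phi f (rep i • UpperHalfPlane.I) - s)}) ∪
    ⋃ q : ι × Bool, ⋃ z ∈ {w : ℂ | 0 < w.im ∧ deriv (fun w => jj (ofComplex w)) w = 0},
      {w : ℂ | (if q.2 then 1 else -1) * (phi f (rep q.1 • ofComplex z) - s) - w ∈ P.lattice}),
    (cnt_two P).union ((Set.countable_iUnion fun i => hw.cnt P _).union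
      (Set.countable_iUnion fun q => c2.crit.biUnion fun z _ => cnt_sub P _)), ?_⟩
  intro w hZ T hT
  simp only [Set.mem_union, not_or, Set.mem_iUnion, not_exists, Set.mem_ofPred_eq] at hZ
  obtain ⟨hZ1, hZ2, hZ3⟩ := hZ
  obtain ⟨n1, n2, n3⟩ := c4 ι P L rep f o s (P.weierstrassP w) h0 hs
  have hne : nrm P rep f s (P.weierstrassP w) ≠ 0 := by
    intro h
    have h2 := congrFun h UpperHalfPlane.I
    simp only [nrm, Pi.zero_apply, Finset.prod_eq_zero_iff] at h2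
    obtain ⟨i, -, hi⟩ := h2
    exact hZ2 i (sub_eq_zero.mp hi).symm
  obtain ⟨Q, hQ0, hQd, hQ⟩ := c1 _ _ n1 n2 n3 hne
  have hU : IsOpen {w : ℂ | 0 < w.im ∧ 1 < ‖w‖ ∧ |w.re| < 1 / 2} :=
    (isOpen_lt continuous_const Complex.continuous_im).inter
      ((isOpen_lt continuous_const continuous_norm).inter
        (isOpen_lt Complex.continuous_re.abs continuous_const))
  have hJ : DifferentiableOn ℂ (fun w => jj (ofComplex w))
      {w : ℂ | 0 < w.im ∧ 1 < ‖w‖ ∧ |w.re| < 1 / 2} :=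
    (UpperHalfPlane.mdifferentiable_iff.mp c2.hol).mono fun _ h => h.1
  have hI : Set.InjOn (fun w => jj (ofComplex w))
      {w : ℂ | 0 < w.im ∧ 1 < ‖w‖ ∧ |w.re| < 1 / 2} := by
    intro a ha b hb' hab
    have h2 := c2.inj (cnt_mem ha).1 (cnt_mem hb').1 hab
    rw [← (cnt_mem ha).2, ← (cnt_mem hb').2, h2]
  have hg : ∀ i, DifferentiableOn ℂ
      (fun z => P.weierstrassP (phi f (rep i • ofComplex z) - s) - P.weierstrassP w)
      {w : ℂ | 0 < w.im ∧ 1 < ‖w‖ ∧ |w.re| < 1 / 2} := by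
    intro i
    have h2 : DifferentiableOn ℂ (fun z => phi f (rep i • ofComplex z))
        {w : ℂ | 0 < w.im ∧ 1 < ‖w‖ ∧ |w.re| < 1 / 2} :=
      (UpperHalfPlane.mdifferentiable_iff.mp
        ((cnt_phi hb h1 h0.pos h0.cu).comp (cnt_smul (rep i)))).mono fun _ h => h.1
    exact (P.differentiableOn_weierstrassP.comp (h2.sub_const s) fun z _ => hs _).sub_const _
  have key := c3 ι (fun w => jj (ofComplex w))
    (fun i z => P.weierstrassP (phi f (rep i • ofComplex z) - s) - P.weierstrassP w) _ Q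
    (T.image fun p => (p.1.1, p.2)) hU hJ hI hg hQ0 (fun z _ => hQ (ofComplex z)) (by
      intro p hp
      obtain ⟨q, hq, rfl⟩ := Finset.mem_image.mp hp
      obtain ⟨t1, t2⟩ := hT q hq
      exact ⟨t1, fun h => hZ3 q.1 q.2 ⟨t1.1, h⟩ t2, sub_eq_zero.mpr (cnt_wp P _ _ _ t2)⟩)
  have hinj : Set.InjOn (fun p : (ι × Bool) × ℂ => (p.1.1, p.2)) T := by
    rintro ⟨⟨i, b⟩, z⟩ hp ⟨⟨i', b'⟩, z'⟩ hq h
    obtain ⟨rfl, rfl⟩ : i = i' ∧ z = z' := by simpa using h
    have t1 := (hT _ hp).2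
    have t2 := (hT _ hq).2
    by_contra hne'
    have hbb : b ≠ b' := fun e => hne' (by rw [e])
    have h3 := P.lattice.neg_mem (P.lattice.add_mem t1 t2)
    apply hZ1
    have h4 : 2 * w = -((if b then 1 else -1) * (phi f (rep i • ofComplex z) - s) - w +
        ((if b' then 1 else -1) * (phi f (rep i • ofComplex z) - s) - w)) := by
      cases b <;> cases b' <;> first | exact absurd rfl hbb | (simp; ring)
    rw [h4]
    exact h3
  rw [Finset.card_image_of_injOn hinj] at key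
  exact le_trans (by exact_mod_cast key) hQd

end Pool.Agent.MP_b2c033_nt.UA
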