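import Pool.Agent.MP_b2c033_nt.UA.Spec

/-! Row CU: the space of cusp forms is stable under the rational group. -/

set_option autoImplicit false

namespace Pool.Agent.MP_b2c033_nt.UA

open CongruenceSubgroup
open UpperHalfPlane hiding I
open scoped Manifold MatrixGroups ModularForm

theorem cu_bd (f : ℍ → ℂ) (α : GL (Fin 2) ℝ) (h : Bd f) : Bd (f ∣[(2 : ℤ)] α) := by
  obtain ⟨h1, C, h2⟩ := h
  refine ⟨h1.slash 2 α, C, fun z => ?_⟩
  have h3 := h2 (α • z)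
  rw [UpperHalfPlane.im_smul_eq_div_normSq] at h3
  have h4 : ‖(f ∣[(2 : ℤ)] α) z‖ = ‖f (α • z)‖ * |α.det.val| / Complex.normSq (denom α z) := by
    rw [ModularForm.slash_apply, norm_mul, norm_mul, norm_σ, norm_zpow, norm_zpow,
      Complex.normSq_eq_norm_sq, Complex.norm_real, Real.norm_eq_abs, abs_abs, zpow_neg,
      div_eq_mul_inv]
    norm_num
  rw [h4]
  refine le_of_eq_of_le ?_ h3
  ring

theorem cu_rat (α : GL (Fin 2) ℝ) (h : RP α) :
    ∃ g : GL (Fin 2) ℚ, g.map (Rat.castHom ℝ) = α := by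
  choose r hr using h.2
  have h1 : (Rat.castHom ℝ).mapMatrix (Matrix.of r) = α.val := by
    ext i j
    simp [hr]
  have h2 : (Matrix.of r).det ≠ 0 := by
    intro h0
    have := (Rat.castHom ℝ).map_det (Matrix.of r)
    rw [h0, h1, map_zero] at this
    exact h.1.ne this
  refine ⟨Matrix.GeneralLinearGroup.mkOfDetNeZero _ h2, Units.ext ?_⟩
  exact h1

theorem cu_conj (L : ℕ) (α : GL (Fin 2) ℝ) (hL : 0 < L) (h : RP α) : ∃ M : ℕ, 0 < M ∧
    ∀ δ ∈ Gamma M, ∃ δ' ∈ Gamma L, α * (δ : GL (Fin 2) ℝ) = (δ' : GL (Fin 2) ℝ) * α := by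
  obtain ⟨g, rfl⟩ := cu_rat α h
  have : NeZero L := ⟨hL.ne'⟩
  obtain ⟨M, h0, h1⟩ := (Gamma_is_cong_sub L).conjGL g
  refine ⟨M, Nat.pos_of_ne_zero h0, fun δ hδ => ?_⟩
  obtain ⟨y, h2, h3⟩ := mem_conjGL.1 (h1 hδ)
  exact ⟨y, h2, by rw [h3, inv_mul_cancel_right]⟩

theorem cu : S_CU where
  zero := fun L => ⟨⟨mdifferentiable_const, 0, fun z => by simp⟩,
    fun γ _ => SlashAction.zero_slash _ _⟩
  add := by
    rintro L f g ⟨⟨a1, C, a2⟩, a3⟩ ⟨⟨b1, D, b2⟩, b3⟩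
    refine ⟨⟨a1.add b1, C + D, fun z => ?_⟩, fun γ h => ?_⟩
    · have := mul_le_mul_of_nonneg_left (norm_add_le (f z) (g z)) z.im_pos.le
      rw [Pi.add_apply]
      linarith [a2 z, b2 z]
    · rw [SlashAction.add_slash, a3 γ h, b3 γ h]
  smul := by
    rintro L c f ⟨⟨a1, C, a2⟩, a3⟩
    refine ⟨⟨a1.const_smul c, ‖c‖ * C, fun z => ?_⟩, fun γ h => ?_⟩
    · have := mul_le_mul_of_nonneg_left (a2 z) (norm_nonneg c)
      rw [Pi.smul_apply, norm_smul]
      linarith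
    · rw [ModularForm.SL_smul_slash, a3 γ h]
  mono := by
    rintro L L' f hd ⟨a1, a3⟩
    refine ⟨a1, fun γ h => a3 γ ?_⟩
    obtain ⟨h1, h2, h3, h4⟩ := Gamma_mem.1 h
    have k : ∀ x y : ℤ, (x : ZMod L') = y → (x : ZMod L) = y := fun x y e => by
      rw [ZMod.intCast_eq_intCast_iff] at e ⊢
      exact e.of_dvd (Int.natCast_dvd_natCast.2 hd)
    refine Gamma_mem.2 ⟨?_, ?_, ?_, ?_⟩
    · simpa using k _ 1 (by simpa using h1)
    · simpa using k _ 0 (by simpa using h2)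
    · simpa using k _ 0 (by simpa using h3)
    · simpa using k _ 1 (by simpa using h4)
  sl := by
    rintro L f γ ⟨a1, a3⟩
    refine ⟨cu_bd f _ a1, fun δ h => ?_⟩
    rw [← SlashAction.slash_mul, show γ * δ = γ * δ * γ⁻¹ * γ by group, SlashAction.slash_mul,
      a3 _ ((Gamma_normal L).conj_mem δ h γ)]
  bd := fun f α _ h => cu_bd f α h
  rpsl := fun γ => ⟨by
    have h : (γ : GL (Fin 2) ℝ).val.det = 1 := (γ.map (Int.castRingHom ℝ)).det_coe
    rw [h]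
    exact one_pos, fun i j => ⟨(γ i j : ℤ), by simp⟩⟩
  rpmul := by
    intro α β a b
    refine ⟨?_, fun i j => ?_⟩
    · rw [Units.val_mul, Matrix.det_mul]
      exact mul_pos a.1 b.1
    · obtain ⟨g, rfl⟩ := cu_rat α a
      obtain ⟨g', rfl⟩ := cu_rat β b
      rw [← map_mul]
      exact ⟨(g * g').val i j, rfl⟩
  rpinv := by
    intro α a
    refine ⟨?_, fun i j => ?_⟩
    · have : (α⁻¹).val.det * α.val.det = 1 := by
        rw [← Matrix.det_mul, ← Units.val_mul, inv_mul_cancel, Units.val_one, Matrix.det_one]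
      exact (pos_iff_pos_of_mul_pos (this ▸ one_pos)).2 a.1
    · obtain ⟨g, rfl⟩ := cu_rat α a
      rw [← map_inv]
      exact ⟨(g⁻¹).val i j, rfl⟩
  conj := cu_conj
  rp := by
    rintro f α a ⟨L, hL, a1, a3⟩
    obtain ⟨M, h0, h1⟩ := cu_conj L α hL a
    refine ⟨M, h0, cu_bd f α a1, fun δ h => ?_⟩
    obtain ⟨δ', h2, h3⟩ := h1 δ h
    rw [ModularForm.SL_slash, ← SlashAction.slash_mul, h3, SlashAction.slash_mul,
      ← ModularForm.SL_slash, a3 _ h2]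

end Pool.Agent.MP_b2c033_nt.UA
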