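import Pool.Agent.MP_b2c033_nt.UA.Spec

/-! The degree inequality from the area bound and the count. -/

namespace Pool.Agent.MP_b2c033_nt.UA

open Filter MeasureTheory CongruenceSubgroup Asymptotics
open UpperHalfPlane hiding I
open scoped Real Manifold MatrixGroups ModularForm Modular Topology ENNReal Polynomial

theorem dg1_opos (hc : S_CU) (hb : S_BE) {ι : Type} {P : PeriodPair} {L : ℕ}
    {rep : ι → SL(2, ℤ)} {f : ℍ → ℂ} {o : ι → ℚ} (H : Set0 P L rep f o) (i : ι) : 0 < o i := by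
  by_contra h
  exact H.ne i ((hb.ex L _ H.pos (hc.sl L f (rep i) H.cu)).1.1 _ (not_lt.1 h))

theorem dg1_ms (hc : S_CU) (hb : S_BE) {ι : Type} [Fintype ι] {P : PeriodPair} {L : ℕ}
    {rep : ι → SL(2, ℤ)} {f : ℍ → ℂ} {o : ι → ℚ} (H : Set0 P L rep f o) (s : ℂ) :
    0 ≤ ms P rep f o s := by
  unfold ms
  refine Finset.sum_nonneg fun i _ => ?_
  split_ifs
  · exact_mod_cast (dg1_opos hc hb H i).le
  · exact le_rfl

theorem dg1_open : IsOpen {w : ℂ | 0 < w.im ∧ 1 < ‖w‖ ∧ |w.re| < 1 / 2} :=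
  (isOpen_lt continuous_const Complex.continuous_im).inter
    ((isOpen_lt continuous_const continuous_norm).inter
      (isOpen_lt Complex.continuous_re.abs continuous_const))

theorem dg1_der (hc : S_CU) (hb : S_BE) (h1 : S_PH1) (hp : S_PER) {L : ℕ} {f : ℍ → ℂ}
    (hL : 0 < L) (hf : Cu L f) (γ : SL(2, ℤ)) (e s : ℂ) (w : ℂ) (hw : 0 < w.im) :
    HasDerivAt (fun w => e * (phi f (γ • ofComplex w) - s))
      (e * (2 * π * Complex.I * (f ∣[(2 : ℤ)] γ) (ofComplex w))) w := by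
  have hex := (hb.ex L _ hL (hc.sl L f γ hf)).1
  have hd := h1.der _ _ hex ⟨w, hw⟩
  have e1 : (fun w => e * (phi f (γ • ofComplex w) - s)) = fun w =>
      e * (ph (beta (f ∣[(2 : ℤ)] γ)) (ofComplex w) + (per f (γ : GL (Fin 2) ℝ) - s)) := by
    funext v
    have h : phi f (γ • ofComplex v) - ph (beta (f ∣[(2 : ℤ)] γ)) (ofComplex v) =
        per f (γ : GL (Fin 2) ℝ) := hp.const f _ ⟨L, hL, hf⟩ (hc.rpsl γ) (ofComplex v)
    rw [← h]; ring
  rw [e1, ofComplex_apply_of_im_pos hw]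
  exact (hd.add_const _).const_mul e

theorem dg1_enorm (b : Bool) (x : ℂ) :
    ‖(if b then (1 : ℂ) else -1) * (2 * π * Complex.I * x)‖ₑ ^ 2 =
      ENNReal.ofReal (4 * π ^ 2) * ‖x‖ₑ ^ 2 := by
  have h : ‖(if b then (1 : ℂ) else -1) * (2 * π * Complex.I * x)‖ = 2 * π * ‖x‖ := by
    cases b <;> simp [abs_of_pos Real.pi_pos]
  rw [← ofReal_norm, ← ofReal_norm, h,
    ← ENNReal.ofReal_pow (by positivity), ← ENNReal.ofReal_pow (by positivity),
    ← ENNReal.ofReal_mul (by positivity)]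
  congr 1
  ring

theorem dg1_of (hc : S_CU) (hb : S_BE) (h1 : S_PH1) (hp : S_PER) (pe : S_PE) (he : S_EUC)
    (ha : S_AREA) (hn : S_CNT) : S_DG1 := by
  intro ι _ P L rep f o s H hs
  obtain ⟨Z, hZ, hT⟩ := hn ι P L rep f o s H hs
  have hms := dg1_ms hc hb H s
  have hA := ha P (ι × Bool)
    (fun q w => (if q.2 then (1 : ℂ) else -1) * (phi f (rep q.1 • ofComplex w) - s))
    {w : ℂ | 0 < w.im ∧ 1 < ‖w‖ ∧ |w.re| < 1 / 2} ⌊2 * ms P rep f o s⌋₊ Z dg1_open
    (fun q w hw => (dg1_der hc hb h1 hp H.pos H.cu (rep q.1) _ s w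
      hw.1).differentiableAt.differentiableWithinAt) hZ
    (fun w hw T h => Nat.le_floor (hT w hw T h))
  have hbd : ∀ i, Bd (f ∣[(2 : ℤ)] rep i) := fun i => (hc.sl L f (rep i) H.cu).1
  have e1 : ∀ q : ι × Bool, ∫⁻ z in {w : ℂ | 0 < w.im ∧ 1 < ‖w‖ ∧ |w.re| < 1 / 2},
      ‖deriv (fun w => (if q.2 then (1 : ℂ) else -1) * (phi f (rep q.1 • ofComplex w) - s))
        z‖ₑ ^ 2 = ENNReal.ofReal (En (f ∣[(2 : ℤ)] rep q.1)) := by
    intro q
    have e2 : ENNReal.ofReal (En (f ∣[(2 : ℤ)] rep q.1)) =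
        ENNReal.ofReal (4 * π ^ 2) * EnL (f ∣[(2 : ℤ)] rep q.1) := by
      unfold En
      rw [ENNReal.ofReal_mul (by positivity), ENNReal.ofReal_toReal (pe.fin _ (hbd q.1)).ne]
    rw [e2, he _ (hbd q.1).1.continuous, ← lintegral_const_mul' _ _ ENNReal.ofReal_ne_top]
    refine setLIntegral_congr_fun dg1_open.measurableSet fun w hw => ?_
    show ‖deriv _ w‖ₑ ^ 2 = _
    rw [(dg1_der hc hb h1 hp H.pos H.cu (rep q.1) _ s w hw.1).deriv, dg1_enorm]
  have hEn : ∀ i, 0 ≤ En (f ∣[(2 : ℤ)] rep i) := fun i => by unfold En; positivity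
  have hOm : 0 ≤ Om P := abs_nonneg _
  simp only [e1] at hA
  rw [← ENNReal.ofReal_sum_of_nonneg (fun q _ => hEn q.1), ← ENNReal.ofReal_natCast,
    ← ENNReal.ofReal_mul (Nat.cast_nonneg _),
    ENNReal.ofReal_le_ofReal_iff (mul_nonneg (Nat.cast_nonneg _) hOm),
    Fintype.sum_prod_type] at hA
  simp only [Fintype.sum_bool] at hA
  rw [Finset.sum_add_distrib] at hA
  have hfl : (⌊2 * ms P rep f o s⌋₊ : ℝ) ≤ 2 * ms P rep f o s := Nat.floor_le (by positivity)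
  have := mul_le_mul_of_nonneg_right hfl hOm
  linarith

theorem deg_of (hc : S_CU) (hb : S_BE) (h : S_DG1) : S_DEG := by
  classical
  intro ι _ P L rep f o S H hS hs
  have hOm : 0 ≤ Om P := abs_nonneg _
  have h1 : ∑ s ∈ S, ms P rep f o s ≤ ∑ i, (o i : ℝ) := by
    unfold ms
    rw [Finset.sum_comm]
    refine Finset.sum_le_sum fun i _ => ?_
    have ho : (0 : ℝ) ≤ o i := by exact_mod_cast (dg1_opos hc hb H i).le
    by_cases hx : ∃ s ∈ S, per f (rep i : GL (Fin 2) ℝ) - s ∈ P.lattice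
    · obtain ⟨s, hs1, hs2⟩ := hx
      rw [Finset.sum_eq_single s]
      · rw [if_pos hs2]
      · intro s' hs' hne
        rw [if_neg]
        intro h'
        refine hne (hS s' hs' s hs1 ?_)
        have := P.lattice.sub_mem hs2 h'
        rwa [sub_sub_sub_cancel_left] at this
      · intro h'; exact absurd hs1 h'
    · rw [Finset.sum_eq_zero]
      · exact ho
      · intro s hs1
        rw [if_neg fun h' => hx ⟨s, hs1, h'⟩]
  calc (S.card : ℝ) * ∑ i, En (f ∣[(2 : ℤ)] rep i)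
      = ∑ _s ∈ S, ∑ i, En (f ∣[(2 : ℤ)] rep i) := by rw [Finset.sum_const, nsmul_eq_mul]
    _ ≤ ∑ s ∈ S, Om P * ms P rep f o s :=
        Finset.sum_le_sum fun s hs1 => h ι P L rep f o s H (hs s hs1)
    _ = Om P * ∑ s ∈ S, ms P rep f o s := by rw [Finset.mul_sum]
    _ ≤ _ := mul_le_mul_of_nonneg_left h1 hOm

end Pool.Agent.MP_b2c033_nt.UA
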