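import Pool.Agent.MP_b2c033_nt.UA.Spec

/-! Existence of the expansion at infinity. -/

namespace Pool.Agent.MP_b2c033_nt.UA

open Filter Function
open UpperHalfPlane hiding I
open scoped Real Manifold MatrixGroups ModularForm Topology

noncomputable section

lemma ex1_vadd {L : ℕ} {f : ℍ → ℂ} (h : f ∣[(2 : ℤ)] (ModularGroup.T ^ L) = f) (z : ℍ) :
    f ((L : ℝ) +ᵥ z) = f z := by
  have e := congrFun h z
  rw [ModularForm.SL_slash_apply, ← zpow_natCast, modular_T_zpow_smul] at e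
  have d : denom (ModularGroup.T ^ (L : ℤ) : SL(2, ℤ)) z = 1 := by
    simp [ModularGroup.denom_apply, ModularGroup.coe_T_zpow, -map_zpow, -zpow_natCast]
  rw [d] at e
  simpa using e

lemma ex1_per {L : ℕ} {f : ℍ → ℂ} (h : f ∣[(2 : ℤ)] (ModularGroup.T ^ L) = f) :
    Periodic (f ∘ ofComplex) ((L : ℝ) : ℂ) := by
  intro w
  by_cases hw : 0 < w.im
  · have : 0 < (w + ((L : ℝ) : ℂ)).im := by simp [hw]
    simp only [comp_apply, ofComplex_apply_of_im_pos this, ofComplex_apply_of_im_pos hw]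
    rw [← ex1_vadd h ⟨w, hw⟩]
    exact congrArg f (UpperHalfPlane.ext (by simp [add_comm]))
  · have hw' := not_lt.1 hw
    have : (w + ((L : ℝ) : ℂ)).im ≤ 0 := by simpa using hw'
    simp only [comp_apply, ofComplex_apply_of_im_nonpos this, ofComplex_apply_of_im_nonpos hw']

lemma ex1_zero {f : ℍ → ℂ} (h : Bd f) : IsZeroAtImInfty f := by
  obtain ⟨C, hC⟩ := h.2
  refine isZeroAtImInfty_iff.2 fun ε hε => ⟨C / ε, fun z hz => ?_⟩
  rw [div_le_iff₀ hε] at hz
  exact le_of_mul_le_mul_left ((hC z).trans hz) z.im_pos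

theorem ex1 : S_EX1 := by
  intro L f L0 hf hT
  have hL : (0 : ℝ) < L := Nat.cast_pos.2 L0
  have hq : (L : ℚ) ≠ 0 := Nat.cast_ne_zero.2 L0.ne'
  have hc : (L : ℂ) ≠ 0 := Nat.cast_ne_zero.2 L0.ne'
  have per := ex1_per hT
  have z0 := ex1_zero hf
  have c0 : (qExpansion L f).coeff 0 = 0 := by
    rw [qExpansion_coeff_zero hL (analyticAt_cuspFunction_zero hL per hf.1 z0.isBoundedAtImInfty)
      per, z0.valueAtInfty_eq_zero]
  have inj : Injective fun n : ℕ => (n : ℚ) / L := fun a b q =>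
    Nat.cast_injective ((div_left_inj' hq).1 q)
  let b : ℚ → ℂ := extend (fun n : ℕ => (n : ℚ) / L) (fun n => (qExpansion L f).coeff n) 0
  have b1 : ∀ n : ℕ, b (n / L) = (qExpansion L f).coeff n := fun n => inj.extend_apply _ _ n
  have b2 : ∀ ν, ν ∉ Set.range (fun n : ℕ => (n : ℚ) / L) → b ν = 0 := fun ν q =>
    extend_apply' _ _ ν q
  have den : Den L b := fun ν q => by
    obtain ⟨n, rfl⟩ := not_not.1 fun e => q (b2 ν e)
    exact ⟨n, div_mul_cancel₀ _ hq⟩
  refine ⟨b, ⟨fun ν h => by_contra fun q => ?_, ⟨L, L0, den⟩, fun z => ?_⟩, den⟩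
  · obtain ⟨n, rfl⟩ := not_not.1 fun e => q (b2 ν e)
    have : n = 0 := by
      have h1 : (n : ℚ) / L * L ≤ 0 := mul_nonpos_of_nonpos_of_nonneg h (Nat.cast_nonneg L)
      rw [div_mul_cancel₀ _ hq] at h1
      exact_mod_cast le_antisymm h1 (Nat.cast_nonneg n)
    exact q ((b1 n).trans (this ▸ c0))
  refine (inj.hasSum_iff fun ν q => by rw [b2 ν q, zero_mul]).1 ?_
  have e : ((fun ν => b ν * ee ν z) ∘ fun n : ℕ => (n : ℚ) / L) =
      fun m : ℕ => (qExpansion L f).coeff m • Periodic.qParam L z ^ m := funext fun m => by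
    rw [comp_apply, b1, smul_eq_mul, ee, Periodic.qParam, ← Complex.exp_nat_mul]
    refine congrArg (fun x => _ * Complex.exp x) ?_
    push_cast
    ring
  rw [e]
  exact hasSum_qExpansion hL per hf.1 z0.isBoundedAtImInfty z

end

end Pool.Agent.MP_b2c033_nt.UA
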