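import Pool.Agent.MP_b2c033_nt.UA.Spec
import Pool.Agent.MP_b2c033_nt.H87.T1

/-! The coefficients of an expansion are unique. -/

namespace Pool.Agent.MP_b2c033_nt.UA

open Function.Periodic
open UpperHalfPlane hiding I
open scoped Real

theorem ex2_zero {M : ℕ} (hM : 0 < M) {c : ℚ → ℂ} (h0 : c 0 = 0) (hd : Den M c)
    (hs : ∀ z : ℍ, HasSum (fun ν => c ν * ee ν z) 0) : c = 0 := by
  have M0 : (M : ℚ) ≠ 0 := by positivity
  have M1 : (0 : ℝ) < M := by positivity
  have hr : ∀ ν, ν ∉ Set.range (fun n : ℕ => (n : ℚ) / M) → c ν = 0 := fun ν h => by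
    by_contra q
    obtain ⟨n, hn⟩ := hd ν q
    exact h ⟨n, by simp only [← hn, mul_div_cancel_right₀ _ M0]⟩
  have hi : Function.Injective fun n : ℕ => (n : ℚ) / M := fun n m h =>
    Nat.cast_injective ((div_left_inj' M0).1 h)
  have e := H87.t1.inj (PowerSeries.mk fun n : ℕ => c ((n : ℚ) / M)) (fun _ => 0)
    (fun q hq => by
      simp only [PowerSeries.coeff_mk]
      rcases eq_or_ne q 0 with rfl | q0
      · simpa [h0] using hasSum_single (f := fun n : ℕ => c ((n : ℚ) / M) * (0 : ℂ) ^ n) 0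
          fun n hn => by simp [hn]
      · have := (hi.hasSum_iff fun ν h => by rw [hr ν h, zero_mul]).2 (hs ⟨invQParam M q,
          im_invQParam_pos_of_norm_lt_one M1 (mem_ball_zero_iff.1 hq) q0⟩)
        refine this.congr_fun fun n => ?_
        conv_lhs => rw [← qParam_right_inv M1.ne' q0, qParam, ← Complex.exp_nat_mul]
        simp only [Function.comp, ee]
        congr 2
        push_cast
        ring) fun _ _ _ => rfl
  funext ν
  by_cases h : ν ∈ Set.range fun n : ℕ => (n : ℚ) / M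
  · obtain ⟨n, rfl⟩ := h
    simpa using congrArg (PowerSeries.coeff n) e
  · exact hr ν h

theorem ex2 : S_EX2 := by
  intro f b b' ⟨a1, ⟨L, L0, a2⟩, a3⟩ ⟨b1, ⟨L', L1, b2⟩, b3⟩
  refine sub_eq_zero.1 (ex2_zero (Nat.mul_pos L0 L1) (by simp [a1 0 le_rfl, b1 0 le_rfl])
    (fun ν h => ?_) fun z => by simpa [sub_mul] using (a3 z).sub (b3 z))
  by_cases q : b ν = 0
  · obtain ⟨n, hn⟩ := b2 ν fun q' => h (by simp [q, q'])
    exact ⟨L * n, by push_cast; rw [← hn]; ring⟩
  · obtain ⟨n, hn⟩ := a2 ν q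
    exact ⟨n * L', by push_cast; rw [← hn]; ring⟩

end Pool.Agent.MP_b2c033_nt.UA
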