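import Pool.Agent.MP_b2c033_nt.UA.Spec

/-! Row EX3: operations on expansions. -/

namespace Pool.Agent.MP_b2c033_nt.UA

open UpperHalfPlane hiding I
open scoped Real MatrixGroups ModularForm

theorem ex3_add (f g : ℍ → ℂ) (b b' : ℚ → ℂ) (h : Ex f b) (h' : Ex g b') :
    Ex (f + g) (b + b') := by
  obtain ⟨h1, ⟨L, L0, h2⟩, h3⟩ := h
  obtain ⟨k1, ⟨M, M0, k2⟩, k3⟩ := h'
  refine ⟨fun ν hν => by rw [Pi.add_apply, h1 ν hν, k1 ν hν, add_zero],
    ⟨L * M, Nat.mul_pos L0 M0, fun ν hν => ?_⟩, fun z => ?_⟩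
  · by_cases c : b ν = 0
    · obtain ⟨n, hn⟩ := k2 ν fun c' => hν (by rw [Pi.add_apply, c, c', add_zero])
      exact ⟨n * L, by push_cast; rw [← hn]; ring⟩
    · obtain ⟨n, hn⟩ := h2 ν c
      exact ⟨n * M, by push_cast; rw [← hn]; ring⟩
  · simpa only [Pi.add_apply, add_mul] using (h3 z).add (k3 z)

theorem ex3_smul (c : ℂ) (f : ℍ → ℂ) (b : ℚ → ℂ) (h : Ex f b) : Ex (c • f) (c • b) := by
  obtain ⟨h1, ⟨L, L0, h2⟩, h3⟩ := h
  refine ⟨fun ν hν => by rw [Pi.smul_apply, h1 ν hν, smul_zero],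
    ⟨L, L0, fun ν hν => h2 ν fun c' => hν (by rw [Pi.smul_apply, c', smul_zero])⟩, fun z => ?_⟩
  simpa only [Pi.smul_apply, smul_eq_mul, mul_assoc] using (h3 z).mul_left c

theorem ex3_up (f : ℍ → ℂ) (b : ℚ → ℂ) (α : GL (Fin 2) ℝ) (a x d : ℚ)
    (hα : α.val = !![(a : ℝ), (x : ℝ); 0, (d : ℝ)]) (had : 0 < a * d) (h : Ex f b) :
    Ex (f ∣[(2 : ℤ)] α) fun ν =>
      (a / d : ℂ) * Complex.exp (2 * π * Complex.I * (ν * x / a)) * b (ν * d / a) := by
  obtain ⟨h1, ⟨L, L0, h2⟩, h3⟩ := h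
  have a0 : a ≠ 0 := left_ne_zero_of_mul had.ne'
  have d0 : d ≠ 0 := right_ne_zero_of_mul had.ne'
  have a1 : (a : ℂ) ≠ 0 := Rat.cast_ne_zero.2 a0
  have d1 : (d : ℂ) ≠ 0 := Rat.cast_ne_zero.2 d0
  have p1 : 0 < a / d := by
    have e : a / d = a * d / d ^ 2 := by field_simp
    rw [e]
    positivity
  have p2 : 0 < d / a := by rw [← inv_div]; exact inv_pos.2 p1
  refine ⟨fun ν hν => ?_, ⟨L * (a / d).den, Nat.mul_pos L0 (a / d).den_pos, fun ν hν => ?_⟩,
    fun z => ?_⟩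
  · exact mul_eq_zero_of_right _ (h1 (ν * d / a)
      (by rw [mul_div_assoc]; exact mul_nonpos_of_nonpos_of_nonneg hν p2.le))
  · obtain ⟨n, hn⟩ := h2 _ (right_ne_zero_of_mul hν)
    obtain ⟨m, hm⟩ := Int.eq_ofNat_of_zero_le (Rat.num_pos.2 p1).le
    have e : a / d * (a / d).den = m := by
      rw [Rat.mul_den_eq_num, hm, Int.cast_natCast]
    refine ⟨n * m, ?_⟩
    push_cast
    rw [← hn, ← e]
    field_simp
  · have hd : α.det.val = ((a * d : ℚ) : ℝ) := by
      rw [Matrix.GeneralLinearGroup.val_det_apply, hα]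
      simp
    have hp : 0 < α.det.val := by rw [hd]; exact_mod_cast had
    have e1 : denom α z = d := by simp [denom, hα]
    have e2 : ((α • z : ℍ) : ℂ) = (a * z + x) / d := by
      rw [coe_smul_of_det_pos hp, e1]
      simp [num, hα]
    have e3 : (f ∣[(2 : ℤ)] α) z = (a / d : ℂ) * f (α • z) := by
      rw [ModularForm.slash_apply, σ, if_pos hp, abs_of_pos hp, hd, e1]
      simp only [ContinuousAlgEquiv.refl_apply]
      push_cast
      rw [zpow_neg, zpow_two]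
      field_simp
    rw [e3]
    have h4 := ((Equiv.mulRight₀ (d / a) p2.ne').hasSum_iff.2 (h3 (α • z))).mul_left (a / d : ℂ)
    have e4 : (fun ν : ℚ => (a / d : ℂ) * Complex.exp (2 * π * Complex.I * (ν * x / a)) *
        b (ν * d / a) * ee ν z) = fun ν : ℚ => (a / d : ℂ) *
          ((fun ν => b ν * ee ν (α • z)) ∘ Equiv.mulRight₀ (d / a) p2.ne') ν := by
      funext ν
      have e5 : ee (ν * (d / a)) (α • z) =
          Complex.exp (2 * π * Complex.I * (ν * x / a)) * ee ν z := by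
        rw [ee, ee, ← Complex.exp_add, e2]
        refine congrArg Complex.exp ?_
        push_cast
        field_simp
        ring
      simp only [Function.comp_apply, Equiv.mulRight₀_apply, e5, mul_div_assoc ν d a]
      ring
    rw [e4]
    exact h4

theorem ex3 : S_EX3 := ⟨ex3_add, ex3_smul, ex3_up⟩

end Pool.Agent.MP_b2c033_nt.UA
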