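import Pool.Agent.MP_b2c033_nt.UA.Spec

/-! Row A-FD: the open fundamental domain has finite positive area, and almost every point has
exactly two translates in it. -/

namespace Pool.Agent.MP_b2c033_nt.UA

open Filter MeasureTheory CongruenceSubgroup Asymptotics
open UpperHalfPlane hiding I
open scoped Real Manifold MatrixGroups ModularForm Modular Topology ENNReal Polynomial

noncomputable section

theorem fd_countable : Countable SL(2, ℤ) := by
  unfold Matrix.SpecialLinearGroup Matrix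
  infer_instance

theorem fd_mp (γ : SL(2, ℤ)) : MeasurePreserving (fun τ : ℍ => γ • τ) volume volume :=
  measurePreserving_smul (Matrix.SpecialLinearGroup.mapGL ℝ γ : GL (Fin 2) ℝ) volume

theorem fd_vol (s : Set ℍ) : volume s =
    ∫⁻ z : ℂ in UpperHalfPlane.coe '' s, ENNReal.ofReal (1 / z.im ^ 2) := by
  rw [UpperHalfPlane.volume_eq_lintegral]
  refine lintegral_congr fun z => ?_
  rw [← ENNReal.ofReal_coe_nnreal]
  simp

theorem fd_line (c : ℝ) : volume {z : ℂ | z.re = c} = 0 := by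
  have h : {z : ℂ | z.re = c} =
      Complex.measurableEquivRealProd ⁻¹' (({c} : Set ℝ) ×ˢ (Set.univ : Set ℝ)) := by
    ext z
    simp
  rw [h, Complex.volume_preserving_equiv_real_prod.measure_preimage_equiv,
    Measure.volume_eq_prod, Measure.prod_prod]
  simp

theorem fd_bdry : volume ((𝒟 : Set ℍ) \ 𝒟ᵒ) = 0 := by
  rw [fd_vol]
  refine setLIntegral_measure_zero _ _ ?_
  have hsub : UpperHalfPlane.coe '' ((𝒟 : Set ℍ) \ 𝒟ᵒ) ⊆
      (Metric.sphere (0 : ℂ) 1 ∪ {z : ℂ | z.re = 1 / 2}) ∪ {z : ℂ | z.re = -(1 / 2)} := by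
    rintro _ ⟨τ, ⟨⟨h1, h2⟩, h3⟩, rfl⟩
    by_contra hc
    simp only [Set.mem_union, not_or, Set.mem_ofPred_eq, mem_sphere_zero_iff_norm,
      UpperHalfPlane.coe_re] at hc
    obtain ⟨⟨a1, a2⟩, a3⟩ := hc
    refine h3 ⟨lt_of_le_of_ne h1 fun h => a1 ?_, lt_of_le_of_ne h2 fun h => ?_⟩
    · rw [Complex.normSq_eq_norm_sq] at h
      have := norm_nonneg (τ : ℂ)
      nlinarith
    · rcases abs_eq (by norm_num : (0 : ℝ) ≤ 1 / 2) |>.1 h with h | h
      · exact a2 h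
      · exact a3 h
  exact measure_mono_null hsub
    (measure_union_null (measure_union_null (Measure.addHaar_sphere _ _ _) (fd_line _))
      (fd_line _))

theorem fd_fin : volume 𝒟ᵒ < ⊤ := by
  rw [fd_vol]
  have hsub : UpperHalfPlane.coe '' (𝒟ᵒ : Set ℍ) ⊆ Complex.measurableEquivRealProd ⁻¹'
      (Set.Ioo (-(1 / 2) : ℝ) (1 / 2) ×ˢ Set.Ioi (1 / 2 : ℝ)) := by
    rintro _ ⟨τ, hτ, rfl⟩
    have h1 := ModularGroup.three_lt_four_mul_im_sq_of_mem_fdo hτ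
    have h2 := abs_lt.1 hτ.2
    have h3 := τ.im_pos
    refine ⟨⟨h2.1, h2.2⟩, ?_⟩
    change 1 / 2 < τ.im
    by_contra hc
    have hc' : τ.im ≤ 1 / 2 := not_lt.1 hc
    nlinarith
  refine lt_of_le_of_lt (lintegral_mono_set hsub) ?_
  have h := Complex.volume_preserving_equiv_real_prod.setLIntegral_comp_preimage_emb
    Complex.measurableEquivRealProd.measurableEmbedding
    (fun p : ℝ × ℝ => ENNReal.ofReal (1 / p.2 ^ 2))
    (Set.Ioo (-(1 / 2) : ℝ) (1 / 2) ×ˢ Set.Ioi (1 / 2 : ℝ))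
  refine lt_of_eq_of_lt h ?_
  rw [Measure.volume_eq_prod, ← Measure.prod_restrict, lintegral_prod_symm' _ (by fun_prop)]
  have h1 : ∀ y : ℝ, ∫⁻ _ in Set.Ioo (-(1 / 2) : ℝ) (1 / 2), ENNReal.ofReal (1 / y ^ 2) =
      ENNReal.ofReal (1 / y ^ 2) := by
    intro y
    rw [setLIntegral_const, Real.volume_Ioo]
    norm_num
  simp only [h1]
  have h2 : IntegrableOn (fun y : ℝ => y ^ (-2 : ℝ)) (Set.Ioi (1 / 2 : ℝ)) :=
    integrableOn_Ioi_rpow_of_lt (by norm_num) (by norm_num)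
  refine lt_of_eq_of_lt ?_ h2.lintegral_lt_top
  refine setLIntegral_congr_fun measurableSet_Ioi fun y hy => ?_
  have hy0 : (0 : ℝ) < y := lt_trans (by norm_num) hy
  rw [Real.rpow_neg hy0.le]
  simp

theorem fd_pos : 0 < volume 𝒟ᵒ := by
  rw [fd_vol, setLIntegral_pos_iff (by fun_prop)]
  have ho : IsOpen (UpperHalfPlane.coe '' (𝒟ᵒ : Set ℍ)) :=
    UpperHalfPlane.isOpenEmbedding_coe.isOpenMap _ ModularGroup.isOpen_fdo
  have hne : (UpperHalfPlane.coe '' (𝒟ᵒ : Set ℍ)).Nonempty := by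
    rw [ModularGroup.coe_fdo]
    refine ⟨2 * Complex.I, ?_⟩
    simp
  refine lt_of_lt_of_le (ho.measure_pos volume hne) (measure_mono ?_)
  rintro _ ⟨τ, hτ, rfl⟩
  refine ⟨?_, τ, hτ, rfl⟩
  have h3 : 0 < (τ : ℂ).im := τ.im_pos
  exact (ENNReal.ofReal_pos.2 (by positivity)).ne'

theorem fd_ne_neg (g : SL(2, ℤ)) : g ≠ -g := by
  intro h
  have h1 : (1 : SL(2, ℤ)) = -1 := by
    have : g⁻¹ * g = g⁻¹ * -g := by rw [← h]
    rwa [mul_neg, inv_mul_cancel] at this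
  have h2 := congrArg (fun x : SL(2, ℤ) => x 0 0) h1
  simp at h2

theorem fd_count (z : ℍ) (g : SL(2, ℤ)) (hg : g • z ∈ 𝒟ᵒ) :
    ∑' γ : SL(2, ℤ), (𝒟ᵒ).indicator (fun _ => (1 : ℝ≥0∞)) (γ • z) = 2 := by
  classical
  have hn : (-g) • z ∈ 𝒟ᵒ := by rwa [ModularGroup.SL_neg_smul]
  rw [tsum_eq_sum (s := {g, -g}), Finset.sum_pair (fd_ne_neg g), Set.indicator_of_mem hg,
    Set.indicator_of_mem hn, one_add_one_eq_two]
  intro γ hγ
  refine Set.indicator_of_notMem (fun h => hγ ?_) _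
  have h1 : (γ * g⁻¹) • g • z ∈ 𝒟ᵒ := by
    rwa [← mul_smul, inv_mul_cancel_right]
  rcases ModularGroup.eq_one_or_neg_one_of_mem_fdo_mem_fdo hg h1 with h2 | h2
  · rw [mul_inv_eq_iff_eq_mul, one_mul] at h2
    simp [h2]
  · rw [mul_inv_eq_iff_eq_mul, neg_one_mul] at h2
    simp [h2]

theorem fd_two :
    ∀ᵐ z : ℍ, ∑' γ : SL(2, ℤ), (𝒟ᵒ).indicator (fun _ => (1 : ℝ≥0∞)) (γ • z) = 2 := by
  have := fd_countable
  have h : ∀ᵐ z : ℍ, ∀ γ : SL(2, ℤ), γ • z ∉ (𝒟 : Set ℍ) \ 𝒟ᵒ := by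
    rw [ae_all_iff]
    intro γ
    exact (fd_mp γ).quasiMeasurePreserving.ae (measure_eq_zero_iff_ae_notMem.1 fd_bdry)
  filter_upwards [h] with z hz
  obtain ⟨g, hg⟩ := ModularGroup.exists_smul_mem_fd z
  refine fd_count z g ?_
  by_contra hc
  exact hz g ⟨hg, hc⟩

theorem fd : S_FD := ⟨fd_fin, fd_pos, fd_two⟩

end

end Pool.Agent.MP_b2c033_nt.UA
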