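import Pool.Agent.MP_b2c033_nt.UA.Fx
import Pool.Agent.MP_b2c033_nt.U.Spec

/-! Valence, horoball and degree inequalities for every realised space; covolume bounds. -/

namespace Pool.Agent.MP_b2c033_nt.UA

open CongruenceSubgroup MeasureTheory
open UpperHalfPlane hiding I
open scoped Real Manifold MatrixGroups ModularForm ENNReal InnerProductSpace
open U (Mt ofZ SZ mob sl Cusp Av AvFacts Lev fdC CS Realis)

section

variable {V : Type} [NormedAddCommGroup V] [InnerProductSpace ℂ V] {C : CS V}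
  {ι φ : V →ₗ[ℂ] ℍ → ℂ}

lemma re_act (R : Realis C ι φ) (γ : SZ) (v : V) :
    ι (C.act (ofZ γ) v) = ι v ∣[(2 : ℤ)] γ := by
  rw [R.act _ _ (by simp), sl_ofZ]

lemma re_ins (R : Realis C ι φ) (v : V) : InS (ι v) := (cusp_iff _).1 (R.cusp v)

lemma re_cu (R : Realis C ι φ) {L : ℕ} {v : V} (h : C.Fix (Gamma L) v) : Cu L (ι v) := by
  obtain ⟨M, -, h1⟩ := re_ins R v
  exact ⟨h1.1, fun γ hγ => by rw [← re_act R, h γ hγ]⟩

lemma ofZ_T (L : ℕ) : ofZ (ModularGroup.T ^ (L : ℤ)) = U.Tr L := by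
  have := ModularGroup.coe_T_zpow (L : ℤ)
  ext <;> simp only [ofZ, U.Tr] <;> rw [this] <;> simp

lemma re_ex (R : Realis C ι φ) (v : V) : Ex (ι v) fun ν => C.β ν v := by
  refine ⟨fun ν hν => C.β_neg ν v hν, ?_, R.sum v⟩
  obtain ⟨L, hL, h1⟩ := C.smooth v
  refine ⟨L, hL, fun ν hν => ?_⟩
  have h2 := C.β_Tr L ν v
  rw [← ofZ_T, h1 _ (ModularGroup_T_pow_mem_Gamma (L : ℤ) (L : ℤ) dvd_rfl)] at h2
  have h3 : U.ee (ν * L) = 1 := (mul_left_eq_self₀.1 h2.symm).resolve_right hν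
  obtain ⟨n, hn⟩ := Complex.exp_eq_one_iff.1 h3
  have h4 : ((ν * L : ℚ) : ℂ) = n := by
    have := Complex.two_pi_I_ne_zero
    apply mul_left_cancel₀ this
    rw [hn]; ring
  have h5 : ν * L = n := by exact_mod_cast h4
  have h6 : 0 < ν := lt_of_not_ge fun h => hν (C.β_neg ν v h)
  have h7 : 0 ≤ n := by
    have : (0 : ℚ) ≤ n := by rw [← h5]; positivity
    exact_mod_cast this
  lift n to ℕ using h7
  exact ⟨n, by simpa using h5⟩

lemma re_beta (h : Fx) (R : Realis C ι φ) (v : V) (ν : ℚ) : beta (ι v) ν = C.β ν v := by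
  rw [h.be.eq _ _ (re_ex R v)]

lemma re_phi (h : Fx) (R : Realis C ι φ) (v : V) : phi (ι v) = φ v := by
  funext z
  rw [phi, h.be.eq _ _ (re_ex R v)]
  exact (R.phi v z).tsum_eq

lemma re_per (h : Fx) (R : Realis C ι φ) (γ : SZ) (v : V) :
    per (ι v) (γ : GL (Fin 2) ℝ) = C.per (ofZ γ) v := by
  have := R.per (ofZ γ) v UpperHalfPlane.I (by simp)
  rw [mob_ofZ, ← re_phi h R, ← re_phi h R, re_act R] at this
  rw [per, ← ModularGroup.sl_moeb, this, ← ModularForm.SL_slash]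
  ring

lemma re_norm (h : Fx) (R : Realis C ι φ) {L : ℕ} (hL : 0 < L) {v : V}
    (hv : C.Fix (Gamma L) v) {s : Finset SZ}
    (hs : ∀ Φ : SZ → ℝ, Av ⊤ L Φ = ((s.card : ℝ)⁻¹) • ∑ i : s, Φ i) :
    ‖v‖ ^ 2 = (s.card : ℝ)⁻¹ * ∑ i : s, En (ι v ∣[(2 : ℤ)] (i : SZ)) := by
  rw [R.norm v L hL hv, hs, mul_smul_comm, Finset.mul_sum, smul_eq_mul]
  refine congrArg _ (Finset.sum_congr rfl fun i _ => ?_)
  rw [re_act R, en_eq h (h.cu.sl L _ _ (re_cu R hv)).1]

end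

lemma gamma_mono {L M : ℕ} (h : L ∣ M) : Gamma M ≤ Gamma L := fun γ hγ => by
  rw [Gamma_mem] at hγ ⊢
  have := fun (a b : ℤ) (e : (a : ZMod M) = (b : ℤ)) => congrArg (ZMod.castHom h (ZMod L)) e
  refine ⟨?_, ?_, ?_, ?_⟩
  · simpa [h] using this (γ 0 0) 1 (by simpa using hγ.1)
  · simpa [h] using this (γ 0 1) 0 (by simpa using hγ.2.1)
  · simpa [h] using this (γ 1 0) 0 (by simpa using hγ.2.2.1)
  · simpa [h] using this (γ 1 1) 1 (by simpa using hγ.2.2.2)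

lemma gamma_le_one (M : ℕ) : Gamma M ≤ Gamma1 M := fun γ hγ => by
  rw [Gamma_mem] at hγ
  rw [Gamma1_mem]
  exact ⟨hγ.1, hγ.2.2.2, hγ.2.2.1⟩

theorem sval_of (h : Fx) : U.S_Val := by
  intro V _ _ C ι φ ha R v L o hv hL ho hz
  obtain ⟨M, hM, h1⟩ := C.smooth v
  have hLM : 0 < L * M := by positivity
  have h2 : C.Fix (Gamma (L * M)) v := fun γ hγ => h1 γ (gamma_mono (dvd_mul_left _ _) hγ)
  obtain ⟨s, h0, ht, hs⟩ := av_tr ha (L * M) hLM
  have hc := re_cu R h2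
  have := h.val s _ _ 2 (ι v) (fun i => o i) ht hc.1.1 hc.2
    (fun e => hv (R.inj (by rw [e, map_zero]))) fun i => by
      rw [← re_act R]
      exact h.ph2.big _ _ _ (re_ex R _) (hz i)
  rw [← ha.lev ℝ ⊤ L (L * M) o hLM (dvd_mul_right _ _) ho, hs, smul_eq_mul]
  rw [Fintype.card_coe] at this
  have a1 : (0 : ℝ) < s.card := by exact_mod_cast h0
  rw [inv_mul_le_iff₀ a1]
  push_cast at this
  linarith

theorem shoro_of (h : Fx) : U.S_Horo := by
  intro V _ _ C ι φ ha R v L Φ hL hv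
  obtain ⟨s, h0, ht, hs⟩ := av_tr ha L hL
  have := h.horo s L _ (ι v) (fun _ => Φ) hL ht (re_cu R hv)
  rw [re_norm h R hL hv (hs ℝ), hs, smul_eq_mul]
  refine mul_le_mul_of_nonneg_left (le_of_eq_of_le ?_ this) (by positivity)
  refine Finset.sum_congr rfl fun i _ => ?_
  rw [Finset.mul_sum]
  refine Finset.sum_congr rfl fun ν _ => ?_
  rw [← re_act R, re_beta h R, show -4 * π * (ν : ℝ) = -(4 * π * ν) by ring]

theorem sdeg_of (h : Fx) : U.S_Deg := by
  intro V _ _ C ι φ ha R P M F S m hD hS hav hm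
  obtain ⟨L, o, hL, ho, hν, hm⟩ := hm
  choose ν h1 h2 using hν
  have hM := hD.pos
  have hLM : 0 < L * M := by positivity
  have hle : Gamma (L * M) ≤ Gamma1 M := (gamma_mono (dvd_mul_left _ _)).trans (gamma_le_one M)
  have hF : C.Fix (Gamma (L * M)) F := fun γ hγ => hD.fix γ (hle hγ)
  obtain ⟨s, h0, ht, hs⟩ := av_tr ha (L * M) hLM
  have := h.deg s P (L * M) _ (ι F) (fun i => ν i) S
    ⟨hLM, ht, re_cu R hF, fun δ hδ => by rw [re_per h R]; exact hD.per δ (hle hδ),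
      fun i => by rw [← re_act R, re_beta h R]; exact h2 i⟩ hS
    fun s hs z => by rw [re_phi h R]; exact hav z s hs
  rw [← ha.lev ℝ ⊤ L (L * M) o hLM (dvd_mul_right _ _) ho, hs, smul_eq_mul] at hm
  have hO : 0 ≤ Om P := abs_nonneg _
  have h3 : ∑ i : s, (ν i : ℝ) ≤ ∑ i : s, o i := Finset.sum_le_sum fun i _ => h1 i
  have a1 : (0 : ℝ) ≤ (s.card : ℝ)⁻¹ := by positivity
  rw [re_norm h R hLM hF (hs ℝ), covol_eq]
  calc _ = (s.card : ℝ)⁻¹ * (S.card * ∑ i : s, En (ι F ∣[(2 : ℤ)] (i : SZ))) := by ring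
    _ ≤ (s.card : ℝ)⁻¹ * (Om P * ∑ i : s, o i) :=
      mul_le_mul_of_nonneg_left (this.trans (mul_le_mul_of_nonneg_left h3 hO)) a1
    _ = Om P * ((s.card : ℝ)⁻¹ * ∑ i : s, o i) := by ring
    _ ≤ _ := mul_le_mul_of_nonneg_left hm hO

lemma log_six {n m : ℝ} (hn : 1000 ≤ n) (h : n ≤ m) :
    Real.log m ^ 6 / m ≤ Real.log n ^ 6 / n := by
  have n0 : 0 < n := by linarith
  have m0 : 0 < m := by linarith
  have h6 : 6 ≤ Real.log n := by
    rw [Real.le_log_iff_exp_le n0]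
    have : Real.exp 6 = Real.exp 1 ^ 6 := by rw [← Real.exp_nat_mul]; norm_num
    have h1 := Real.exp_one_lt_d9
    have h2 : Real.exp 1 ^ 6 ≤ 3 ^ 6 := pow_le_pow_left₀ (Real.exp_pos _).le (by linarith) 6
    linarith
  set u := Real.log n
  set s := Real.log m - u with hs
  have s0 : 0 ≤ s := sub_nonneg.2 (Real.log_le_log n0 h)
  have e : m = n * Real.exp (s / 6) ^ 6 := by
    rw [← Real.exp_nat_mul, show ((6 : ℕ) : ℝ) * (s / 6) = Real.log m - u by push_cast; ring,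
      Real.exp_sub, Real.exp_log m0, Real.exp_log n0]
    field_simp
  have h1 : Real.log m ≤ u * Real.exp (s / 6) := by
    have := Real.add_one_le_exp (s / 6)
    nlinarith
  have h2 : Real.log m ^ 6 ≤ (u * Real.exp (s / 6)) ^ 6 :=
    pow_le_pow_left₀ (by linarith) h1 6
  rw [div_le_div_iff₀ m0 n0]
  calc Real.log m ^ 6 * n ≤ (u * Real.exp (s / 6)) ^ 6 * n := by gcongr
    _ = u ^ 6 * (n * Real.exp (s / 6) ^ 6) := by ring
    _ = _ := by rw [← e]

theorem svol_of (h1 : S_VO1) (h2 : S_VO2) (h3 : S_VO3) : U.S_Vol := by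
  intro W P hΔ hP
  obtain ⟨τ, hτ, e1, e2⟩ := h1 P
  have hd : P.g₂ ^ 3 - 27 * P.g₃ ^ 2 = (W.Δ : ℂ) := by
    have := congrArg (Int.cast : ℤ → ℂ) W.c_relation
    push_cast at this
    rw [hP.1, hP.2]
    linear_combination (-1 / 1728 : ℂ) * this
  rw [hd, Complex.norm_intCast] at e1
  rw [hd, hP.1] at e2
  have d0 : (0 : ℝ) < |(W.Δ : ℝ)| := abs_pos.2 (by exact_mod_cast hΔ)
  have e3 : |(W.c₄ : ℝ)| ^ 3 = ‖jj τ‖ * |(W.Δ : ℝ)| := by
    rw [← Complex.norm_intCast, ← Complex.norm_intCast, ← norm_mul, ← e2, ← norm_pow]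
    refine congrArg _ ?_
    ring
  rw [covol_eq]
  refine ⟨?_, e1 ▸ h2 τ hτ, fun n hn hj => ?_⟩
  · refine (abs_nonneg _).lt_of_ne fun h0 => ?_
    have h0' : Om P = 0 := h0.symm
    have : 0 < vo τ := by
      have := norm_pos_iff.2 (ModularForm.discriminant_ne_zero τ)
      have := τ.im_pos
      unfold vo
      positivity
    rw [← e1, h0'] at this
    simp at this
  · rw [e3] at hj
    have hj' := le_of_mul_le_mul_right hj d0
    have := log_six hn (show n ≤ ‖jj τ‖ - 1400 by linarith)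
    rw [e1]
    refine (h3 τ hτ (by linarith)).trans ?_
    rw [mul_pow _ (Real.log _), mul_pow _ (Real.log _), ← mul_assoc, ← mul_assoc, mul_div_assoc,
      mul_div_assoc]
    exact mul_le_mul_of_nonneg_left this (by positivity)

end Pool.Agent.MP_b2c033_nt.UA
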