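import Pool.Agent.MP_b2c033_nt.UA.Spec

/-! Coset representatives. -/

namespace Pool.Agent.MP_b2c033_nt.UA

open scoped MatrixGroups

lemma grp_perm (ι : Type) (Γ : Subgroup SL(2, ℤ)) (rep : ι → SL(2, ℤ)) (γ : SL(2, ℤ))
    (h : Tr Γ rep) : ∃ σ : Equiv.Perm ι, ∀ i, rep i * γ * (rep (σ i))⁻¹ ∈ Γ := by
  choose c hc hu using h
  refine ⟨⟨fun i => c (rep i * γ), fun i => c (rep i * γ⁻¹), fun i => (hu _ i ?_).symm,
    fun i => (hu _ i ?_).symm⟩, fun i => hc _⟩
  · have := Γ.inv_mem (hc (rep i * γ))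
    simpa [mul_assoc] using this
  · have := Γ.inv_mem (hc (rep i * γ⁻¹))
    simpa [mul_assoc] using this

theorem grp : S_GRP := by
  refine ⟨fun Γ hΓ => ?_, grp_perm, ?_⟩
  · have hf : Finite (SL(2, ℤ) ⧸ Γ) := Subgroup.finite_quotient_of_finiteIndex
    let e := Finite.equivFin (SL(2, ℤ) ⧸ Γ)
    have key : ∀ (γ : SL(2, ℤ)) (q : SL(2, ℤ) ⧸ Γ),
        γ * ((Quotient.out q)⁻¹)⁻¹ ∈ Γ ↔ (QuotientGroup.mk γ⁻¹ : SL(2, ℤ) ⧸ Γ) = q := fun γ q => by
      rw [← QuotientGroup.out_eq' q, QuotientGroup.eq, QuotientGroup.out_eq', inv_inv, inv_inv]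
    refine ⟨_, fun i => (Quotient.out (e.symm i))⁻¹, Nat.card_pos, fun γ =>
      ⟨e (QuotientGroup.mk γ⁻¹), (key γ _).2 (e.symm_apply_apply _).symm, fun i hi => ?_⟩⟩
    rw [(key γ _).1 hi, e.apply_symm_apply]
  · intro ι ι' A _ _ _ Γ Γ' rep rep' u hle h h' hu
    classical
    choose c hc hcu using h
    have le : ∀ i i', (Finset.univ.filter fun j => c (rep' j) = i).card ≤
        (Finset.univ.filter fun j => c (rep' j) = i').card := fun i i' => by
      obtain ⟨σ, hσ⟩ := grp_perm ι' Γ' rep' ((rep i)⁻¹ * rep i') h'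
      refine Finset.card_le_card_of_injOn σ (fun j hj => ?_) σ.injective.injOn
      have hj : c (rep' j) = i := by simpa using hj
      have k1 := hc (rep' j)
      rw [hj] at k1
      have k2 := Γ.mul_mem (Γ.inv_mem (hle (hσ j))) k1
      have k3 : rep' (σ j) * (rep i')⁻¹ ∈ Γ := by simpa [mul_assoc] using k2
      simpa using (hcu _ i' k3).symm
    have hm : ∀ i, (Finset.univ.filter fun j => c (rep' j) = i).card =
        (Finset.univ.filter fun j => c (rep' j) = c 1).card := fun i =>
      le_antisymm (le _ _) (le _ _)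
    have e1 : ∑ j, u (rep' j) =
        (Finset.univ.filter fun j => c (rep' j) = c 1).card • ∑ i, u (rep i) := by
      rw [← Finset.sum_fiberwise (s := Finset.univ) (g := fun j => c (rep' j)), Finset.smul_sum]
      refine Finset.sum_congr rfl fun i _ => ?_
      rw [← hm i, ← Finset.sum_const]
      refine Finset.sum_congr rfl fun j hj => ?_
      have hj : c (rep' j) = i := by simpa using hj
      have := hu _ (hc (rep' j)) (rep (c (rep' j)))
      rw [inv_mul_cancel_right, hj] at this
      exact this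
    have e2 : Fintype.card ι' =
        Fintype.card ι * (Finset.univ.filter fun j => c (rep' j) = c 1).card := by
      rw [← Finset.card_univ, Finset.card_eq_sum_card_fiberwise (s := Finset.univ)
        (t := Finset.univ) (f := fun j => c (rep' j)) (fun _ _ => Finset.mem_univ _),
        Finset.sum_congr rfl fun i _ => hm i, Finset.sum_const, smul_eq_mul, Finset.card_univ]
    rw [e1, e2, mul_smul]

end Pool.Agent.MP_b2c033_nt.UA
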