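import Pool.Agent.MP_b2c033_nt.UA.Spec

/-! The inequality of Bessel on one horocycle. -/

namespace Pool.Agent.MP_b2c033_nt.UA

open Filter MeasureTheory
open UpperHalfPlane hiding I
open scoped Real Topology ENNReal

noncomputable section

theorem ho0_cg {ι : Type} {f g : ι → ℂ} {a : ℂ} (h : HasSum f a) (e : ∀ i, f i = g i) :
    HasSum g a := (funext e : f = g) ▸ h

theorem ho0_norm (r : ℝ) : ‖Complex.exp (2 * π * Complex.I * r)‖ = 1 := by
  rw [Complex.norm_exp]
  simp

theorem ho0_int {L : ℕ} (hL : 0 < L) (a : ℝ) (k : ℤ) :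
    ∫ x in a..(a + L), Complex.exp (2 * π * Complex.I * (k / L) * x) = if k = 0 then L else 0 := by
  have L0 : (L : ℂ) ≠ 0 := Nat.cast_ne_zero.2 hL.ne'
  split_ifs with h
  · simp [h]
  · rw [integral_exp_mul_complex (mul_ne_zero Complex.two_pi_I_ne_zero
      (div_ne_zero (Int.cast_ne_zero.2 h) L0))]
    have : 2 * π * Complex.I * (k / L) * ((a + L : ℝ) : ℂ) =
        2 * π * Complex.I * (k / L) * a + k * (2 * π * Complex.I) := by
      push_cast
      field_simp
    rw [this, Complex.exp_add, Complex.exp_int_mul_two_pi_mul_I]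
    simp

theorem ho0_bessel {c : ℚ → ℂ} {g : ℝ → ℂ} {L : ℕ} (hL : 0 < L) (hd : Den L c)
    (hs : ∀ x : ℝ, HasSum (fun ν : ℚ => c ν * Complex.exp (2 * π * Complex.I * ν * x)) (g x))
    (Φ : Finset ℚ) (a : ℝ) :
    Continuous g ∧ L * ∑ ν ∈ Φ, ‖c ν‖ ^ 2 ≤ ∫ x in a..(a + L), ‖g x‖ ^ 2 := by
  classical
  have L0 : (L : ℂ) ≠ 0 := Nat.cast_ne_zero.2 hL.ne'
  have Lp : (0 : ℝ) < L := Nat.cast_pos.2 hL
  have sn : Summable fun ν => ‖c ν‖ := by simpa using (hs 0).summable.norm
  have nm : ∀ (ν : ℚ) (x : ℝ), ‖c ν * Complex.exp (2 * π * Complex.I * ν * x)‖ = ‖c ν‖ := by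
    intro ν x
    have := ho0_norm (ν * x)
    push_cast at this
    rw [norm_mul, mul_assoc _ (ν : ℂ), this, mul_one]
  have cg : Continuous g := by
    rw [show g = fun x : ℝ => ∑' ν : ℚ, c ν * Complex.exp (2 * π * Complex.I * ν * x) from
      funext fun x => (hs x).tsum_eq.symm]
    exact continuous_tsum (fun ν => by fun_prop) sn fun ν x => (nm ν x).le
  have hab : a < a + L := by linarith
  have co : ∀ n : ℕ, fourierCoeffOn hab g n = c (n / L) := by
    intro n
    have h1 : HasSum (fun ν : ℚ => ∫ x in a..(a + L),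
        Complex.exp (2 * π * Complex.I * (-n / L) * x) *
          (c ν * Complex.exp (2 * π * Complex.I * ν * x)))
        (∫ x in a..(a + L), Complex.exp (2 * π * Complex.I * (-n / L) * x) * g x) := by
      refine intervalIntegral.hasSum_integral_of_dominated_convergence (fun ν _ => ‖c ν‖)
        (fun ν => Continuous.aestronglyMeasurable (by fun_prop))
        (fun ν => ae_of_all _ fun x _ => ?_) (ae_of_all _ fun _ _ => sn)
        intervalIntegrable_const (ae_of_all _ fun x _ => (hs x).mul_left _)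
      have := ho0_norm (-n / L * x)
      push_cast at this
      rw [norm_mul, nm, mul_assoc _ (-n / L : ℂ), this, one_mul]
    have h2 : ∀ ν : ℚ, ∫ x in a..(a + L), Complex.exp (2 * π * Complex.I * (-n / L) * x) *
        (c ν * Complex.exp (2 * π * Complex.I * ν * x)) =
        if ν = n / L then c (n / L) * L else 0 := by
      intro ν
      by_cases h0 : c ν = 0
      · split_ifs with h
        · simp [← h, h0]
        · simp [h0]
      obtain ⟨m, hm⟩ := hd ν h0
      have Lq : (L : ℚ) ≠ 0 := Nat.cast_ne_zero.2 hL.ne'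
      obtain rfl : ν = m / L := (eq_div_iff Lq).2 hm
      have e : ∀ x : ℝ, Complex.exp (2 * π * Complex.I * (-n / L) * x) *
          (c (m / L) * Complex.exp (2 * π * Complex.I * ((m / L : ℚ) : ℂ) * x)) =
          c (m / L) * Complex.exp (2 * π * Complex.I * (((m - n : ℤ) : ℂ) / L) * x) := fun x => by
        rw [mul_left_comm, ← Complex.exp_add]
        congr 2
        push_cast
        ring
      simp only [e]
      rw [intervalIntegral.integral_const_mul, ho0_int hL]
      simp only [div_left_inj' Lq, Nat.cast_inj, sub_eq_zero]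
      split_ifs with h <;> simp [h]
    simp only [h2] at h1
    rw [fourierCoeffOn_eq_integral]
    simp only [fourier_coe_apply, add_sub_cancel_left, smul_eq_mul]
    have e : ∀ x : ℝ, 2 * π * Complex.I * ((-(n : ℤ) : ℤ) : ℂ) * x / ((L : ℝ) : ℂ) =
        2 * π * Complex.I * (-n / L) * x := fun x => by
      push_cast
      ring
    simp only [e]
    rw [h1.unique (hasSum_ite_eq _ _), Complex.real_smul]
    push_cast
    field_simp
  have ml : MemLp g 2 (volume.restrict (Set.Ioc a (a + L))) := by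
    refine MemLp.of_bound cg.aestronglyMeasurable (∑' ν, ‖c ν‖) (ae_of_all _ fun x => ?_)
    exact (hs x).norm_le_of_bounded sn.hasSum fun ν => (nm ν x).le
  have hp := hasSum_sq_fourierCoeffOn hab ml
  refine ⟨cg, ?_⟩
  choose! n hn using hd
  have Lq : (L : ℚ) ≠ 0 := Nat.cast_ne_zero.2 hL.ne'
  have hn' : ∀ ν, c ν ≠ 0 → (n ν : ℚ) / L = ν := fun ν h => by
    rw [← hn ν h, mul_div_cancel_right₀ _ Lq]
  have k := sum_le_hasSum ((Φ.filter fun ν => c ν ≠ 0).image fun ν => (n ν : ℤ))
    (fun i _ => by positivity) hp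
  rw [Finset.sum_image fun ν h ν' h' e => by
    rw [← hn' ν (Finset.mem_filter.1 h).2, ← hn' ν' (Finset.mem_filter.1 h').2,
      Int.natCast_inj.1 e], Finset.sum_congr rfl fun ν h => by
    rw [co, hn' ν (Finset.mem_filter.1 h).2],
    Finset.sum_filter_of_ne (p := fun ν => c ν ≠ 0) fun ν _ h e => h (by simp [e]),
    add_sub_cancel_left, smul_eq_mul, ← div_eq_inv_mul, le_div_iff₀ Lp] at k
  rwa [mul_comm]

theorem ho0 : S_HO0 := by
  intro f b L Φ a y hL hy hb hd
  have p : ∀ x : ℝ, 0 < (x + y * Complex.I : ℂ).im := fun x => by simpa using hy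
  obtain ⟨cg, k⟩ := ho0_bessel (c := fun ν => b ν * Real.exp (-2 * π * ν * y))
    (g := fun x : ℝ => f (ofComplex (x + y * Complex.I))) hL
    (fun ν h => hd ν (left_ne_zero_of_mul h)) (fun x => by
      have := hb.2.2 (ofComplex (x + y * Complex.I))
      refine ho0_cg this fun ν => ?_
      rw [ee, ofComplex_apply_of_im_pos (p x), mul_assoc (b ν), Complex.ofReal_exp,
        ← Complex.exp_add]
      congr 2
      push_cast
      linear_combination (2 * π * ν * y) * Complex.I_sq) Φ a
  have hab : a ≤ a + L := by simp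
  have e : ∀ ν : ℚ, ‖b ν * (Real.exp (-2 * π * ν * y) : ℂ)‖ ^ 2 =
      ‖b ν‖ ^ 2 * Real.exp (-4 * π * ν * y) := fun ν => by
    rw [norm_mul, mul_pow, Complex.norm_real, Real.norm_of_nonneg (Real.exp_pos _).le,
      ← Real.exp_nat_mul]
    congr 2
    push_cast
    ring
  simp only [e] at k
  refine (ENNReal.ofReal_le_ofReal k).trans (le_of_eq ?_)
  rw [intervalIntegral.integral_of_le hab, integral_Ioc_eq_integral_Ioo,
    ofReal_integral_eq_lintegral_ofReal
      (((cg.norm.fun_pow 2).integrableOn_Icc).mono_set Set.Ioo_subset_Icc_self)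
      (ae_of_all _ fun x => by positivity)]
  refine lintegral_congr fun x => ?_
  rw [ENNReal.ofReal_pow (norm_nonneg _), ofReal_norm_eq_enorm]

end

end Pool.Agent.MP_b2c033_nt.UA
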