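import Pool.Agent.MP_b2c033_nt.UA.Spec

/-! The energy in a horoball, from below. -/

namespace Pool.Agent.MP_b2c033_nt.UA

open Filter MeasureTheory CongruenceSubgroup Set
open UpperHalfPlane hiding I
open scoped Real Manifold MatrixGroups ModularForm Modular Topology ENNReal

noncomputable section

theorem ho1_im (x y : ℝ) : 0 < ((x : ℂ) + (max y 1 : ℝ) * Complex.I).im := by
  simp

/-- the point `x + i max y 1` -/
def ho1_pt (p : ℝ × ℝ) : ℍ := ⟨(p.1 : ℂ) + (max p.2 1 : ℝ) * Complex.I, ho1_im _ _⟩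

theorem ho1_cont : Continuous ho1_pt := by
  refine isEmbedding_coe.continuous_iff.2 ?_
  change Continuous fun p : ℝ × ℝ => (p.1 : ℂ) + (max p.2 1 : ℝ) * Complex.I
  fun_prop

theorem ho1_of_gt (x : ℝ) {y : ℝ} (hy : 1 < y) :
    ofComplex (x + y * Complex.I) = ho1_pt (x, y) := by
  rw [ofComplex_apply_of_im_pos (by simpa using one_pos.trans hy)]
  ext
  simp [ho1_pt, max_eq_left hy.le]

theorem ho1_T (f : ℍ → ℂ) (t : ℕ) (x y : ℝ) :
    (f ∣[(2 : ℤ)] (ModularGroup.T ^ t)) (ho1_pt (x, y)) = f (ho1_pt (x + t, y)) := by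
  have e : ModularGroup.T ^ t • ho1_pt (x, y) = ho1_pt (x + t, y) := by
    ext
    rw [← zpow_natCast, ModularGroup.coe_T_zpow_smul_eq]
    simp [ho1_pt]
    ring
  rw [ModularForm.SL_slash_apply, e, ← zpow_natCast, ModularGroup.denom_apply]
  simp [ModularGroup.coe_T_zpow, -zpow_natCast]

theorem ho1_meas {f : ℍ → ℂ} (hf : Continuous f) :
    Measurable fun p : ℝ × ℝ => ‖f (ho1_pt p)‖ₑ ^ 2 :=
  (hf.comp ho1_cont).measurable.enorm.pow_const 2

theorem ho1_slash {f : ℍ → ℂ} (hf : Continuous f) (t : ℕ) :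
    Continuous (f ∣[(2 : ℤ)] (ModularGroup.T ^ t)) := by
  have e : f ∣[(2 : ℤ)] (ModularGroup.T ^ t) = fun z => f (ModularGroup.T ^ t • z) := by
    funext z
    rw [ModularForm.SL_slash_apply, ← zpow_natCast, ModularGroup.denom_apply]
    simp [ModularGroup.coe_T_zpow, -zpow_natCast]
  rw [e]
  refine hf.comp (isEmbedding_coe.continuous_iff.2 ?_)
  have e' : ((↑) : ℍ → ℂ) ∘ (fun z => ModularGroup.T ^ t • z) = fun z : ℍ => (z : ℂ) + (t : ℤ) := by
    funext z
    rw [Function.comp_apply, ← zpow_natCast, ModularGroup.coe_T_zpow_smul_eq]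
  rw [e']
  exact continuous_coe.add continuous_const

theorem ho1_box (he : S_EUC) {f : ℍ → ℂ} (hf : Continuous f) :
    ∫⁻ y in Ioi (1 : ℝ), ∫⁻ x in Ioo (-(1 / 2) : ℝ) (1 / 2), ‖f (ho1_pt (x, y))‖ₑ ^ 2 ≤ EnL f := by
  rw [he f hf, ← setLIntegral_prod_symm _ (ho1_meas hf).aemeasurable, ← Measure.volume_eq_prod,
    ← Complex.volume_preserving_equiv_real_prod.setLIntegral_comp_preimage_emb
      Complex.measurableEquivRealProd.measurableEmbedding]
  have m : MeasurableSet (Complex.measurableEquivRealProd ⁻¹'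
      (Ioo (-(1 / 2) : ℝ) (1 / 2) ×ˢ Ioi (1 : ℝ))) :=
    Complex.measurableEquivRealProd.measurable (measurableSet_Ioo.prod measurableSet_Ioi)
  refine (setLIntegral_congr_fun m (g := fun w => ‖f (ofComplex w)‖ₑ ^ 2) fun w hw => ?_).trans_le
    (lintegral_mono_set fun w hw => ?_)
  · have h : 1 < w.im := hw.2
    change ‖f (ho1_pt (w.re, w.im))‖ₑ ^ 2 = _
    rw [← ho1_of_gt _ h, Complex.re_add_im]
  · have h : 1 < w.im := hw.2
    exact ⟨one_pos.trans h, h.trans_le ((le_abs_self _).trans (Complex.abs_im_le_norm w)),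
      abs_lt.2 hw.1⟩

theorem ho1_sum (g : ℝ → ℝ≥0∞) (a : ℝ) (L : ℕ) : ∫⁻ x in Ioo a (a + L), g x ≤
    ∑ t ∈ Finset.range L, ∫⁻ x in Ioo a (a + 1), g (x + t) := by
  simp only [restrict_Ioo_eq_restrict_Ioc]
  induction L with
  | zero => simp
  | succ L ih =>
    rw [Finset.sum_range_succ]
    refine (lintegral_mono_set (t := Ioc a (a + L) ∪ Ioc (a + L) (a + 1 + L)) fun x hx => ?_).trans
      ((lintegral_union_le _ _ _).trans (add_le_add ih (le_of_eq ?_)))
    · rcases le_or_gt x (a + L) with h | h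
      · exact Or.inl ⟨hx.1, h⟩
      · refine Or.inr ⟨h, hx.2.trans_eq ?_⟩
        push_cast
        ring
    · rw [← (measurePreserving_add_right volume (L : ℝ)).setLIntegral_comp_preimage_emb
        (measurableEmbedding_addRight _)]
      simp

theorem ho1_exp (c : ℝ) (ν : ℚ) (h : ν ≤ 0 → c = 0) :
    IntegrableOn (fun y : ℝ => c * Real.exp (-4 * π * ν * y)) (Ioi 1) ∧
      ∫ y in Ioi (1 : ℝ), c * Real.exp (-4 * π * ν * y) =
        c * Real.exp (-4 * π * ν) / (4 * π * ν) := by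
  rcases le_or_gt ν 0 with h0 | h0
  · simp [h h0]
  · have h1 : (0 : ℝ) < ν := by exact_mod_cast h0
    have h2 : -4 * π * ν < 0 := by
      have := Real.pi_pos
      nlinarith [mul_pos this h1]
    refine ⟨(integrableOn_exp_mul_Ioi h2 1).const_mul c, ?_⟩
    rw [integral_const_mul, integral_exp_mul_Ioi h2, mul_one]
    have := Real.pi_pos
    field_simp

theorem ho1_of (he : S_EUC) (h0 : S_HO0) : S_HO1 := by
  intro f b L Φ hL hf hb hd
  have k := fun ν : ℚ => ho1_exp (‖b ν‖ ^ 2) ν fun h => by simp [hb.1 ν h]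
  have i1 : IntegrableOn (fun y : ℝ => L * ∑ ν ∈ Φ, ‖b ν‖ ^ 2 * Real.exp (-4 * π * ν * y))
      (Ioi 1) := (integrable_finsetSum Φ fun ν _ => (k ν).1).const_mul _
  calc _ = ∫⁻ y in Ioi (1 : ℝ),
        ENNReal.ofReal (L * ∑ ν ∈ Φ, ‖b ν‖ ^ 2 * Real.exp (-4 * π * ν * y)) := by
        rw [← ofReal_integral_eq_lintegral_ofReal i1 (.of_forall fun y => by positivity),
          integral_const_mul, integral_finsetSum Φ fun ν _ => (k ν).1]
        simp only [fun ν => (k ν).2]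
    _ ≤ ∫⁻ y in Ioi (1 : ℝ), ∑ t ∈ Finset.range L, ∫⁻ x in Ioo (-(1 / 2) : ℝ) (1 / 2),
        ‖(f ∣[(2 : ℤ)] (ModularGroup.T ^ t)) (ho1_pt (x, y))‖ₑ ^ 2 := by
        refine setLIntegral_mono' measurableSet_Ioi fun y hy => ?_
        refine (h0 f b L Φ (-(1 / 2)) y hL (one_pos.trans hy) hb hd).trans ?_
        simp only [ho1_of_gt _ hy, ho1_T]
        refine (ho1_sum (fun x => ‖f (ho1_pt (x, y))‖ₑ ^ 2) _ L).trans_eq ?_
        norm_num
    _ = ∑ t ∈ Finset.range L, ∫⁻ y in Ioi (1 : ℝ), ∫⁻ x in Ioo (-(1 / 2) : ℝ) (1 / 2),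
        ‖(f ∣[(2 : ℤ)] (ModularGroup.T ^ t)) (ho1_pt (x, y))‖ₑ ^ 2 :=
        lintegral_finsetSum _ fun t _ => (ho1_meas (ho1_slash hf t)).lintegral_prod_left'
    _ ≤ _ := Finset.sum_le_sum fun t _ => ho1_box he (ho1_slash hf t)

end

end Pool.Agent.MP_b2c033_nt.UA
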