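import Pool.Agent.MP_b2c033_nt.UA.Spec

/-! The energy dominates the sum over the horoballs. -/

namespace Pool.Agent.MP_b2c033_nt.UA

open Filter MeasureTheory CongruenceSubgroup
open UpperHalfPlane hiding I
open scoped Real Manifold MatrixGroups ModularForm Modular Topology ENNReal

theorem horo_perm (hg : S_GRP) {ι : Type} [Fintype ι] {L : ℕ} {rep : ι → SL(2, ℤ)} {f : ℍ → ℂ}
    (ht : Tr (Gamma L) rep) (hf : Cu L f) (γ : SL(2, ℤ)) (u : (ℍ → ℂ) → ℝ) :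
    ∑ i, u ((f ∣[(2 : ℤ)] rep i) ∣[(2 : ℤ)] γ) = ∑ i, u (f ∣[(2 : ℤ)] rep i) := by
  obtain ⟨σ, hσ⟩ := hg.perm ι _ rep γ ht
  rw [← Equiv.sum_comp σ fun i => u (f ∣[(2 : ℤ)] rep i)]
  refine Finset.sum_congr rfl fun i _ => congrArg u ?_
  rw [← SlashAction.slash_mul, ← inv_mul_cancel_right (rep i * γ) (rep (σ i)),
    SlashAction.slash_mul, hf.2 _ (hσ i)]

theorem horo_of (hc : S_CU) (hb : S_BE) (hg : S_GRP) (hp : S_PE) (h1 : S_HO1) : S_HORO := by
  intro ι _ L rep f Φ hL ht hf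
  have k1 : ∀ i, L * ∑ ν ∈ Φ (rep i), ‖beta (f ∣[(2 : ℤ)] rep i) ν‖ ^ 2 *
      Real.exp (-4 * π * ν) / (4 * π * ν) ≤ ∑ t ∈ Finset.range L,
        (EnL ((f ∣[(2 : ℤ)] rep i) ∣[(2 : ℤ)] (ModularGroup.T ^ t))).toReal := fun i => by
    have hi := hc.sl L f (rep i) hf
    have fin := fun t : ℕ => (hp.fin _ (hc.sl L _ (ModularGroup.T ^ t) hi).1).ne
    rw [← ENNReal.toReal_sum fun t _ => fin t]
    exact (ENNReal.ofReal_le_iff_le_toReal (ENNReal.sum_ne_top.2 fun t _ => fin t)).1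
      (h1 _ _ L _ hL hi.1.1.continuous (hb.ex L _ hL hi).1 (hb.ex L _ hL hi).2)
  have k2 := Finset.sum_le_sum fun i (_ : i ∈ Finset.univ) => k1 i
  rw [Finset.sum_comm, Finset.sum_congr rfl fun t _ =>
    horo_perm hg ht hf (ModularGroup.T ^ t) fun g => (EnL g).toReal, Finset.sum_const,
    Finset.card_range, nsmul_eq_mul, ← Finset.mul_sum] at k2
  have k3 := mul_le_mul_of_nonneg_left (le_of_mul_le_mul_left k2 (by exact_mod_cast hL))
    (by positivity : 0 ≤ 4 * π ^ 2)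
  simp only [Finset.mul_sum] at k3
  refine le_of_eq_of_le (Finset.sum_congr rfl fun i _ => Finset.sum_congr rfl fun ν _ => ?_) k3
  have := Real.pi_ne_zero
  rcases eq_or_ne (ν : ℝ) 0 with h | h
  · simp [h]
  · field_simp

end Pool.Agent.MP_b2c033_nt.UA
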