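import Pool.Agent.MP_b2c033_nt.UA.Spec

/-! The mean energy is invariant under rational matrices. -/

namespace Pool.Agent.MP_b2c033_nt.UA

open MeasureTheory CongruenceSubgroup
open UpperHalfPlane hiding I
open scoped Real MatrixGroups ModularForm Modular ENNReal

theorem iso_norm (f : ℍ → ℂ) (α : GL (Fin 2) ℝ) (z : ℍ) :
    z.im * ‖(f ∣[(2 : ℤ)] α) z‖ = (α • z).im * ‖f (α • z)‖ := by
  rw [ModularForm.slash_apply, im_smul_eq_div_normSq, Complex.normSq_eq_norm_sq]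
  simp only [norm_mul, norm_σ, norm_zpow, Complex.norm_real, Real.norm_eq_abs, abs_abs, zpow_neg,
    norm_inv, zpow_ofNat, Int.reduceSub, pow_one, norm_pow]
  ring

theorem iso_dvd {L M : ℕ} (h : L ∣ M) : Gamma M ≤ Gamma L := fun γ hγ => by
  have c : ∀ a b : ℤ, (a : ZMod M) = b → (a : ZMod L) = b := fun a b e => by
    rw [ZMod.intCast_eq_intCast_iff] at e ⊢
    exact e.of_dvd (Int.natCast_dvd_natCast.2 h)
  rw [Gamma_mem] at hγ ⊢
  simpa using And.intro (c _ 1 (by simpa using hγ.1)) (And.intro (c _ 0 (by simpa using hγ.2.1))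
    (And.intro (c _ 0 (by simpa using hγ.2.2.1)) (c _ 1 (by simpa using hγ.2.2.2))))

theorem iso_mul (γ δ : SL(2, ℤ)) :
    ((γ * δ : SL(2, ℤ)) : GL (Fin 2) ℝ) = (γ : GL (Fin 2) ℝ) * (δ : GL (Fin 2) ℝ) :=
  map_mul (Matrix.SpecialLinearGroup.mapGL ℝ) γ δ

/-- the conjugate of a subgroup -/
def iso_cj (G : Subgroup SL(2, ℤ)) (α : GL (Fin 2) ℝ) : Subgroup SL(2, ℤ) where
  carrier := {δ | ∃ δ' ∈ G, α * (δ' : GL (Fin 2) ℝ) = (δ : GL (Fin 2) ℝ) * α}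
  one_mem' := ⟨1, one_mem _, by simp⟩
  mul_mem' := by
    rintro a b ⟨a', h1, h2⟩ ⟨b', h3, h4⟩
    exact ⟨a' * b', mul_mem h1 h3, by
      rw [iso_mul, iso_mul, ← mul_assoc, h2, mul_assoc, h4, mul_assoc]⟩
  inv_mem' := by
    rintro a ⟨a', h1, h2⟩
    have e : ∀ γ : SL(2, ℤ), ((γ⁻¹ : SL(2, ℤ)) : GL (Fin 2) ℝ) = (γ : GL (Fin 2) ℝ)⁻¹ :=
      map_inv (Matrix.SpecialLinearGroup.mapGL ℝ)
    exact ⟨a'⁻¹, inv_mem h1, by
      rw [e, e, mul_inv_eq_iff_eq_mul, mul_assoc, h2, inv_mul_cancel_left]⟩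

theorem iso_of (hc : S_CU) (hg : S_GRP) (hf : S_FD) (h1 : S_ISO1) (hp : S_PE) : S_ISO := by
  intro ι ι' _ _ L L' rep rep' f α hL hL' t t' hα cu cu'
  obtain ⟨M, hM, m1⟩ := hc.conj L α hL hα
  obtain ⟨N, hN, m2⟩ := hc.conj (M * L') α⁻¹ (by positivity) (hc.rpinv α hα)
  have : NeZero L := ⟨hL.ne'⟩
  have : NeZero N := ⟨hN.ne'⟩
  have : NeZero (M * L') := ⟨by positivity⟩
  have : (iso_cj (Gamma (M * L')) α).FiniteIndex :=
    Subgroup.finiteIndex_of_le (H := Gamma N) fun δ hδ => by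
      obtain ⟨δ', d1, d2⟩ := m2 δ hδ
      exact ⟨δ', d1, by rw [← mul_inv_eq_iff_eq_mul, mul_assoc, ← d2, mul_inv_cancel_left]⟩
  obtain ⟨n, r, n0, hr⟩ := hg.ex (Gamma L ⊓ iso_cj (Gamma (M * L')) α) inferInstance
  obtain ⟨n', r', -, hr'⟩ := hg.ex (Gamma (M * L')) inferInstance
  have H := fun Φ => h1 _ _ _ _ r r' α Φ hr hr' (fun δ' hδ' => by
    obtain ⟨δ, d1, d2⟩ := m1 δ' (iso_dvd (dvd_mul_right M L') hδ')
    exact ⟨δ, ⟨d1, δ', hδ', d2⟩, d2⟩) fun δ hδ => hδ.2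
  have e1 : n = n' := by
    have := H (fun _ => 1) measurable_const fun _ _ _ => rfl
    simp only [lintegral_const, one_mul, Measure.restrict_apply_univ, Finset.sum_const,
      Finset.card_univ, Fintype.card_fin, nsmul_eq_mul] at this
    exact_mod_cast (ENNReal.mul_left_inj hf.pos.ne' hf.fin.ne).1 this
  subst e1
  have e2 : ∑ i, EnL (f ∣[(2 : ℤ)] r i) = ∑ j, EnL ((f ∣[(2 : ℤ)] α) ∣[(2 : ℤ)] r' j) := by
    have c := cu.1.1.continuous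
    have := H (fun z => ENNReal.ofReal ((z.im * ‖f z‖) ^ 2))
      (Continuous.measurable (ENNReal.continuous_ofReal.comp (by fun_prop))) fun δ hδ z => by
        rw [ModularGroup.sl_moeb, ← iso_norm, ← ModularForm.SL_slash, cu.2 δ hδ.1]
    simpa only [EnL, ModularForm.SL_slash, iso_norm, ModularGroup.sl_moeb] using this
  have e3 : ∑ i, En (f ∣[(2 : ℤ)] r i) = ∑ j, En ((f ∣[(2 : ℤ)] α) ∣[(2 : ℤ)] r' j) := by
    simp only [En, ← Finset.mul_sum]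
    rw [← ENNReal.toReal_sum fun i _ => (hp.fin _ (hc.sl L f (r i) cu).1).ne,
      ← ENNReal.toReal_sum fun i _ => (hp.fin _ (hc.sl L' _ (r' i) cu').1).ne, e2]
  have a1 := hg.avg ι _ ℝ _ _ rep r (fun g => En (f ∣[(2 : ℤ)] g)) inf_le_left t hr
    fun δ hδ γ => by rw [SlashAction.slash_mul, cu.2 δ hδ]
  have a2 := hg.avg ι' _ ℝ _ _ rep' r' (fun g => En ((f ∣[(2 : ℤ)] α) ∣[(2 : ℤ)] g))
    (iso_dvd (dvd_mul_left L' M)) t' hr' fun δ hδ γ => by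
      rw [SlashAction.slash_mul, cu'.2 δ hδ]
  simp only [Fintype.card_fin, nsmul_eq_mul] at a1 a2
  rw [e3] at a1
  refine mul_left_cancel₀ (Nat.cast_ne_zero.2 n0.ne' : (n : ℝ) ≠ 0) ?_
  rw [mul_left_comm, a1, mul_left_comm (n : ℝ), a2, mul_left_comm]

end Pool.Agent.MP_b2c033_nt.UA
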