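import Pool.Agent.MP_b2c033_nt.UA.Spec

/-! Comparison of two systems of fundamental domains. -/

namespace Pool.Agent.MP_b2c033_nt.UA

open Filter MeasureTheory CongruenceSubgroup
open UpperHalfPlane hiding I
open scoped Real MatrixGroups Modular Topology ENNReal

lemma iso1_unf {ι : Type} [Fintype ι] {Γ : Subgroup SL(2, ℤ)} {rep : ι → SL(2, ℤ)}
    (h : Tr Γ rep) (u : SL(2, ℤ) → ℝ≥0∞) :
    ∑' d : Γ, ∑ i, u ((rep i)⁻¹ * d) = ∑' γ, u γ := by
  have hb : Function.Bijective fun x : Γ × ι => (rep x.2)⁻¹ * (x.1 : SL(2, ℤ)) := by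
    constructor
    · rintro ⟨d, i⟩ ⟨d', j⟩ e
      have e : (rep i)⁻¹ * (d : SL(2, ℤ)) = (rep j)⁻¹ * d' := e
      obtain rfl : i = j := (h ((rep i)⁻¹ * d)⁻¹).unique (by simp) (by rw [e]; simp)
      rw [Subtype.ext (mul_left_cancel e)]
    · intro γ
      obtain ⟨i, hi, -⟩ := h γ⁻¹
      exact ⟨(⟨_, Γ.inv_mem hi⟩, i), by simp⟩
  rw [← (Equiv.ofBijective _ hb).tsum_eq, ENNReal.tsum_prod']
  simp only [tsum_fintype, Equiv.ofBijective_apply]

lemma iso1_meas (g : GL (Fin 2) ℝ) :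
    Measurable fun z : ℍ => (𝒟ᵒ).indicator (fun _ => (1 : ℝ≥0∞)) (g • z) :=
  (measurable_const.indicator ModularGroup.isOpen_fdo.measurableSet).comp (measurable_const_smul g)

lemma iso1_int {ι : Type} [Fintype ι] (g : ι → GL (Fin 2) ℝ) {Φ : ℍ → ℝ≥0∞} (hΦ : Measurable Φ) :
    ∫⁻ z, (∑ i, (𝒟ᵒ).indicator (fun _ => (1 : ℝ≥0∞)) ((g i)⁻¹ • z)) * Φ z =
      ∑ i, ∫⁻ z in 𝒟ᵒ, Φ (g i • z) := by
  have hm : ∀ i, Measurable fun z : ℍ =>
      (𝒟ᵒ).indicator (fun _ => (1 : ℝ≥0∞)) ((g i)⁻¹ • z) * Φ z := fun i => (iso1_meas _).mul hΦ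
  simp only [Finset.sum_mul]
  rw [lintegral_finsetSum _ fun i _ => hm i]
  refine Finset.sum_congr rfl fun i _ => ?_
  rw [← (measurePreserving_smul (g i) volume).lintegral_comp (hm i),
    ← lintegral_indicator ModularGroup.isOpen_fdo.measurableSet]
  refine lintegral_congr fun z => ?_
  rw [inv_smul_smul]
  by_cases hz : z ∈ 𝒟ᵒ <;> simp [hz]

theorem iso1_of (hf : S_FD) (hw : S_W) : S_ISO1 := by
  intro ι ι' _ _ Γ Γ' rep rep' α Φ t t' h1 h2 hΦ hi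
  have c1 : Countable (Matrix (Fin 2) (Fin 2) ℤ) := inferInstanceAs (Countable (Fin 2 → Fin 2 → ℤ))
  have c2 : Countable SL(2, ℤ) :=
    inferInstanceAs (Countable {A : Matrix (Fin 2) (Fin 2) ℤ // A.det = 1})
  let m : SL(2, ℤ) →* GL (Fin 2) ℝ := Matrix.SpecialLinearGroup.mapGL ℝ
  have mi : Function.Injective m := Matrix.SpecialLinearGroup.mapGL_injective
  have ms : ∀ (γ : SL(2, ℤ)) (z : ℍ), γ • z = m γ • z := fun _ _ => rfl
  replace h1 : ∀ d : Γ', ∃ δ : Γ, α * m d = m δ * α := fun d =>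
    (h1 d d.2).elim fun δ k => ⟨⟨δ, k.1⟩, k.2⟩
  replace h2 : ∀ δ : Γ, ∃ d : Γ', α * m d = m δ * α := fun d =>
    (h2 d d.2).elim fun δ k => ⟨⟨δ, k.1⟩, k.2⟩
  choose σ hσ using h1
  have hb : Function.Bijective σ := by
    constructor
    · intro d d' e
      exact Subtype.ext (mi (mul_left_cancel ((hσ d).trans (e ▸ (hσ d').symm))))
    · intro δ
      obtain ⟨d, hd⟩ := h2 δ
      exact ⟨d, Subtype.ext (mi (mul_right_cancel ((hσ d).symm.trans hd)))⟩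
  let ρ : Γ' →* GL (Fin 2) ℝ := (MulAut.conj α).toMonoidHom.comp (m.comp Γ'.subtype)
  have r1 : ∀ d : Γ', ρ d = α * m d * α⁻¹ := fun _ => rfl
  have r2 : ∀ d : Γ', ρ d = m (σ d) := fun d => by rw [r1, hσ, mul_inv_cancel_right]
  have key := hw Γ' ρ (fun z => ∑ i, (𝒟ᵒ).indicator (fun _ => (1 : ℝ≥0∞)) ((m (rep i))⁻¹ • z))
    (fun z => ∑ j, (𝒟ᵒ).indicator (fun _ => (1 : ℝ≥0∞)) ((α * m (rep' j))⁻¹ • z)) Φ 2
    two_ne_zero ENNReal.ofNat_ne_top (Finset.measurable_sum _ fun i _ => iso1_meas _)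
    (Finset.measurable_sum _ fun i _ => iso1_meas _) hΦ ?_ ?_
    fun d z => by rw [r2]; exact hi _ (σ d).2 z
  · rw [iso1_int _ hΦ, iso1_int _ hΦ] at key
    simpa only [mul_smul, ms] using key
  · filter_upwards [hf.two] with z hz
    rw [← hz, ← iso1_unf t, ← (Equiv.ofBijective _ hb).tsum_eq]
    simp only [r2, ms, map_mul, map_inv, mul_smul, Equiv.ofBijective_apply]
  · filter_upwards [(measurePreserving_smul α⁻¹ volume).quasiMeasurePreserving.ae hf.two] with z hz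
    rw [← hz, ← iso1_unf t']
    simp only [r1, ms, map_mul, map_inv, mul_smul, mul_inv_rev, inv_smul_smul]

end Pool.Agent.MP_b2c033_nt.UA
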