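import Pool.Agent.MP_b2c033_nt.UA.Spec

/-! Row PE: the pairing on one fundamental domain. -/

namespace Pool.Agent.MP_b2c033_nt.UA

open Filter MeasureTheory CongruenceSubgroup
open UpperHalfPlane hiding I
open scoped Real Manifold MatrixGroups ModularForm Modular Topology ENNReal

theorem pe_eq (f g : ℍ → ℂ) (z : ℍ) :
    petersson 2 f g z = (starRingEnd ℂ) (f z) * g z * (z.im : ℂ) ^ 2 := by
  simp only [petersson, zpow_ofNat]

theorem pe_cont {f : ℍ → ℂ} (h : Bd f) : Continuous f := h.1.continuous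

theorem pe_int (hf : S_FD) {f g : ℍ → ℂ} (h : Bd f) (h' : Bd g) :
    IntegrableOn (petersson 2 f g) 𝒟ᵒ := by
  obtain ⟨C, hC⟩ := h.2
  obtain ⟨C', hC'⟩ := h'.2
  refine Measure.integrableOn_of_bounded (M := C * C') hf.fin.ne
    (petersson_continuous 2 (pe_cont h) (pe_cont h')).aestronglyMeasurable
    (Eventually.of_forall fun z => ?_)
  have hz := z.im_pos
  have e : ‖petersson 2 f g z‖ = (z.im * ‖f z‖) * (z.im * ‖g z‖) := by
    rw [pe_eq, norm_mul, norm_mul, norm_pow, RCLike.norm_conj, Complex.norm_real,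
      Real.norm_of_nonneg hz.le]
    ring
  rw [e]
  have h0 : 0 ≤ z.im * ‖f z‖ := by positivity
  have h1 : 0 ≤ z.im * ‖g z‖ := by positivity
  exact mul_le_mul (hC z) (hC' z) h1 (h0.trans (hC z))

theorem pe_self (f : ℍ → ℂ) (z : ℍ) :
    petersson 2 f f z = (((z.im * ‖f z‖) ^ 2 : ℝ) : ℂ) := by
  rw [pe_eq, Complex.conj_mul']
  push_cast
  ring

theorem pe_of (hf : S_FD) : S_PE where
  fin f h := by
    obtain ⟨C, hC⟩ := h.2
    have h1 : EnL f ≤ ∫⁻ _ in 𝒟ᵒ, ENNReal.ofReal (C ^ 2) := by
      refine lintegral_mono fun z => ENNReal.ofReal_le_ofReal ?_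
      have hz := z.im_pos
      have h0 : 0 ≤ z.im * ‖f z‖ := by positivity
      exact pow_le_pow_left₀ h0 (hC z) 2
    refine h1.trans_lt ?_
    rw [setLIntegral_const]
    exact ENNReal.mul_lt_top ENNReal.ofReal_lt_top hf.fin
  self f h := by
    have hc : Continuous fun z : ℍ => (z.im * ‖f z‖) ^ 2 :=
      (UpperHalfPlane.continuous_im.mul (pe_cont h).norm).pow 2
    have e : (∫ z in 𝒟ᵒ, petersson 2 f f z) = ((EnL f).toReal : ℂ) := by
      simp only [pe_self]
      rw [integral_complex_ofReal, EnL, integral_eq_lintegral_of_nonneg_ae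
        (Eventually.of_forall fun z => sq_nonneg _) hc.aestronglyMeasurable]
    rw [pe, En, e]
    push_cast
    ring
  symm f g := by
    rw [pe, pe, map_mul, ← integral_conj]
    have e : ∀ z, (starRingEnd ℂ) (petersson 2 g f z) = petersson 2 f g z := fun z => by
      rw [pe_eq, pe_eq]
      simp only [map_mul, map_pow, Complex.conj_conj, Complex.conj_ofReal]
      ring
    simp only [e, map_mul, map_pow, Complex.conj_ofReal, map_ofNat]
  add f g h h1 h2 h3 := by
    rw [pe, pe, pe, ← mul_add, ← integral_add (pe_int hf h1 h3) (pe_int hf h2 h3)]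
    have e : ∀ z, petersson 2 (f + g) h z = petersson 2 f h z + petersson 2 g h z := fun z => by
      rw [pe_eq, pe_eq, pe_eq, Pi.add_apply, map_add]
      ring
    simp only [e]
  smul c f g := by
    have e : ∀ z, petersson 2 (c • f) g z = (starRingEnd ℂ) c * petersson 2 f g z := fun z => by
      rw [pe_eq, pe_eq, Pi.smul_apply, smul_eq_mul, map_mul]
      ring
    rw [pe, pe]
    simp only [e]
    rw [integral_const_mul]
    ring

end Pool.Agent.MP_b2c033_nt.UA
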