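import Pool.Agent.MP_b2c033_nt.UA.Spec

/-! The termwise primitive. -/

namespace Pool.Agent.MP_b2c033_nt.UA

open Filter
open UpperHalfPlane hiding I
open scoped Real Topology

theorem ph1_norm (ν : ℚ) (w : ℂ) :
    ‖Complex.exp (2 * π * Complex.I * ν * w)‖ = Real.exp (-(2 * π * ν * w.im)) := by
  rw [Complex.norm_exp]
  simp

theorem ph1_sum {f : ℍ → ℂ} {b : ℚ → ℂ} (h : Ex f b) (z : ℍ) :
    Summable fun ν : ℚ => b ν / ν * ee ν z := by
  obtain ⟨h0, ⟨L, L0, hL⟩, hs⟩ := h
  refine .of_norm_bounded ((summable_norm_iff.2 (hs z).summable).mul_left (L : ℝ)) fun ν => ?_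
  by_cases e : b ν = 0
  · simp [e]
  have p : 0 < ν := lt_of_not_ge fun q => e (h0 ν q)
  obtain ⟨n, hn⟩ := hL ν e
  rw [div_mul_eq_mul_div, norm_div, div_le_iff₀ (by simpa using p.ne'), mul_right_comm]
  refine le_mul_of_one_le_left (norm_nonneg _) ?_
  have n0 : (0 : ℚ) < n := hn ▸ mul_pos p (Nat.cast_pos.2 L0)
  have n1 : (1 : ℚ) ≤ L * ν := by
    rw [mul_comm, hn]
    exact_mod_cast n0
  rw [Complex.norm_ratCast, abs_of_pos (by exact_mod_cast p)]
  exact_mod_cast n1

theorem ph1 : S_PH1 where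
  sum f b h z := (ph1_sum h z).hasSum
  der f b h z := by
    have zp := z.im_pos
    let z₀ : ℍ := ⟨(z.im / 2 : ℝ) * Complex.I, by simpa using zp⟩
    have hz : (z : ℂ) ∈ {w : ℂ | z.im / 2 < w.im} := half_lt_self zp
    have H := hasDerivAt_tsum_of_isPreconnected
      (g := fun (ν : ℚ) (w : ℂ) => b ν / ν * Complex.exp (2 * π * Complex.I * ν * w))
      (g' := fun (ν : ℚ) (w : ℂ) =>
        2 * π * Complex.I * (b ν * Complex.exp (2 * π * Complex.I * ν * w)))
      ((summable_norm_iff.2 (h.2.2 z₀).summable).mul_left ‖2 * π * Complex.I‖)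
      (isOpen_lt continuous_const Complex.continuous_im)
      (convex_halfSpace_im_gt _).isPreconnected
      (fun ν w _ => by
        refine (((hasDerivAt_id' w).const_mul _).cexp.const_mul _).congr_deriv ?_
        rcases eq_or_ne ν 0 with e | e
        · simp [h.1 ν e.le]
        · have : (ν : ℂ) ≠ 0 := by exact_mod_cast e
          field_simp)
      (fun ν w hw => by
        rw [norm_mul]
        refine mul_le_mul_of_nonneg_left ?_ (norm_nonneg _)
        rcases le_or_gt ν 0 with e | e
        · simp [h.1 ν e]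
        rw [norm_mul, norm_mul, ee, ph1_norm, ph1_norm]
        have e' : (0 : ℝ) < ν := by exact_mod_cast e
        have : ((z₀ : ℂ)).im ≤ w.im := by simpa [z₀] using hw.le
        gcongr)
      hz (ph1_sum h z) hz
    rw [tsum_mul_left, show ∑' ν : ℚ, b ν * Complex.exp (2 * π * Complex.I * ν * z) = f z from
      (h.2.2 z).tsum_eq] at H
    refine H.congr_of_eventuallyEq ?_
    filter_upwards [(isOpen_lt continuous_const Complex.continuous_im).mem_nhds zp] with w hw
    rw [ofComplex_apply_of_im_pos hw]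
    rfl

end Pool.Agent.MP_b2c033_nt.UA
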