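import Pool.Agent.MP_b2c033_nt.UA.Spec

/-! Row PH2: growth at the cusp from the support of the expansion. -/

namespace Pool.Agent.MP_b2c033_nt.UA

open Filter Asymptotics
open UpperHalfPlane hiding I
open scoped Real Topology

noncomputable section

theorem ph2_norm (ν : ℚ) (z : ℍ) : ‖ee ν z‖ = Real.exp (-2 * π * ν * z.im) := by
  rw [ee, Complex.norm_exp]
  congr 1
  simp

theorem ph2_le {b : ℚ → ℂ} {o : ℝ} (h : ∀ ν : ℚ, (ν : ℝ) < o → b ν = 0) {z : ℍ} (hz : 1 ≤ z.im)
    (ν : ℚ) : ‖b ν * ee ν z‖ ≤ ‖b ν * ee ν UpperHalfPlane.I‖ * Real.exp (2 * π * o) *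
      Real.exp (-2 * π * o * z.im) := by
  by_cases h0 : (ν : ℝ) < o
  · simp [h ν h0]
  rw [norm_mul, norm_mul, ph2_norm, ph2_norm, mul_assoc ‖b ν‖, mul_assoc ‖b ν‖, ← Real.exp_add,
    ← Real.exp_add, I_im]
  refine mul_le_mul_of_nonneg_left (Real.exp_le_exp.2 ?_) (norm_nonneg _)
  nlinarith [mul_nonneg Real.pi_pos.le (mul_nonneg (sub_nonneg.2 (not_lt.1 h0)) (sub_nonneg.2 hz))]

theorem ph2_ev : ∀ᶠ z : ℍ in atImInfty, 1 ≤ z.im :=
  (tendsto_comap (f := UpperHalfPlane.im)).eventually (eventually_ge_atTop 1)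

theorem ph2 : S_PH2 where
  big f b o h h0 := by
    have s := (h.2.2 UpperHalfPlane.I).summable.norm.hasSum
    refine IsBigO.of_bound ((∑' ν, ‖b ν * ee ν UpperHalfPlane.I‖) * Real.exp (2 * π * o)) ?_
    filter_upwards [ph2_ev] with z hz
    rw [Real.norm_eq_abs, abs_of_pos (Real.exp_pos _)]
    exact (h.2.2 z).norm_le_of_bounded ((s.mul_right _).mul_right _) (ph2_le h0 hz)
  lim f b o h h0 := by
    obtain ⟨h1, ⟨L, L0, hL⟩, h2⟩ := h
    have s := (h2 UpperHalfPlane.I).summable.norm
    have n0 : ∀ z, ee o z ≠ 0 := fun z => Complex.exp_ne_zero _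
    have key := tendsto_tsum_of_dominated_convergence (𝓕 := atImInfty)
      (f := fun z ν => b ν / ν * ee ν z / ee o z) (g := fun ν => if ν = o then b o / o else 0)
      ((s.mul_right (Real.exp (2 * π * o))).mul_left (L : ℝ)) (fun ν => ?_) ?_
    · simp only [tsum_div_const, tsum_ite_eq] at key
      exact key
    · rcases lt_trichotomy ν o with t | rfl | t
      · simp [h0 ν t, t.ne]
      · simp [n0]
      · rw [if_neg t.ne', tendsto_zero_iff_norm_tendsto_zero]
        have t' : (0 : ℝ) < ν - o := sub_pos.2 (by exact_mod_cast t)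
        have := (Real.tendsto_exp_atBot.comp ((tendsto_comap (f := UpperHalfPlane.im)
          (x := atTop)).const_mul_atTop_of_neg (r := -2 * π * (ν - o))
            (by nlinarith [mul_pos Real.pi_pos t']))).const_mul ‖b ν / ν‖
        rw [mul_zero] at this
        refine this.congr fun z => ?_
        rw [norm_div _ (ee o z), norm_mul, ph2_norm, ph2_norm, mul_div_assoc, ← Real.exp_sub,
          Function.comp_apply]
        congr 2
        ring
    · filter_upwards [ph2_ev] with z hz ν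
      by_cases t : b ν = 0
      · simp [t]
      have k := ph2_le (o := o) (fun μ q => h0 μ (by exact_mod_cast q)) hz ν
      obtain ⟨n, hn⟩ := hL ν t
      have p : 0 < ν := not_le.1 fun q => t (h1 ν q)
      have p1 : (1 : ℚ) ≤ ν * L := by
        have : (0 : ℚ) < n := hn ▸ mul_pos p (by exact_mod_cast L0)
        rw [hn]
        exact_mod_cast Nat.succ_le_of_lt (by exact_mod_cast this)
      have p2 : ‖(ν : ℂ)⁻¹‖ ≤ L := by
        have p' : (0 : ℝ) < ν := by exact_mod_cast p
        rw [norm_inv, Complex.norm_ratCast, abs_of_pos p', inv_le_iff_one_le_mul₀' p']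
        exact_mod_cast p1
      rw [show b ν / ν * ee ν z / ee o z = (ν : ℂ)⁻¹ * (b ν * ee ν z / ee o z) by ring, norm_mul,
        norm_div, ph2_norm o]
      exact mul_le_mul p2 ((div_le_iff₀ (Real.exp_pos _)).2 k) (by positivity) (Nat.cast_nonneg _)

end

end Pool.Agent.MP_b2c033_nt.UA
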