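import Pool.Agent.MP_b2c033_nt.UA.Fx
import Pool.Agent.MP_b2c033_nt.U.Spec

/-! The space of cusp forms of weight two as an inner product space. -/

namespace Pool.Agent.MP_b2c033_nt.UA

open CongruenceSubgroup MeasureTheory
open UpperHalfPlane hiding I
open scoped Real Manifold MatrixGroups ModularForm ENNReal InnerProductSpace
open U (Mt ofZ SZ mob sl Cusp Av AvFacts Lev fdC CS Realis)

noncomputable section

/-- a common level -/
def lv (f g : ℍ → ℂ) : ℕ := Classical.epsilon fun L => 0 < L ∧ Cu L f ∧ Cu L g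

/-- the Petersson product -/
def ip (f g : ℍ → ℂ) : ℂ :=
  Av ⊤ (lv f g) fun γ : SZ => pe (f ∣[(2 : ℤ)] γ) (g ∣[(2 : ℤ)] γ)

lemma ip_eq (h : Fx) (ha : AvFacts) {L : ℕ} {f g : ℍ → ℂ} (hL : 0 < L) (hf : Cu L f)
    (hg : Cu L g) :
    ip f g = Av ⊤ L fun γ : SZ => pe (f ∣[(2 : ℤ)] γ) (g ∣[(2 : ℤ)] γ) := by
  obtain ⟨h0, h1, h2⟩ : 0 < lv f g ∧ Cu (lv f g) f ∧ Cu (lv f g) g :=
    Classical.epsilon_spec (p := fun L => 0 < L ∧ Cu L f ∧ Cu L g) ⟨L, hL, hf, hg⟩
  have key : ∀ M, Cu M f → Cu M g →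
      Lev M fun γ : SZ => pe (f ∣[(2 : ℤ)] γ) (g ∣[(2 : ℤ)] γ) := fun M a b γ δ hδ => by
    have e1 : f ∣[(2 : ℤ)] (γ * δ) = f ∣[(2 : ℤ)] γ := lev_slash h.cu a γ δ hδ
    have e2 : g ∣[(2 : ℤ)] (γ * δ) = g ∣[(2 : ℤ)] γ := lev_slash h.cu b γ δ hδ
    show pe (f ∣[(2 : ℤ)] (γ * δ)) (g ∣[(2 : ℤ)] (γ * δ)) = _
    rw [e1, e2]
  rw [ip, ← ha.lev ℂ ⊤ (lv f g) (L * lv f g) _ (by positivity) (dvd_mul_left _ _) (key _ h1 h2),
    ha.lev ℂ ⊤ L (L * lv f g) _ (by positivity) (dvd_mul_right _ _) (key _ hf hg)]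

lemma ip_self (h : Fx) (ha : AvFacts) {L : ℕ} {f : ℍ → ℂ} (hL : 0 < L) (hf : Cu L f) :
    ip f f = ((Av ⊤ L fun γ : SZ => En (f ∣[(2 : ℤ)] γ) : ℝ) : ℂ) := by
  obtain ⟨s, -, -, hs⟩ := av_tr ha L hL
  rw [ip_eq h ha hL hf hf, hs, hs]
  simp only [Complex.real_smul, smul_eq_mul]
  push_cast
  refine congrArg _ (Finset.sum_congr rfl fun i _ => ?_)
  exact h.pe.self _ (h.cu.sl L f _ hf).1

/-- the space as a submodule -/
def Sp (h : Fx) : Submodule ℂ (ℍ → ℂ) where
  carrier := {f | InS f}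
  add_mem' := fun {f g} hf hg => by
    obtain ⟨L, hL, h1, h2⟩ := ins_two h.cu hf hg
    exact ⟨L, hL, h.cu.add L f g h1 h2⟩
  zero_mem' := ⟨1, one_pos, h.cu.zero 1⟩
  smul_mem' := fun c f ⟨L, hL, h1⟩ => ⟨L, hL, h.cu.smul L c f h1⟩

/-- the space as a type -/
def VV (h : Fx) : Type := Sp h

instance (h : Fx) : AddCommGroup (VV h) := inferInstanceAs (AddCommGroup (Sp h))

instance (h : Fx) : Module ℂ (VV h) := inferInstanceAs (Module ℂ (Sp h))

/-- the underlying function -/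
def io (h : Fx) : VV h →ₗ[ℂ] ℍ → ℂ := (Sp h).subtype

lemma io_ins (h : Fx) (v : VV h) : InS (io h v) := (show Sp h from v).2

lemma io_inj (h : Fx) : Function.Injective (io h) := Subtype.val_injective

/-- the inner product -/
@[reducible] def core (h : Fx) (ha : AvFacts) : InnerProductSpace.Core ℂ (VV h) where
  inner v w := ip (io h v) (io h w)
  conj_inner_symm v w := by
    obtain ⟨L, hL, h1, h2⟩ := ins_two h.cu (io_ins h v) (io_ins h w)
    obtain ⟨s, -, -, hs⟩ := av_tr ha L hL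
    show (starRingEnd ℂ) (ip _ _) = ip _ _
    rw [ip_eq h ha hL h1 h2, ip_eq h ha hL h2 h1, hs, hs]
    simp only [Complex.real_smul, map_mul, map_sum, Complex.conj_ofReal, h.pe.symm]
  re_inner_nonneg v := by
    obtain ⟨L, hL, h1⟩ := io_ins h v
    obtain ⟨s, -, -, hs⟩ := av_tr ha L hL
    show 0 ≤ (ip _ _).re
    rw [ip_self h ha hL h1, Complex.ofReal_re, hs]
    exact smul_nonneg (by positivity) (Finset.sum_nonneg fun i _ => en_nonneg _)
  add_left u v w := by
    obtain ⟨L, hL, h1, h2⟩ := ins_two h.cu (io_ins h u) (io_ins h v)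
    obtain ⟨M, hM, h3⟩ := io_ins h w
    have h1' := h.cu.mono _ _ _ (dvd_mul_right L M) h1
    have h2' := h.cu.mono _ _ _ (dvd_mul_right L M) h2
    have h3' := h.cu.mono _ _ _ (dvd_mul_left M L) h3
    have hLM : 0 < L * M := by positivity
    obtain ⟨s, -, -, hs⟩ := av_tr ha (L * M) hLM
    show ip (io h (u + v)) _ = ip _ _ + ip _ _
    rw [map_add, ip_eq h ha hLM (h.cu.add _ _ _ h1' h2') h3', ip_eq h ha hLM h1' h3',
      ip_eq h ha hLM h2' h3', hs, hs, hs, ← smul_add, ← Finset.sum_add_distrib]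
    refine congrArg _ (Finset.sum_congr rfl fun i _ => ?_)
    rw [SlashAction.add_slash]
    exact h.pe.add _ _ _ (h.cu.sl _ _ _ h1').1 (h.cu.sl _ _ _ h2').1 (h.cu.sl _ _ _ h3').1
  smul_left v w c := by
    obtain ⟨L, hL, h1, h2⟩ := ins_two h.cu (io_ins h v) (io_ins h w)
    obtain ⟨s, -, -, hs⟩ := av_tr ha L hL
    show ip (io h (c • v)) _ = (starRingEnd ℂ) c * ip _ _
    rw [map_smul, ip_eq h ha hL (h.cu.smul _ c _ h1) h2, ip_eq h ha hL h1 h2, hs, hs,
      mul_smul_comm, Finset.mul_sum]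
    refine congrArg _ (Finset.sum_congr rfl fun i _ => ?_)
    rw [ModularForm.SL_smul_slash, h.pe.smul]
  definite v hv := by
    obtain ⟨L, hL, h1⟩ := io_ins h v
    obtain ⟨s, h0, ht, hs⟩ := av_tr ha L hL
    have hv' : ip (io h v) (io h v) = 0 := hv
    rw [ip_self h ha hL h1, Complex.ofReal_eq_zero, hs, smul_eq_mul,
      mul_eq_zero_iff_left (by positivity)] at hv'
    obtain ⟨i, hi⟩ := Finset.card_pos.1 h0
    have hE := (h.be.ex L _ hL (h.cu.sl L _ i h1)).1
    have hz : io h v ∣[(2 : ℤ)] i = 0 := by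
      refine ex_zero hE fun ν => ?_
      rcases le_or_gt ν 0 with hν | hν
      · exact hE.1 ν hν
      have hν' : (0 : ℝ) < ν := by exact_mod_cast hν
      have := h.horo s L _ _ (fun _ => {ν}) hL ht h1
      rw [hv'] at this
      simp only [Finset.sum_singleton] at this
      have h3 := (Finset.sum_eq_zero_iff_of_nonneg fun j _ => by positivity).1
        (le_antisymm this (Finset.sum_nonneg fun j _ => by positivity)) ⟨i, hi⟩
        (Finset.mem_univ _)
      have h4 := Real.exp_pos (-4 * π * ν)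
      have h5 := Real.pi_pos
      by_contra hne
      have : 0 < ‖beta (io h v ∣[(2 : ℤ)] i) ν‖ := norm_pos_iff.2 hne
      exact absurd h3 (by positivity)
    apply io_inj h
    rw [map_zero]
    exact (SlashAction.slash_eq_zero_iff _ _ _).1 hz

/-- the action -/
def actV (h : Fx) (x : Mt) : VV h →ₗ[ℂ] VV h :=
  if hx : 0 < x.det then
    { toFun := fun v => (⟨io h v ∣[(2 : ℤ)] gl x, h.cu.rp _ _ (gl_rp hx) (io_ins h v)⟩ : Sp h)
      map_add' := fun v w => io_inj h (by
        show io h (v + w) ∣[(2 : ℤ)] gl x = io h v ∣[(2 : ℤ)] gl x + io h w ∣[(2 : ℤ)] gl x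
        rw [map_add, SlashAction.add_slash])
      map_smul' := fun c v => io_inj h (by
        show io h (c • v) ∣[(2 : ℤ)] gl x = c • io h v ∣[(2 : ℤ)] gl x
        rw [map_smul, ModularForm.smul_slash, σ, if_pos (by simpa using gl_det_pos hx)]
        rfl) }
  else 0

lemma io_act (h : Fx) {x : Mt} (hx : 0 < x.det) (v : VV h) :
    io h (actV h x v) = io h v ∣[(2 : ℤ)] gl x := by
  rw [actV, dif_pos hx]; rfl

/-- the coefficients -/
def betaV (h : Fx) (ν : ℚ) : VV h →ₗ[ℂ] ℂ where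
  toFun v := beta (io h v) ν
  map_add' v w := by
    rw [map_add, h.be.eq _ _ (h.ex3.add _ _ _ _ (ins_ex h (io_ins h v)) (ins_ex h (io_ins h w)))]
    rfl
  map_smul' c v := by
    rw [map_smul, h.be.eq _ _ (h.ex3.smul c _ _ (ins_ex h (io_ins h v)))]
    rfl

/-- the primitive -/
def phiV (h : Fx) : VV h →ₗ[ℂ] ℍ → ℂ where
  toFun v := phi (io h v)
  map_add' v w := by rw [map_add, h.per.phiadd _ _ (io_ins h v) (io_ins h w)]
  map_smul' c v := by rw [map_smul, h.per.phismul c _ (io_ins h v)]; rfl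

/-- the periods -/
def perV (h : Fx) (x : Mt) : VV h →ₗ[ℂ] ℂ :=
  if hx : 0 < x.det then
    { toFun := fun v => per (io h v) (gl x)
      map_add' := fun v w => by
        rw [map_add, h.per.add _ _ _ (io_ins h v) (io_ins h w) (gl_rp hx)]
      map_smul' := fun c v => by
        rw [map_smul, h.per.smul c _ _ (io_ins h v) (gl_rp hx)]; rfl }
  else 0

lemma perV_eq (h : Fx) {x : Mt} (hx : 0 < x.det) (v : VV h) :
    perV h x v = per (io h v) (gl x) := by
  rw [perV, dif_pos hx]; rfl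

lemma beta_up (h : Fx) {f : ℍ → ℂ} (hf : InS f) (a x d : ℚ) (had : 0 < a * d) (ν : ℚ) :
    beta (f ∣[(2 : ℤ)] gl ⟨a, x, 0, d⟩) ν =
      (a / d : ℂ) * Complex.exp (2 * π * Complex.I * (ν * x / a)) * beta f (ν * d / a) := by
  have hd : 0 < (⟨a, x, 0, d⟩ : Mt).det := by simpa [U.Mt.det] using had
  rw [h.be.eq _ _ (h.ex3.up f _ _ a x d (by rw [gl_val hd]; simp [mat]) had (ins_ex h hf))]

lemma ip_act (h : Fx) (ha : AvFacts) {x : Mt} (hx : 0 < x.det) {f : ℍ → ℂ} (hf : InS f) :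
    ip (f ∣[(2 : ℤ)] gl x) (f ∣[(2 : ℤ)] gl x) = ip f f := by
  obtain ⟨L', hL', h2⟩ := h.cu.rp _ _ (gl_rp hx) hf
  obtain ⟨L, hL, h1⟩ := hf
  obtain ⟨s, h0, ht, hs⟩ := av_tr ha L hL
  obtain ⟨s', h0', ht', hs'⟩ := av_tr ha L' hL'
  have := h.iso s s' L L' _ _ f _ hL hL' ht ht' (gl_rp hx) h1 h2
  rw [ip_self h ha hL h1, ip_self h ha hL' h2, hs, hs', Complex.ofReal_inj, smul_eq_mul,
    smul_eq_mul]
  rw [Fintype.card_coe, Fintype.card_coe] at this
  have a1 : (0 : ℝ) < s.card := by exact_mod_cast h0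
  have a2 : (0 : ℝ) < s'.card := by exact_mod_cast h0'
  field_simp
  linarith

theorem real_of (h : Fx) (ha : AvFacts) : U.S_Real := by
  letI cd := core h ha
  letI : NormedAddCommGroup (VV h) := InnerProductSpace.Core.toNormedAddCommGroup (𝕜 := ℂ)
  letI : InnerProductSpace ℂ (VV h) := InnerProductSpace.ofCore cd.toCore
  have hin : ∀ v w : VV h, ⟪v, w⟫_ℂ = ip (io h v) (io h w) := fun _ _ => rfl
  have hn : ∀ v : VV h, ‖v‖ ^ 2 = (ip (io h v) (io h v)).re := fun v => by
    rw [← hin]; exact InnerProductSpace.norm_sq_eq_re_inner (𝕜 := ℂ) v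
  let C : CS (VV h) :=
    { act := actV h
      β := betaV h
      per := perV h
      act_mul := fun x y v hx hy => io_inj h (by
        rw [io_act h (by rw [U.Mt.det_mul]; positivity), io_act h hy, io_act h hx, gl_mul hx hy,
          SlashAction.slash_mul])
      act_sc := fun r v hr => io_inj h (by
        have hd : 0 < (⟨r, 0, 0, r⟩ : Mt).det := by simpa [U.Mt.det] using hr
        rw [io_act h hd, ← sl_eq hd]
        funext z
        have hr' : (r : ℂ) ≠ 0 := by exact_mod_cast hr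
        have e : (r * (z : ℂ) + (0 : ℚ)) / ((0 : ℚ) * (z : ℂ) + r) = z := by
          simp only [Rat.cast_zero, zero_mul, zero_add, add_zero]; field_simp
        simp only [sl, mob, e, ofComplex_apply, U.Mt.det]
        simp only [Rat.cast_zero, zero_mul, zero_add, mul_zero, sub_zero, Rat.cast_mul]
        field_simp)
      inner_act := fun x v w hx => by
        refine (LinearMap.norm_map_iff_inner_map_map (actV h x)).1 (fun u => ?_) v w
        rw [← sq_eq_sq₀ (norm_nonneg _) (norm_nonneg _), hn, hn, io_act h hx,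
          ip_act h ha hx (io_ins h u)]
      β_Tr := fun x ν v => by
        show beta (io h (actV h (U.Tr x) v)) ν = _ * beta (io h v) ν
        rw [io_act h (by simp), U.Tr, beta_up h (io_ins h v) 1 x 1 (by norm_num)]
        simp [U.ee]
      β_Vd := fun r ν v hr => by
        show beta (io h (actV h (U.Vd r) v)) (r * ν) = _ * beta (io h v) ν
        rw [io_act h (by simpa using hr), U.Vd, beta_up h (io_ins h v) r 0 1 (by simpa using hr),
          show r * ν * 1 / r = ν by field_simp]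
        simp
      β_neg := fun ν v hν => (ins_ex h (io_ins h v)).1 ν hν
      β_inj := fun v hv => io_inj h (by
        rw [map_zero]; exact ex_zero (ins_ex h (io_ins h v)) hv)
      smooth := fun v => by
        obtain ⟨L, hL, h1⟩ := io_ins h v
        exact ⟨L, hL, fun γ hγ => io_inj h (by
          rw [io_act h (by simp), gl_ofZ]; exact h1.2 γ hγ)⟩
      per_mul := fun x y v hx hy => by
        rw [perV_eq h (by rw [U.Mt.det_mul]; positivity), perV_eq h hx, perV_eq h hy,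
          io_act h hx, gl_mul hx hy, h.per.mul _ _ _ (io_ins h v) (gl_rp hx) (gl_rp hy)]
      per_up := fun x v hx hc => by
        rw [perV_eq h hx]
        refine h.per.up _ _ (io_ins h v) (gl_rp hx) ?_
        rw [gl_val hx]; simp [mat, hc] }
  refine ⟨VV h, inferInstance, inferInstance, C, io h, phiV h, io_inj h,
    fun v => (cusp_iff _).2 (io_ins h v), fun f hf => ⟨(⟨f, (cusp_iff f).1 hf⟩ : Sp h), rfl⟩,
    fun x v hx => ?_, fun v z => (ins_ex h (io_ins h v)).2.2 z,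
    fun v z => h.ph1.sum _ _ (ins_ex h (io_ins h v)) z,
    fun v z => h.ph1.der _ _ (ins_ex h (io_ins h v)) z, fun x v z hx => ?_,
    fun v => ?_, fun v L hL hF => ?_⟩
  · rw [sl_eq hx]; exact io_act h hx v
  · show phi (io h v) (mob x z) = phi (io h (actV h x v)) z + perV h x v
    rw [perV_eq h hx, io_act h hx, mob_eq hx, ← h.per.const _ _ (io_ins h v) (gl_rp hx) z]
    ring
  · obtain ⟨L, -, h1⟩ := io_ins h v
    exact fdC_int h h1.1
  · have e : ∀ γ : SZ, io h (C.act (ofZ γ) v) = io h v ∣[(2 : ℤ)] γ := fun γ => by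
      show io h (actV h (ofZ γ) v) = _
      rw [io_act h (by simp), gl_ofZ]; rfl
    have h1 : Cu L (io h v) := by
      obtain ⟨M, -, h1⟩ := io_ins h v
      exact ⟨h1.1, fun γ hγ => by rw [← e, hF γ hγ]⟩
    obtain ⟨s, -, -, hs⟩ := av_tr ha L hL
    rw [hn, ip_self h ha hL h1, Complex.ofReal_re, hs, hs, mul_smul_comm, Finset.mul_sum]
    refine congrArg _ (Finset.sum_congr rfl fun i _ => ?_)
    rw [e, en_eq h (h.cu.sl L _ _ h1).1]

end

end Pool.Agent.MP_b2c033_nt.UA
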