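import Pool.Agent.MP_b2c033_nt.UA.Spec

/-! The valence inequality at the cusps. -/

namespace Pool.Agent.MP_b2c033_nt.UA

open Filter Asymptotics
open UpperHalfPlane hiding I
open scoped Real Manifold MatrixGroups ModularForm Topology

noncomputable section

/-- An invariant holomorphic function that tends to zero at the cusp is zero. -/
lemma val_zero {u : ℍ → ℂ} (hu : MDifferentiable 𝓘(ℂ) 𝓘(ℂ) u)
    (hi : ∀ (γ : SL(2, ℤ)) (z : ℍ), u (γ • z) = u z) (h0 : Tendsto u atImInfty (𝓝 0)) :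
    u = 0 := by
  have inv : ∀ γ : SL(2, ℤ), u ∣[(0 : ℤ)] γ = u := fun γ => funext fun z => by
    rw [ModularForm.SL_slash_apply, hi, neg_zero, zpow_zero, mul_one]
  let U : ModularForm 𝒮ℒ 0 :=
    { toFun := u
      slash_action_eq' := fun _ ⟨γ, hγ⟩ => hγ ▸ inv γ
      holo' := hu
      bdd_at_cusps' := fun {c} hc => by
        rw [Subgroup.IsArithmetic.isCusp_iff_isCusp_SL2Z] at hc
        rw [OnePoint.isBoundedAt_iff_forall_SL2Z hc]
        intro γ _
        rw [inv γ]
        exact h0.isBigO_one ℝ }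
  obtain ⟨c, hc⟩ := ModularFormClass.levelOne_weight_zero_const U
  have hc : u = Function.const _ c := hc
  rw [hc] at h0 ⊢
  rw [tendsto_nhds_unique tendsto_const_nhds h0]
  rfl

lemma val_law {g h : ℍ → ℂ} {k : ℤ} {γ : SL(2, ℤ)} (e : g ∣[k] γ = h) (z : ℍ) :
    g (γ • z) = denom γ z ^ k * h z := by
  rw [← e, ModularForm.SL_slash_apply, zpow_neg, mul_comm,
    inv_mul_cancel_right₀ (zpow_ne_zero _ (denom_ne_zero _ _))]

lemma val_theta : ModularForm.discriminant =Θ[atImInfty]
    fun τ : ℍ => Real.exp (-2 * π * τ.im) :=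
  ⟨by
    have h := CuspFormClass.exp_decay_atImInfty (h := 1) CuspForm.discriminant one_pos
      one_mem_strictPeriods_SL
    simpa using h, ModularForm.exp_isBigO_discriminant⟩

theorem val_of (hg : S_GRP) : S_VAL := by
  intro ι _ Γ rep k f o hT hf hΓ f0 hb
  by_contra hlt
  rw [not_le] at hlt
  obtain ⟨K, hK⟩ : ∃ K : ℤ, K = k * Fintype.card ι := ⟨_, rfl⟩
  have hm : ∀ i, MDifferentiable 𝓘(ℂ) 𝓘(ℂ) (f ∣[k] rep i) := fun i => hf.slash k _
  have hN : MDifferentiable 𝓘(ℂ) 𝓘(ℂ) (∏ i, f ∣[k] rep i) := by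
    simp only [UpperHalfPlane.mdifferentiable_iff] at hm ⊢
    exact (DifferentiableOn.fun_finsetProd (u := Finset.univ) fun i _ => hm i).congr
      fun z _ => by simp
  have hD : MDifferentiable 𝓘(ℂ) 𝓘(ℂ) fun z => ModularForm.discriminant z ^ (-K) :=
    UpperHalfPlane.mdifferentiable_iff.2
      ((UpperHalfPlane.mdifferentiable_iff.1 CuspForm.discriminant.holo').zpow
        (.inl fun z _ => ModularForm.discriminant_ne_zero _))
  have lN : ∀ (γ : SL(2, ℤ)) (z : ℍ),
      (∏ i, f ∣[k] rep i) (γ • z) = denom γ z ^ K * (∏ i, f ∣[k] rep i) z := fun γ z => by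
    obtain ⟨σ, hσ⟩ := hg.perm ι Γ rep γ hT
    have e : ∀ i, (f ∣[k] rep i) ∣[k] γ = f ∣[k] rep (σ i) := fun i => by
      rw [← SlashAction.slash_mul, ← inv_mul_cancel_right (rep i * γ) (rep (σ i)),
        SlashAction.slash_mul, hΓ _ (hσ i)]
    rw [Finset.prod_apply, Finset.prod_apply, Finset.prod_congr rfl fun i _ => val_law (e i) z,
      Finset.prod_mul_distrib, Finset.prod_const, Finset.card_univ, hK, zpow_mul, zpow_natCast,
      Equiv.prod_comp σ fun i => (f ∣[k] rep i) z]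
  have lD : ∀ (γ : SL(2, ℤ)) (z : ℍ), ModularForm.discriminant (γ • z) =
      denom γ z ^ (12 : ℤ) * ModularForm.discriminant z := fun γ z =>
    val_law (SlashInvariantForm.slash_action_generators_SL2Z ModularForm.discriminant_S_invariant
      ModularForm.discriminant_T_invariant γ) z
  have b1 := ((IsBigO.finsetProd (s := Finset.univ) fun i _ => hb i).pow 12).mul
    (val_theta.zpow (-K)).1
  have b2 : Tendsto (fun z : ℍ => (∏ i, Real.exp (-2 * π * o i * z.im)) ^ 12 *
      Real.exp (-2 * π * z.im) ^ (-K)) atImInfty (𝓝 0) := by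
    have p : 0 < 2 * π * (12 * ∑ i, o i - K) :=
      mul_pos (by positivity) (sub_pos.2 (by simpa [hK] using hlt))
    have t : Tendsto (fun z : ℍ => z.im) atImInfty atTop := tendsto_comap
    refine (Real.tendsto_exp_neg_atTop_nhds_zero.comp (t.const_mul_atTop p)).congr fun z => ?_
    rw [← Real.exp_sum, ← Real.exp_nat_mul, ← Real.rpow_intCast, ← Real.exp_mul, ← Real.exp_add,
      ← Finset.sum_mul, ← Finset.mul_sum, Function.comp_apply]
    congr 1
    push_cast
    ring
  have u0 := val_zero ((hN.pow 12).mul hD) (fun γ z => by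
    have d0 := denom_ne_zero (γ : GL (Fin 2) ℝ) z
    simp only [Pi.mul_apply, Pi.pow_apply]
    rw [lN, lD, mul_pow, mul_zpow, ← zpow_natCast, ← zpow_mul, ← zpow_mul, mul_mul_mul_comm,
      ← zpow_add₀ d0, show K * ((12 : ℕ) : ℤ) + 12 * -K = 0 by push_cast; ring, zpow_zero,
      one_mul]) ((b1.trans_tendsto b2).congr fun z => by simp)
  have N0 : ∏ i, f ∣[k] rep i = 0 := funext fun z =>
    eq_zero_of_pow_eq_zero ((mul_eq_zero.1 (congrFun u0 z)).resolve_right
      (zpow_ne_zero _ (ModularForm.discriminant_ne_zero z)))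
  obtain ⟨i, -, hi⟩ := (prod_eq_zero_iff fun i _ => hm i).1 N0
  exact f0 ((SlashAction.slash_eq_zero_iff _ _ _).1 hi)

end

end Pool.Agent.MP_b2c033_nt.UA
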