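import Pool.Agent.MP_b2c033_nt.UA.Spec

/-! Explicit bounds for `E₄` and `Δ` in terms of `r = exp (-2 π y)`. -/

namespace Pool.Agent.MP_b2c033_nt.UA

open Filter
open UpperHalfPlane hiding I
open scoped Real Topology

noncomputable section

lemma vb_pow4 (n : ℕ) : (n + 3) ^ 4 ≤ 9 ^ (n + 2) := by
  induction n with
  | zero => norm_num
  | succ n ih =>
    have h : (n + 1 + 3) ^ 4 ≤ 9 * (n + 3) ^ 4 := by
      have e : 9 * (n + 3) ^ 4 = (n + 1 + 3) ^ 4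
          + (8 * n ^ 4 + 92 * n ^ 3 + 390 * n ^ 2 + 716 * n + 473) := by ring
      omega
    calc (n + 1 + 3) ^ 4 ≤ 9 * (n + 3) ^ 4 := h
      _ ≤ 9 * 9 ^ (n + 2) := Nat.mul_le_mul_left 9 ih
      _ = 9 ^ (n + 1 + 2) := by ring

lemma vb_sigma (n : ℕ) : ArithmeticFunction.sigma 3 (n + 1) ≤ 9 ^ n := by
  rcases n with _ | _ | n
  · simp
  · have h := ArithmeticFunction.sigma_apply_prime_pow (k := 3) (p := 2) (i := 1) Nat.prime_two
    have h2 : ArithmeticFunction.sigma 3 2 = 9 := by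
      simpa [Finset.sum_range_succ] using h
    simpa using h2.le
  · exact (ArithmeticFunction.sigma_le_pow_succ 3 (n + 3)).trans (vb_pow4 n)

lemma vb_normq (τ : ℍ) :
    ‖Complex.exp (2 * π * Complex.I * τ)‖ = Real.exp (-2 * π * τ.im) := by
  simp [Complex.norm_exp]

lemma vb_r_lt (τ : ℍ) : Real.exp (-2 * π * τ.im) < 1 := by
  rw [Real.exp_lt_one_iff]
  have := mul_pos Real.pi_pos τ.im_pos
  nlinarith

lemma vb_e4 (τ : ℍ) (r : ℝ) (hr : r = Real.exp (-2 * π * τ.im)) (h9 : 9 * r < 1) :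
    ‖ModularForm.E₄ τ‖ ≤ 1 + 240 * r / (1 - 9 * r) := by
  have hr0 : 0 < r := hr ▸ Real.exp_pos _
  set q : ℂ := Complex.exp (2 * π * Complex.I * τ) with hq
  have hqn : ‖q‖ = r := by rw [hr, hq]; exact vb_normq τ
  have hE := EisensteinSeries.q_expansion_bernoulli (k := 4) (by norm_num) (by decide) τ
  have hb : (bernoulli 4 : ℚ) = -1 / 30 := by
    rw [bernoulli_eq_bernoulli'_of_ne_one (by norm_num), bernoulli'_four]
  have hS : (∑' n : ℕ+, ((ArithmeticFunction.sigma (4 - 1) n : ℕ) : ℂ) * q ^ ((n : ℕ) : ℤ))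
      = ∑' n : ℕ, ((ArithmeticFunction.sigma 3 (n + 1) : ℕ) : ℂ) * q ^ (n + 1) := by
    rw [← tsum_pnat_eq_tsum_succ
      (f := fun n : ℕ => ((ArithmeticFunction.sigma 3 n : ℕ) : ℂ) * q ^ n)]
    refine tsum_congr fun n => ?_
    rw [zpow_natCast]
  have hg : HasSum (fun n : ℕ => r * (9 * r) ^ n) (r * (1 - 9 * r)⁻¹) :=
    (hasSum_geometric_of_lt_one (by positivity) h9).mul_left r
  have hbd : ‖∑' n : ℕ, ((ArithmeticFunction.sigma 3 (n + 1) : ℕ) : ℂ) * q ^ (n + 1)‖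
      ≤ r * (1 - 9 * r)⁻¹ := by
    refine tsum_of_norm_bounded hg fun n => ?_
    rw [norm_mul, norm_pow, hqn, Complex.norm_natCast]
    have h1 : ((ArithmeticFunction.sigma 3 (n + 1) : ℕ) : ℝ) ≤ 9 ^ n := by
      exact_mod_cast vb_sigma n
    calc ((ArithmeticFunction.sigma 3 (n + 1) : ℕ) : ℝ) * r ^ (n + 1)
        ≤ 9 ^ n * r ^ (n + 1) := by gcongr
      _ = r * (9 * r) ^ n := by ring
  have hE' : ModularForm.E₄ τ = 1 + 240 *
      ∑' n : ℕ, ((ArithmeticFunction.sigma 3 (n + 1) : ℕ) : ℂ) * q ^ (n + 1) := by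
    rw [← hS]
    refine hE.trans ?_
    rw [hb]
    push_cast
    ring
  rw [hE']
  refine (norm_add_le _ _).trans ?_
  rw [norm_one, norm_mul]
  have h240 : ‖(240 : ℂ)‖ = 240 := by simp
  rw [h240, div_eq_mul_inv, mul_assoc]
  gcongr

lemma vb_geom {r : ℝ} (h0 : 0 ≤ r) (h1 : r < 1) (N : ℕ) :
    ∑ n ∈ Finset.range N, r ^ (n + 1) ≤ r / (1 - r) := by
  have hg : HasSum (fun n : ℕ => r * r ^ n) (r * (1 - r)⁻¹) :=
    (hasSum_geometric_of_lt_one h0 h1).mul_left r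
  have h := sum_le_hasSum (Finset.range N) (fun n _ => by positivity) hg
  rw [div_eq_mul_inv]
  refine le_trans (le_of_eq ?_) h
  exact Finset.sum_congr rfl fun n _ => by ring

lemma vb_fin_up {q : ℂ} (N : ℕ) :
    ‖∏ n ∈ Finset.range N, (1 - q ^ (n + 1))‖
      ≤ Real.exp (∑ n ∈ Finset.range N, ‖q‖ ^ (n + 1)) := by
  induction N with
  | zero => simp
  | succ N ih =>
    rw [Finset.prod_range_succ, Finset.sum_range_succ, norm_mul, Real.exp_add]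
    have h : ‖1 - q ^ (N + 1)‖ ≤ Real.exp (‖q‖ ^ (N + 1)) := by
      refine (norm_sub_le _ _).trans ?_
      rw [norm_one, norm_pow]
      have := Real.add_one_le_exp (‖q‖ ^ (N + 1))
      linarith
    exact mul_le_mul ih h (norm_nonneg _) (Real.exp_pos _).le

lemma vb_fin_low {q : ℂ} (hq : ‖q‖ < 1) (N : ℕ) :
    1 - ∑ n ∈ Finset.range N, ‖q‖ ^ (n + 1) ≤ ‖∏ n ∈ Finset.range N, (1 - q ^ (n + 1))‖ := by
  induction N with
  | zero => simp
  | succ N ih =>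
    rw [Finset.prod_range_succ, Finset.sum_range_succ, norm_mul]
    have h : 1 - ‖q‖ ^ (N + 1) ≤ ‖1 - q ^ (N + 1)‖ := by
      have := norm_sub_norm_le (1 : ℂ) (q ^ (N + 1))
      rwa [norm_one, norm_pow] at this
    have hp0 : 0 ≤ ‖q‖ ^ (N + 1) := by positivity
    have hp1 : ‖q‖ ^ (N + 1) ≤ 1 := pow_le_one₀ (norm_nonneg _) hq.le
    have hs0 : 0 ≤ ∑ n ∈ Finset.range N, ‖q‖ ^ (n + 1) :=
      Finset.sum_nonneg fun n _ => by positivity
    have h2 : (1 - ∑ n ∈ Finset.range N, ‖q‖ ^ (n + 1)) * (1 - ‖q‖ ^ (N + 1))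
        ≤ ‖∏ n ∈ Finset.range N, (1 - q ^ (n + 1))‖ * ‖1 - q ^ (N + 1)‖ :=
      mul_le_mul ih h (by linarith) (norm_nonneg _)
    nlinarith [mul_nonneg hs0 hp0]

lemma vb_tend {q : ℂ} (hq : ‖q‖ < 1) :
    Tendsto (fun N => ‖∏ n ∈ Finset.range N, (1 - q ^ (n + 1))‖) atTop
      (𝓝 ‖∏' n : ℕ, (1 - q ^ (n + 1))‖) :=
  (ModularForm.multipliable_one_sub_pow hq).hasProd.tendsto_prod_nat.norm

lemma vb_prod_up {q : ℂ} (hq : ‖q‖ < 1) :
    ‖∏' n : ℕ, (1 - q ^ (n + 1))‖ ≤ Real.exp (‖q‖ / (1 - ‖q‖)) :=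
  le_of_tendsto' (vb_tend hq) fun N =>
    (vb_fin_up N).trans (Real.exp_le_exp.mpr (vb_geom (norm_nonneg _) hq N))

lemma vb_prod_low {q : ℂ} (hq : ‖q‖ < 1) :
    1 - ‖q‖ / (1 - ‖q‖) ≤ ‖∏' n : ℕ, (1 - q ^ (n + 1))‖ :=
  ge_of_tendsto' (vb_tend hq) fun N =>
    le_trans (by linarith [vb_geom (norm_nonneg q) hq N]) (vb_fin_low hq N)

lemma vb_disc (τ : ℍ) : ∃ q : ℂ, ‖q‖ = Real.exp (-2 * π * τ.im) ∧
    ‖ModularForm.discriminant τ‖ = ‖q‖ * ‖∏' n : ℕ, (1 - q ^ (n + 1))‖ ^ 24 := by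
  have hn : ‖Function.Periodic.qParam 1 (τ : ℂ)‖ = Real.exp (-2 * π * τ.im) := by
    simp [Function.Periodic.qParam, Complex.norm_exp]
  refine ⟨Function.Periodic.qParam 1 (τ : ℂ), hn, ?_⟩
  have hq : ‖Function.Periodic.qParam 1 (τ : ℂ)‖ < 1 := by rw [hn]; exact vb_r_lt τ
  rw [ModularForm.discriminant_eq_q_prod, norm_mul, ← norm_pow,
    ← (ModularForm.multipliable_one_sub_pow hq).tprod_pow 24]

theorem vb : S_VB where
  e4 := vb_e4
  up := by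
    intro τ r hr
    obtain ⟨q, hq, hd⟩ := vb_disc τ
    have hqr : ‖q‖ = r := by rw [hq, hr]
    have h1 : ‖q‖ < 1 := by rw [hq]; exact vb_r_lt τ
    have h := vb_prod_up h1
    rw [hd, hqr]
    rw [hqr] at h
    have hr0 : 0 ≤ r := hqr ▸ norm_nonneg q
    have e : Real.exp (24 * r / (1 - r)) = Real.exp (r / (1 - r)) ^ 24 := by
      rw [← Real.exp_nat_mul]
      congr 1
      push_cast
      ring
    rw [e]
    gcongr
  low := by
    intro τ r hr h2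
    obtain ⟨q, hq, hd⟩ := vb_disc τ
    have hqr : ‖q‖ = r := by rw [hq, hr]
    have h1 : ‖q‖ < 1 := by rw [hq]; exact vb_r_lt τ
    have h := vb_prod_low h1
    rw [hd, hqr]
    rw [hqr] at h
    have hr0 : 0 ≤ r := hqr ▸ norm_nonneg q
    have h0 : 0 ≤ 1 - r / (1 - r) := by
      rw [sub_nonneg, div_le_one (by linarith)]
      linarith
    gcongr

end

end Pool.Agent.MP_b2c033_nt.UA
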