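import Pool.Agent.MP_b2c033_nt.UA.Spec
import Pool.Agent.MP_88847a_mp.H41.Unif

/-! Row VO1: covolume and invariants of a lattice in terms of a point of the fundamental domain. -/

namespace Pool.Agent.MP_b2c033_nt.UA

open UpperHalfPlane hiding I
open Complex ModularForm
open scoped Real MatrixGroups Modular
open Pool.Agent.MP_88847a_mp.H41

lemma vo1_disc (γ : SL(2, ℤ)) (z : ℍ) :
    ModularForm.discriminant (γ • z) = denom γ z ^ 12 * ModularForm.discriminant z := by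
  have hγ : (γ : GL (Fin 2) ℝ) ∈ 𝒮ℒ := ⟨γ, rfl⟩
  exact (SlashInvariantForm.slash_action_eqn'' CuspForm.discriminant hγ z).trans
    (congrArg (· * ModularForm.discriminant z) (zpow_natCast _ 12))

lemma vo1_e4 (γ : SL(2, ℤ)) (z : ℍ) : E₄ (γ • z) = denom γ z ^ 4 * E₄ z := by
  have hγ : (γ : GL (Fin 2) ℝ) ∈ 𝒮ℒ := ⟨γ, rfl⟩
  exact (SlashInvariantForm.slash_action_eqn'' E₄ hγ z).trans
    (congrArg (· * E₄ z) (zpow_natCast _ 4))

lemma vo1_jj (γ : SL(2, ℤ)) (z : ℍ) : jj (γ • z) = jj z := by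
  have h0 : denom γ z ≠ 0 := denom_ne_zero _ _
  have h1 := discriminant_ne_zero z
  rw [jj, jj, vo1_disc, vo1_e4]
  field_simp

lemma vo1_vo (γ : SL(2, ℤ)) (z : ℍ) : vo (γ • z) = vo z := by
  have h0 : ‖denom γ z‖ ≠ 0 := norm_ne_zero_iff.2 (denom_ne_zero _ _)
  rw [vo, vo, vo1_disc, ModularGroup.im_smul_eq_div_normSq, norm_mul, norm_pow,
    Complex.normSq_eq_norm_sq]
  field_simp

lemma vo1_Lt (τ : ℍ) (c : ℂ) (hc : c ≠ 0) :
    Om (Lt τ c hc) ^ 6 * ‖(Lt τ c hc).g₂ ^ 3 - 27 * (Lt τ c hc).g₃ ^ 2‖ = vo τ ∧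
    1728 * (Lt τ c hc).g₂ ^ 3 = jj τ * ((Lt τ c hc).g₂ ^ 3 - 27 * (Lt τ c hc).g₃ ^ 2) := by
  have h2 : (Lt τ c hc).g₂ = 4 * π ^ 4 / 3 * E₄ τ / c ^ 4 := by
    rw [PeriodPair.g₂, G_Lt τ c hc (k := 4) (by norm_num)]
    push_cast
    rw [riemannZeta_four, show E (k := 4) (by norm_num) τ = E₄ τ from rfl]
    field_simp
    ring
  have h3 : (Lt τ c hc).g₃ = 8 * π ^ 6 / 27 * E₆ τ / c ^ 6 := by
    rw [PeriodPair.g₃, G_Lt τ c hc (k := 6) (by norm_num)]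
    push_cast
    rw [zeta_six, show E (k := 6) (by norm_num) τ = E₆ τ from rfl]
    field_simp
    ring
  have hD : (Lt τ c hc).g₂ ^ 3 - 27 * (Lt τ c hc).g₃ ^ 2 =
      (2 * π) ^ 12 * ModularForm.discriminant τ / c ^ 12 := by
    rw [h2, h3, discriminant_eq_E₄_cube_sub_E₆_sq]
    field_simp
    ring
  have hO : Om (Lt τ c hc) = ‖c‖ ^ 2 * τ.im := by
    have e : ((starRingEnd ℂ) (c * τ) * c).im = -(‖c‖ ^ 2 * τ.im) := by
      rw [← Complex.normSq_eq_norm_sq, Complex.normSq_apply]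
      simp only [map_mul, Complex.mul_im, Complex.mul_re, Complex.conj_re, Complex.conj_im,
        UpperHalfPlane.coe_im]
      ring
    show |((starRingEnd ℂ) (c * τ) * c).im| = _
    rw [e, abs_neg, abs_of_nonneg (mul_nonneg (sq_nonneg _) τ.im_pos.le)]
  have hn : ‖c‖ ≠ 0 := norm_ne_zero_iff.2 hc
  refine ⟨?_, ?_⟩
  · rw [hD, hO, vo, norm_div, norm_mul, norm_pow, norm_pow, norm_mul, Complex.norm_real,
      Complex.norm_ofNat, Real.norm_of_nonneg Real.pi_pos.le]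
    field_simp
  · have h1 := discriminant_ne_zero τ
    rw [hD, h2, jj]
    field_simp
    ring

lemma vo1_G {P Q : PeriodPair} (h : P.lattice = Q.lattice) (n : ℕ) : P.G n = Q.G n := by
  unfold PeriodPair.G
  rw [h]

lemma vo1_red (P : PeriodPair) : ∃ (τ : ℍ) (c : ℂ) (hc : c ≠ 0),
    P.lattice = (Lt τ c hc).lattice ∧ Om P = Om (Lt τ c hc) := by
  have hi := LinearIndependent.pair_iff.1 P.indep
  have h2 : P.ω₂ ≠ 0 := fun e => one_ne_zero (hi 0 1 (by simp [e])).2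
  have him : (P.ω₁ / P.ω₂).im ≠ 0 := fun e => by
    have e1 : P.ω₁ / P.ω₂ = ((P.ω₁ / P.ω₂).re : ℂ) := Complex.ext (by simp) (by simpa using e)
    have e2 : P.ω₁ = ((P.ω₁ / P.ω₂).re : ℂ) * P.ω₂ := by rw [← e1]; field_simp
    refine one_ne_zero (hi 1 (-(P.ω₁ / P.ω₂).re) ?_).1
    simp only [one_smul, real_smul, ofReal_neg]
    linear_combination e2
  rcases lt_or_gt_of_ne him with h | h
  · have e : P.ω₂ * (-(P.ω₁ / P.ω₂)) = -P.ω₁ := by field_simp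
    refine ⟨⟨-(P.ω₁ / P.ω₂), by simpa using h⟩, P.ω₂, h2, ?_, ?_⟩
    · ext x
      simp only [PeriodPair.mem_lattice]
      show _ ↔ ∃ m n : ℤ, m * (P.ω₂ * (-(P.ω₁ / P.ω₂))) + n * P.ω₂ = x
      rw [e]
      constructor <;> rintro ⟨m, n, rfl⟩ <;> exact ⟨-m, n, by push_cast; ring⟩
    · show _ = |((starRingEnd ℂ) (P.ω₂ * (-(P.ω₁ / P.ω₂))) * P.ω₂).im|
      rw [e, map_neg, neg_mul, Complex.neg_im, abs_neg, Om]
  · have e : P.ω₂ * (P.ω₁ / P.ω₂) = P.ω₁ := by field_simp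
    refine ⟨⟨P.ω₁ / P.ω₂, h⟩, P.ω₂, h2, ?_, ?_⟩
    · ext x
      simp only [PeriodPair.mem_lattice]
      show _ ↔ ∃ m n : ℤ, m * (P.ω₂ * (P.ω₁ / P.ω₂)) + n * P.ω₂ = x
      rw [e]
    · show _ = |((starRingEnd ℂ) (P.ω₂ * (P.ω₁ / P.ω₂)) * P.ω₂).im|
      rw [e, Om]

theorem vo1 : S_VO1 := by
  intro P
  obtain ⟨τ, c, hc, hL, hO⟩ := vo1_red P
  obtain ⟨γ, hγ⟩ := ModularGroup.exists_smul_mem_fd τ
  have h2 : P.g₂ = (Lt τ c hc).g₂ := by rw [PeriodPair.g₂, PeriodPair.g₂, vo1_G hL]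
  have h3 : P.g₃ = (Lt τ c hc).g₃ := by rw [PeriodPair.g₃, PeriodPair.g₃, vo1_G hL]
  refine ⟨γ • τ, hγ, ?_⟩
  rw [vo1_vo, vo1_jj, hO, h2, h3]
  exact vo1_Lt τ c hc

end Pool.Agent.MP_b2c033_nt.UA
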