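import Pool.Agent.MP_b2c033_nt.UA.Spec

/-! The maximum of the normalised discriminant on the fundamental domain. -/

namespace Pool.Agent.MP_b2c033_nt.UA

open UpperHalfPlane hiding I
open scoped Real Modular

noncomputable section

lemma vo2_u : (2.476 : ℝ) ≤ Real.exp (5.44 / 6) := by
  refine le_trans ?_ (Real.sum_le_exp_of_nonneg (by norm_num) 9)
  simp only [Finset.sum_range_succ, Finset.sum_range_zero, Nat.factorial]
  norm_num

lemma vo2_key {t : ℝ} (ht : 5.44 ≤ t) :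
    t * Real.exp (-(t / 6)) * Real.exp (4 * Real.exp (-t) / (1 - Real.exp (-t))) ≤ 2.2377 := by
  obtain ⟨s, rfl⟩ : ∃ s, t = 5.44 + s := ⟨t - 5.44, by ring⟩
  have s0 : 0 ≤ s := by linarith
  have s1 : 0 < 1 + s := by linarith
  have h1 : 230.4 * (1 + s) ≤ Real.exp (5.44 + s) := by
    have e : Real.exp 5.44 = Real.exp (5.44 / 6) ^ 6 := by
      rw [← Real.exp_nat_mul]
      norm_num
    rw [Real.exp_add, e]
    refine mul_le_mul (le_trans (by norm_num) (pow_le_pow_left₀ (by norm_num) vo2_u 6))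
      (by linarith [Real.add_one_le_exp s]) s1.le (by positivity)
  have h2 : 4 * Real.exp (-(5.44 + s)) / (1 - Real.exp (-(5.44 + s))) ≤ 0.01744 / (1 + s) := by
    obtain ⟨x, hx⟩ : ∃ x, x = Real.exp (5.44 + s) := ⟨_, rfl⟩
    rw [Real.exp_neg, ← hx]
    rw [← hx] at h1
    have x1 : 0 < x - 1 := by linarith
    have x0 : x ≠ 0 := ne_of_gt (by linarith)
    rw [show 4 * x⁻¹ / (1 - x⁻¹) = 4 / (x - 1) by field_simp, div_le_div_iff₀ x1 s1]
    linarith
  obtain ⟨g, hg⟩ : ∃ g, g = 4 * Real.exp (-(5.44 + s)) / (1 - Real.exp (-(5.44 + s))) := ⟨_, rfl⟩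
  rw [← hg] at h2 ⊢
  have h3 : 2.476 * (1 + s / 6 + s ^ 2 / 72) ≤ Real.exp ((5.44 + s) / 6) := by
    rw [add_div, Real.exp_add]
    refine mul_le_mul vo2_u ?_ (by positivity) (by positivity)
    have := Real.quadratic_le_exp_of_nonneg (x := s / 6) (by positivity)
    linarith
  have h4 : (0.98256 + s) / (1 + s) ≤ Real.exp (-g) := by
    have := Real.add_one_le_exp (-g)
    rw [show (0.98256 + s) / (1 + s) = 1 - 0.01744 / (1 + s) by field_simp; ring]
    linarith
  have h5 := mul_le_mul h3 h4 (by positivity) (by positivity)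
  have h6 : 5.44 + s ≤ 2.2377 * (2.476 * (1 + s / 6 + s ^ 2 / 72) * ((0.98256 + s) / (1 + s))) := by
    rw [← mul_div_assoc, ← mul_div_assoc, le_div_iff₀ s1]
    nlinarith [mul_nonneg s0 (sq_nonneg (s - 1 / 4)), sq_nonneg s]
  rw [Real.exp_neg, mul_assoc, show (Real.exp ((5.44 + s) / 6))⁻¹ * Real.exp g =
    (Real.exp ((5.44 + s) / 6) * Real.exp (-g))⁻¹ by rw [Real.exp_neg, mul_inv, inv_inv],
    ← div_eq_mul_inv, div_le_iff₀ (by positivity)]
  linarith

theorem vo2_of (h : S_VB) : S_VO2 := by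
  intro τ hτ
  have y0 := τ.im_pos
  have p0 := Real.pi_pos
  have h1 := ModularGroup.three_le_four_mul_im_sq_of_mem_fd hτ
  have ht : 5.44 ≤ 2 * π * τ.im := by
    refine (pow_le_pow_iff_left₀ (by norm_num) (by positivity) two_ne_zero).1 ?_
    have := pow_le_pow_left₀ (by norm_num) Real.pi_gt_d6.le 2
    nlinarith
  have h2 := h.up τ _ rfl
  have h3 := vo2_key ht
  rw [show -2 * π * τ.im = -(2 * π * τ.im) by ring] at h2
  obtain ⟨t, e⟩ : ∃ t, t = 2 * π * τ.im := ⟨_, rfl⟩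
  rw [← e] at h2 h3 ht
  have e1 : Real.exp (-t) * Real.exp (24 * Real.exp (-t) / (1 - Real.exp (-t))) =
      (Real.exp (-(t / 6)) * Real.exp (4 * Real.exp (-t) / (1 - Real.exp (-t)))) ^ 6 := by
    rw [← Real.exp_add, ← Real.exp_add, ← Real.exp_nat_mul]
    congr 1
    push_cast
    ring
  have h4 : 2 * π * (t * Real.exp (-(t / 6)) *
      Real.exp (4 * Real.exp (-t) / (1 - Real.exp (-t)))) ≤ 14.06 :=
    (mul_le_mul_of_nonneg_left h3 (by positivity)).trans (by linarith [Real.pi_lt_d6])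
  have t0 : 0 < t := by linarith
  refine le_trans ?_ (pow_le_pow_left₀ (by positivity) h4 6)
  rw [vo, show (2 * π) ^ 12 * τ.im ^ 6 = (2 * π) ^ 6 * t ^ 6 by rw [e]; ring, mul_assoc t,
    mul_pow (2 * π) (t * _), mul_pow t, ← e1, ← mul_assoc]
  exact mul_le_mul_of_nonneg_left h2 (by positivity)

end

end Pool.Agent.MP_b2c033_nt.UA
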