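import Pool.Agent.MP_b2c033_nt.UA.Spec

/-! The covolume for large modular invariant. -/

namespace Pool.Agent.MP_b2c033_nt.UA

open UpperHalfPlane hiding I
open scoped Real Modular

lemma vo3_small {t : ℝ} (ht : 5.44 ≤ t) : Real.exp (-t) ≤ 0.0044 := by
  have h1 : (2.7182818283 : ℝ) ^ 5 ≤ Real.exp 1 ^ 5 :=
    pow_le_pow_left₀ (by norm_num) Real.exp_one_gt_d9.le 5
  have h2 : Real.exp 1 ^ 5 = Real.exp 5 := by rw [← Real.exp_nat_mul]; norm_num
  have h3 := Real.quadratic_le_exp_of_nonneg (x := 0.44) (by norm_num)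
  have h4 : Real.exp 5 * Real.exp 0.44 ≤ Real.exp t := by
    rw [← Real.exp_add]
    exact Real.exp_le_exp.2 (by linarith)
  have h5 : (148.41 : ℝ) ≤ Real.exp 5 := by
    rw [← h2]
    exact le_trans (by norm_num) h1
  have h6 : (148.41 : ℝ) * 1.5368 ≤ Real.exp 5 * Real.exp 0.44 :=
    mul_le_mul h5 (le_trans (by norm_num) h3) (by norm_num) (Real.exp_pos _).le
  rw [Real.exp_neg, inv_le_comm₀ (Real.exp_pos _) (by norm_num)]
  refine le_trans ?_ (h6.trans h4)
  norm_num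

lemma vo3_log {n : ℝ} (hn : 1000 ≤ n) : 6 ≤ Real.log n := by
  rw [Real.le_log_iff_exp_le (by linarith)]
  have h1 : Real.exp 1 ^ 6 ≤ (2.7182818286 : ℝ) ^ 6 :=
    pow_le_pow_left₀ (Real.exp_pos _).le Real.exp_one_lt_d9.le 6
  have h2 : Real.exp 1 ^ 6 = Real.exp 6 := by rw [← Real.exp_nat_mul]; norm_num
  rw [← h2]
  exact h1.trans (le_trans (by norm_num) hn)

lemma vo3_mono {t n : ℝ} (hn : 1000 ≤ n) (h : n * Real.exp (-t) ≤ 1) :
    t ^ 6 * Real.exp (-t) ≤ Real.log n ^ 6 / n := by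
  have n0 : 0 < n := by linarith
  have u6 := vo3_log hn
  have ut : Real.log n ≤ t := by
    have h1 := Real.log_le_log (by positivity) h
    rw [Real.log_mul n0.ne' (Real.exp_pos _).ne', Real.log_exp, Real.log_one] at h1
    linarith
  have h2 : t ≤ Real.log n * Real.exp ((t - Real.log n) / 6) := by
    have h3 := Real.add_one_le_exp ((t - Real.log n) / 6)
    have h4 := mul_le_mul_of_nonneg_left h3 (by linarith : 0 ≤ Real.log n)
    nlinarith [mul_nonneg (sub_nonneg.2 ut) (sub_nonneg.2 u6)]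
  have h5 := pow_le_pow_left₀ (by linarith) h2 6
  have h6 : Real.exp ((t - Real.log n) / 6) ^ 6 * Real.exp (-t) = n⁻¹ := by
    rw [← Real.exp_nat_mul, ← Real.exp_add,
      show ((6 : ℕ) : ℝ) * ((t - Real.log n) / 6) + -t = -Real.log n by push_cast; ring,
      Real.exp_neg, Real.exp_log n0]
  calc t ^ 6 * Real.exp (-t)
      ≤ (Real.log n * Real.exp ((t - Real.log n) / 6)) ^ 6 * Real.exp (-t) :=
        mul_le_mul_of_nonneg_right h5 (Real.exp_pos _).le
    _ = Real.log n ^ 6 / n := by rw [mul_pow, mul_assoc, h6, div_eq_mul_inv]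

lemma vo3_num {r e d : ℝ} (r0 : 0 < r) (r1 : r ≤ 0.0044) (e0 : 0 ≤ e)
    (he : e ≤ 1 + 240 * r / (1 - 9 * r)) (hd : r * (1 - r / (1 - r)) ^ 24 ≤ d)
    (hj : 2400 ≤ e ^ 3 / d) : (e ^ 3 / d - 1400) * r ≤ 1 := by
  have h1 : 240 * r / (1 - 9 * r) ≤ 250 * r := by
    rw [div_le_iff₀ (by linarith)]
    nlinarith
  have h2 : r / (1 - r) ≤ 1.0045 * r := by
    rw [div_le_iff₀ (by linarith)]
    nlinarith
  have h3 := one_add_mul_le_pow (a := -(r / (1 - r))) (by linarith) 24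
  have h4 : 1 - 24.11 * r ≤ (1 - r / (1 - r)) ^ 24 := by
    rw [sub_eq_add_neg 1 (r / (1 - r))]
    refine le_trans ?_ h3
    push_cast
    linarith
  have h5 : r * (1 - 24.11 * r) ≤ d := (mul_le_mul_of_nonneg_left h4 r0.le).trans hd
  have p0 : 0 < 1 - 24.11 * r := by linarith
  have d1 : 0 < r * (1 - 24.11 * r) := mul_pos r0 p0
  have h6 : e ^ 3 ≤ (1 + 250 * r) ^ 3 := pow_le_pow_left₀ e0 (by linarith) 3
  have h7 : e ^ 3 / d ≤ (1 + 250 * r) ^ 3 / (r * (1 - 24.11 * r)) :=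
    div_le_div₀ (by positivity) h6 d1 h5
  generalize e ^ 3 / d = J at hj h7
  rw [le_div_iff₀ d1] at h7
  obtain ⟨s, rfl⟩ : ∃ s, r = s / 250 := ⟨250 * r, by ring⟩
  have s0 : 0 < s := by linarith
  have s1 : s ≤ 1.1 := by linarith
  have s2 : s ≤ 0.25 := by
    by_contra q
    have q1 : 0 ≤ (s - 0.25) * (1.1 - s) := mul_nonneg (by linarith) (by linarith)
    have q2 := mul_nonneg s0.le q1
    have q3 := mul_le_mul_of_nonneg_right hj d1.le
    nlinarith
  refine le_of_mul_le_mul_right ?_ p0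
  have q4 : s * s ≤ s * 0.25 := mul_le_mul_of_nonneg_left s2 s0.le
  have q5 : s * (s * s) ≤ s * (s * 0.25) := mul_le_mul_of_nonneg_left q4 s0.le
  nlinarith

theorem vo3_of (h : S_VB) : S_VO3 := by
  intro τ hτ hj
  have y0 := τ.im_pos
  have y1 := ModularGroup.three_le_four_mul_im_sq_of_mem_fd hτ
  have y2 : 0.866 ≤ τ.im := by
    by_contra q
    nlinarith
  have t1 : 5.44 ≤ 2 * π * τ.im := by
    have := mul_le_mul Real.pi_gt_d4.le y2 (by norm_num) Real.pi_pos.le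
    linarith
  have e : Real.exp (-(2 * π * τ.im)) = Real.exp (-2 * π * τ.im) := by
    rw [neg_mul, neg_mul]
  have r1 := vo3_small t1
  have r0 := Real.exp_pos (-(2 * π * τ.im))
  have a1 := h.e4 τ _ e (by linarith)
  have a2 := h.up τ _ e
  have a3 := h.low τ _ e (by linarith)
  have ej : ‖jj τ‖ = ‖ModularForm.E₄ τ‖ ^ 3 / ‖ModularForm.discriminant τ‖ := by
    rw [jj, norm_div, norm_pow]
  have a4 := vo3_num r0 r1 (norm_nonneg _) a1 a3 (ej ▸ hj)
  rw [← ej] at a4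
  have n1 : 1000 ≤ ‖jj τ‖ - 1400 := by linarith
  have a5 := vo3_mono n1 a4
  generalize ‖jj τ‖ - 1400 = n at a4 n1 a5 ⊢
  have ev : vo τ = (2 * π) ^ 6 * ((2 * π * τ.im) ^ 6 * ‖ModularForm.discriminant τ‖) := by
    rw [vo]
    ring
  generalize Real.exp (-(2 * π * τ.im)) = r at *
  have r2 : r ≤ 0.001 := by nlinarith
  have x1 : 24 * r / (1 - r) ≤ 0.0241 := by
    rw [div_le_iff₀ (by linarith)]
    linarith
  have x2 : Real.exp (24 * r / (1 - r)) ≤ 1.03 :=
    (Real.exp_le_exp.2 x1).trans ((Real.exp_bound_div_one_sub_of_interval (by norm_num)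
      (by norm_num)).trans (by norm_num))
  have x3 : ‖ModularForm.discriminant τ‖ ≤ r * 1.03 :=
    a2.trans (mul_le_mul_of_nonneg_left x2 r0.le)
  have x4 : (2 * π * τ.im) ^ 6 * ‖ModularForm.discriminant τ‖ ≤ 1.03 * (Real.log n ^ 6 / n) := by
    have := mul_le_mul_of_nonneg_left x3 (by positivity : 0 ≤ (2 * π * τ.im) ^ 6)
    linarith
  calc vo τ ≤ (2 * π) ^ 6 * (1.03 * (Real.log n ^ 6 / n)) := by
        rw [ev]
        exact mul_le_mul_of_nonneg_left x4 (by positivity)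
    _ = 1.03 * (2 * π * Real.log n) ^ 6 / n := by ring

end Pool.Agent.MP_b2c033_nt.UA
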