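import Pool.Agent.MP_b2c033_nt.UA.Spec

/-! Row W: the weighted integral of an invariant function does not depend on the weight. -/

namespace Pool.Agent.MP_b2c033_nt.UA

open Filter MeasureTheory
open UpperHalfPlane hiding I
open scoped MatrixGroups ENNReal

theorem w_meas (α : GL (Fin 2) ℝ) : Measurable fun z : ℍ => α • z :=
  (continuous_const_smul α).measurable

theorem w_sub (α : GL (Fin 2) ℝ) (F : ℍ → ℝ≥0∞) (hF : Measurable F) :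
    ∫⁻ z : ℍ, F (α • z) = ∫⁻ z : ℍ, F z :=
  (measurePreserving_smul α (volume : Measure ℍ)).lintegral_comp hF

theorem w_one {H : Type} [Group H] [Countable H] (ρ : H →* GL (Fin 2) ℝ)
    (η₁ η₂ Φ : ℍ → ℝ≥0∞) (c : ℝ≥0∞) (m₁ : Measurable η₁) (m₂ : Measurable η₂)
    (mΦ : Measurable Φ) (h₂ : ∀ᵐ z : ℍ, ∑' h, η₂ (ρ h • z) = c) :
    (∫⁻ z, η₁ z * Φ z) * c = ∑' h, ∫⁻ z, η₁ z * Φ z * η₂ (ρ h • z) := by
  have m : Measurable fun z => η₁ z * Φ z := m₁.mul mΦ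
  have m' : ∀ h, AEMeasurable (fun z => η₁ z * Φ z * η₂ (ρ h • z)) volume := fun h =>
    (m.mul (m₂.comp (w_meas (ρ h)))).aemeasurable
  rw [← lintegral_mul_const c m, ← lintegral_tsum m']
  refine lintegral_congr_ae (h₂.mono fun z hz => ?_)
  beta_reduce
  rw [ENNReal.tsum_mul_left, hz]

theorem w : S_W := by
  intro H _ _ ρ η₁ η₂ Φ c c0 ct m₁ m₂ mΦ h₁ h₂ hΦ
  rw [← ENNReal.mul_left_inj c0 ct, w_one ρ η₁ η₂ Φ c m₁ m₂ mΦ h₂,
    w_one ρ η₂ η₁ Φ c m₂ m₁ mΦ h₁, ← (Equiv.inv H).tsum_eq]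
  refine tsum_congr fun h => ?_
  have e := w_sub (ρ h) (fun z => η₁ z * Φ z * η₂ (ρ h⁻¹ • z))
    ((m₁.mul mΦ).mul (m₂.comp (w_meas (ρ h⁻¹))))
  simp only [Equiv.inv_apply]
  rw [← e]
  refine lintegral_congr fun z => ?_
  rw [hΦ, map_inv, inv_smul_smul]
  ring

end Pool.Agent.MP_b2c033_nt.UA
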