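import Pool.Agent.MP_b2c033_nt.UA.Spec

/-! Fibres and growth of the Weierstrass function. -/

namespace Pool.Agent.MP_b2c033_nt.UA

open Filter Asymptotics
open UpperHalfPlane hiding I
open scoped Real Topology

theorem wp_key (P : PeriodPair) {l : ℂ} (hl : l ∈ P.lattice) :
    Tendsto (fun z => (z - l) ^ 2 * P.weierstrassP z) (𝓝[≠] l) (𝓝 1) := by
  have c := (P.analyticAt_weierstrassPExcept l).continuousAt
  have h : ContinuousAt (fun z => (z - l) ^ 2 * P.weierstrassPExcept l z + 1 -
      (z - l) ^ 2 / l ^ 2) l := by fun_prop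
  have h2 := h.tendsto.mono_left (nhdsWithin_le_nhds (s := {l}ᶜ))
  simp only [sub_self, zero_pow two_ne_zero, zero_mul, zero_add, zero_div, sub_zero] at h2
  refine h2.congr' ?_
  filter_upwards [self_mem_nhdsWithin] with z hz
  rw [← P.ite_eq_one_sub_sq_mul_weierstrassP l hl, if_neg (show z ≠ l from hz)]

theorem wp_norm (o : ℚ) (z : ℍ) : ‖ee o z‖ = Real.exp (-(2 * π * o * z.im)) := by
  simp [ee, Complex.norm_exp]

theorem wp : S_WP := by
  refine ⟨fun P c => ?_, fun P g c hc hg => ?_, fun P g l c o hl hc ho hg => ?_⟩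
  · have h0 : (P.lattice : Set ℂ).Countable :=
      Set.countable_coe_iff.1 (P.latticeEquivProd.toEquiv.countable_iff.2 inferInstance)
    have h1 : {w | w ∉ P.lattice ∧ P.weierstrassP w = c}.Countable := by
      refine (HereditarilyLindelofSpace.isLindelof _).countable_of_isDiscrete
        (isDiscrete_iff_nhdsNE.2 fun t ht => inf_principal_eq_bot.2 ?_)
      by_contra q
      have e := P.analyticOnNhd_weierstrassP.eqOn_of_preconnected_of_frequently_eq
        (g := fun _ => c) analyticOnNhd_const
        (h0.isConnected_compl_of_one_lt_rank (by simp)).isPreconnected ht.1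
        ((not_eventually.1 q).mono fun w hw => (not_not.1 hw).2)
      have k : Tendsto (fun z : ℂ => (z - 0) ^ 2 * c) (𝓝[≠] 0) (𝓝 0) :=
        (Continuous.tendsto' (by fun_prop) _ _ (by simp)).mono_left nhdsWithin_le_nhds
      refine one_ne_zero (tendsto_nhds_unique (wp_key P (zero_mem _)) (k.congr' ?_))
      filter_upwards [self_mem_nhdsWithin,
        nhdsWithin_le_nhds (P.compl_lattice_sdiff_singleton_mem_nhds 0)] with z a b
      rw [e fun m => b ⟨m, a⟩]
    exact (h0.union h1).mono fun w hw => (em _).imp id fun q => ⟨q, hw⟩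
  · exact ((P.analyticOnNhd_weierstrassP c hc).continuousAt.tendsto.comp hg).isBigO_one ℝ
  have e0 : ∀ z, ee o z ≠ 0 := fun z => Complex.exp_ne_zero _
  have o0 : (0 : ℝ) < 2 * π * o := by
    have : (0 : ℝ) < o := by exact_mod_cast ho
    positivity
  have t1 : Tendsto (ee o) atImInfty (𝓝 0) := by
    rw [tendsto_zero_iff_norm_tendsto_zero]
    simp only [wp_norm]
    exact Real.tendsto_exp_neg_atTop_nhds_zero.comp
      ((tendsto_comap (f := UpperHalfPlane.im)).const_mul_atTop o0)
  have t2 : Tendsto g atImInfty (𝓝[≠] l) := by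
    refine tendsto_nhdsWithin_iff.2 ⟨?_, (hg.eventually_ne hc).mono fun z hz q => hz ?_⟩
    · have := (hg.mul t1).add_const l
      simpa only [div_mul_cancel₀ _ (e0 _), sub_add_cancel, mul_zero, zero_add] using this
    · rw [show g z = l from q, sub_self, zero_div]
  have h1 := (((wp_key P hl).comp t2).div (hg.pow 2) (pow_ne_zero 2 hc)).isBigO_one ℝ
  have h2 : (fun z => (ee o z ^ 2)⁻¹) =O[atImInfty]
      fun z => Real.exp (2 * π * (2 * o) * z.im) := isBigO_of_le _ fun z => le_of_eq (by
    rw [norm_inv, norm_pow, wp_norm, Real.norm_of_nonneg (Real.exp_pos _).le, ← Real.exp_nat_mul,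
      ← Real.exp_neg]
    congr 1
    push_cast
    ring)
  refine (h1.mul h2).congr' ?_ (.of_forall fun z => one_mul _)
  filter_upwards [t2.eventually self_mem_nhdsWithin] with z hz
  have := sub_ne_zero.2 (show g z ≠ l from hz)
  have := e0 z
  simp only [Pi.div_apply, Function.comp_apply]
  field_simp

end Pool.Agent.MP_b2c033_nt.UA
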