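import Pool.Agent.MP_b2c033_nt.UA.Ar1
import Pool.Agent.MP_b2c033_nt.UA.Ar2
import Pool.Agent.MP_b2c033_nt.UA.Area
import Pool.Agent.MP_b2c033_nt.UA.Be
import Pool.Agent.MP_b2c033_nt.UA.Cn1
import Pool.Agent.MP_b2c033_nt.UA.Cn2
import Pool.Agent.MP_b2c033_nt.UA.Cn3
import Pool.Agent.MP_b2c033_nt.UA.Cn4
import Pool.Agent.MP_b2c033_nt.UA.Cnt
import Pool.Agent.MP_b2c033_nt.UA.Cu
import Pool.Agent.MP_b2c033_nt.UA.Dg1
import Pool.Agent.MP_b2c033_nt.UA.Euc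
import Pool.Agent.MP_b2c033_nt.UA.Ex1
import Pool.Agent.MP_b2c033_nt.UA.Ex2
import Pool.Agent.MP_b2c033_nt.UA.Ex3
import Pool.Agent.MP_b2c033_nt.UA.Fd
import Pool.Agent.MP_b2c033_nt.UA.Grp
import Pool.Agent.MP_b2c033_nt.UA.Ho0
import Pool.Agent.MP_b2c033_nt.UA.Ho1
import Pool.Agent.MP_b2c033_nt.UA.Horo
import Pool.Agent.MP_b2c033_nt.UA.Iso
import Pool.Agent.MP_b2c033_nt.UA.Iso1
import Pool.Agent.MP_b2c033_nt.UA.Pe
import Pool.Agent.MP_b2c033_nt.UA.Per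
import Pool.Agent.MP_b2c033_nt.UA.Ph1
import Pool.Agent.MP_b2c033_nt.UA.Ph2
import Pool.Agent.MP_b2c033_nt.UA.Val
import Pool.Agent.MP_b2c033_nt.UA.Vb
import Pool.Agent.MP_b2c033_nt.UA.Vo1
import Pool.Agent.MP_b2c033_nt.UA.Vo2
import Pool.Agent.MP_b2c033_nt.UA.Vo3
import Pool.Agent.MP_b2c033_nt.UA.W
import Pool.Agent.MP_b2c033_nt.UA.Wp
import Pool.Agent.MP_b2c033_nt.UA.Real
import Pool.Agent.MP_b2c033_nt.UA.Glue
import Pool.Agent.MP_b2c033_nt.U.AvF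

/-! Block A assembled. -/

namespace Pool.Agent.MP_b2c033_nt.UA

theorem be : S_BE := be_of ex1 ex2

theorem per' : S_PER := per_of cu be ex3 ph1

theorem val : S_VAL := val_of grp

theorem pe' : S_PE := pe_of fd

theorem fx : Fx where
  cu := cu
  be := be
  ex3 := ex3
  ph1 := ph1
  ph2 := ph2
  per := per'
  val := val
  iso := iso_of cu grp fd (iso1_of fd w) pe'
  pe := pe'
  euc := euc
  horo := horo_of cu be grp pe' (ho1_of euc ho0)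
  deg := deg_of cu be (dg1_of cu be ph1 per' pe' euc (area_of ar1 ar2)
    (cnt_of cu be ph1 cn1 cn2 cn3 wp (cn4_of cu be ph1 ph2 per' grp wp)))

end Pool.Agent.MP_b2c033_nt.UA

namespace Pool.Agent.MP_b2c033_nt.U

theorem s_Real : S_Real := UA.real_of UA.fx avFacts

theorem s_Val : S_Val := UA.sval_of UA.fx

theorem s_Horo : S_Horo := UA.shoro_of UA.fx

theorem s_Deg : S_Deg := UA.sdeg_of UA.fx

theorem s_Vol : S_Vol := UA.svol_of UA.vo1 (UA.vo2_of UA.vb) (UA.vo3_of UA.vb)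

end Pool.Agent.MP_b2c033_nt.U
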