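import Pool.Agent.MP_b2c033_nt.UA.Spec

/-! The area of a holomorphic map, counted on injective pieces. -/

namespace Pool.Agent.MP_b2c033_nt.UA

open Filter MeasureTheory Set TopologicalSpace
open scoped Topology ENNReal

theorem ar1_det (c : ℂ) : ENNReal.ofReal |(c • (1 : ℂ →L[ℝ] ℂ)).det| = ‖c‖ₑ ^ 2 := by
  have e : (c • (1 : ℂ →L[ℝ] ℂ)).det = ‖c‖ ^ 2 := by
    rw [← Complex.normSq_eq_norm_sq, ← Algebra.norm_complex_apply, Algebra.norm_apply]
    rfl
  rw [e, abs_of_nonneg (sq_nonneg _), ENNReal.ofReal_pow (norm_nonneg _), ofReal_norm_eq_enorm]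

theorem ar1_inj {ψ : ℂ → ℂ} {z : ℂ} (h : AnalyticAt ℂ ψ z) (h0 : deriv ψ z ≠ 0) :
    ∃ N ∈ 𝓝 z, InjOn ψ N := by
  have k := (h.hasStrictDerivAt.hasStrictFDerivAt_equiv h0).eventually_left_inverse
  exact ⟨_, k, fun a ha b hb e => ha.symm.trans (e ▸ hb)⟩

theorem ar1 : S_AR1 := by
  intro ψ U hU hψ
  obtain ⟨V, hV⟩ := (((countable_countableBasis ℂ).mono
    (sep_subset _ fun B => B ⊆ U ∧ InjOn ψ B)).insert ∅).exists_eq_range (insert_nonempty _ _)
  have k : ∀ i, IsOpen (V i) ∧ V i ⊆ U ∧ InjOn ψ (V i) := fun i => by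
    rcases (hV.symm ▸ mem_range_self i : V i ∈ insert ∅ _) with e | e
    · simp [e]
    · exact ⟨isOpen_of_mem_countableBasis e.1, e.2⟩
  have m : ∀ i, MeasurableSet (disjointed V i) :=
    MeasurableSet.disjointed fun i => (k i).1.measurableSet
  have s : ∀ i, disjointed V i ⊆ U := fun i => (disjointed_subset V i).trans (k i).2.1
  have j : ∀ i, InjOn ψ (disjointed V i) := fun i => (k i).2.2.mono (disjointed_subset V i)
  have mW : MeasurableSet (⋃ i, V i) := MeasurableSet.iUnion fun i => (k i).1.measurableSet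
  refine ⟨disjointed V, s, disjoint_disjointed V, fun i =>
    (m i).image_of_continuousOn_injOn (hψ.continuousOn.mono (s i)) (j i), ?_⟩
  have z0 : ∫⁻ z in U \ ⋃ i, V i, ‖deriv ψ z‖ₑ ^ 2 = 0 := by
    refine setLIntegral_eq_zero (hU.measurableSet.diff mW) fun z hz => ?_
    have : deriv ψ z = 0 := by
      by_contra h0
      obtain ⟨N, hN, iN⟩ := ar1_inj (hψ.analyticAt (hU.mem_nhds hz.1)) h0
      obtain ⟨B, b1, b2, b3⟩ := (isBasis_countableBasis ℂ).mem_nhds_iff.1
        (inter_mem hN (hU.mem_nhds hz.1))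
      obtain ⟨i, rfl⟩ : B ∈ range V := hV ▸ Or.inr
        ⟨b1, b3.trans inter_subset_right, iN.mono (b3.trans inter_subset_left)⟩
      exact hz.2 (mem_iUnion.2 ⟨i, b2⟩)
    simp [this]
  rw [← lintegral_inter_add_sdiff _ U mW, z0, add_zero,
    inter_eq_right.2 (iUnion_subset fun i => (k i).2.1), ← iUnion_disjointed,
    lintegral_iUnion m (disjoint_disjointed V)]
  refine tsum_congr fun i => ?_
  rw [← lintegral_abs_det_fderiv_eq_addHaar_image volume (m i) (fun z hz =>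
    (hψ.hasDerivAt (hU.mem_nhds (s i hz))).complexToReal_fderiv.hasFDerivWithinAt) (j i)]
  simp only [ar1_det]

end Pool.Agent.MP_b2c033_nt.UA
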