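import Pool.Agent.MP_b2c033_nt.UA.Spec
import Pool.Agent.MP_b2c033_nt.U.Core

/-! Bridge between the matrices and averages of `U.Core` and the concrete model. -/

namespace Pool.Agent.MP_b2c033_nt.UA

open CongruenceSubgroup
open UpperHalfPlane hiding I
open scoped Real Manifold MatrixGroups ModularForm
open U (Mt ofZ SZ mob sl Cusp Av AvFacts Lev)

noncomputable section

/-- the real matrix -/
def mat (x : Mt) : Matrix (Fin 2) (Fin 2) ℝ := !![(x.a : ℝ), (x.b : ℝ); (x.c : ℝ), (x.d : ℝ)]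

lemma det_mat (x : Mt) : (mat x).det = (x.det : ℝ) := by
  simp [mat, Matrix.det_fin_two, U.Mt.det]

/-- the invertible real matrix -/
def gl (x : Mt) : GL (Fin 2) ℝ :=
  if h : x.det = 0 then 1 else
    Matrix.GeneralLinearGroup.mkOfDetNeZero (mat x) (by rw [det_mat]; exact_mod_cast h)

lemma gl_val {x : Mt} (h : 0 < x.det) : (gl x).val = mat x := by
  simp [gl, h.ne']

lemma gl_det {x : Mt} (h : 0 < x.det) : (gl x).val.det = (x.det : ℝ) := by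
  rw [gl_val h, det_mat]

lemma gl_det_pos {x : Mt} (h : 0 < x.det) : 0 < (gl x).val.det := by
  rw [gl_det h]; exact_mod_cast h

lemma gl_rp {x : Mt} (h : 0 < x.det) : RP (gl x) := by
  refine ⟨gl_det_pos h, fun i j => ?_⟩
  rw [gl_val h]
  fin_cases i <;> fin_cases j
  · exact ⟨x.a, rfl⟩
  · exact ⟨x.b, rfl⟩
  · exact ⟨x.c, rfl⟩
  · exact ⟨x.d, rfl⟩

lemma gl_mul {x y : Mt} (hx : 0 < x.det) (hy : 0 < y.det) : gl (x * y) = gl x * gl y := by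
  have hxy : 0 < (x * y).det := by rw [U.Mt.det_mul]; positivity
  apply Units.ext
  rw [Units.val_mul, gl_val hxy, gl_val hx, gl_val hy]
  ext i j
  fin_cases i <;> fin_cases j <;> simp [mat, Matrix.mul_apply, Fin.sum_univ_two]

lemma gl_ofZ (γ : SZ) : gl (ofZ γ) = (γ : GL (Fin 2) ℝ) := by
  apply Units.ext
  rw [gl_val (by simp)]
  ext i j
  fin_cases i <;> fin_cases j <;> simp [mat, ofZ]

lemma denom_gl {x : Mt} (h : 0 < x.det) (z : ℂ) : denom (gl x) z = x.c * z + x.d := by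
  have h1 : (gl x) 1 0 = (x.c : ℝ) := by
    show (gl x).val 1 0 = _
    rw [gl_val h]; rfl
  have h2 : (gl x) 1 1 = (x.d : ℝ) := by
    show (gl x).val 1 1 = _
    rw [gl_val h]; rfl
  simp [denom, h1, h2]

lemma num_gl {x : Mt} (h : 0 < x.det) (z : ℂ) : num (gl x) z = x.a * z + x.b := by
  have h1 : (gl x) 0 0 = (x.a : ℝ) := by
    show (gl x).val 0 0 = _
    rw [gl_val h]; rfl
  have h2 : (gl x) 0 1 = (x.b : ℝ) := by
    show (gl x).val 0 1 = _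
    rw [gl_val h]; rfl
  simp [num, h1, h2]

lemma coe_gl_smul {x : Mt} (h : 0 < x.det) (z : ℍ) :
    ((gl x • z : ℍ) : ℂ) = (x.a * (z : ℂ) + x.b) / (x.c * (z : ℂ) + x.d) := by
  rw [coe_smul_of_det_pos (by simpa using gl_det_pos h), num_gl h, denom_gl h]

lemma mob_eq {x : Mt} (h : 0 < x.det) (z : ℍ) : mob x z = gl x • z := by
  rw [mob, ← coe_gl_smul h, ofComplex_apply]

lemma mob_ofZ (γ : SZ) (z : ℍ) : mob (ofZ γ) z = γ • z := by
  rw [mob_eq (by simp), gl_ofZ]; rfl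

lemma sl_eq {x : Mt} (h : 0 < x.det) (f : ℍ → ℂ) : sl x f = f ∣[(2 : ℤ)] gl x := by
  funext z
  have hd : 0 < (gl x).det.val := by simpa using gl_det_pos h
  have hd' : (gl x).det.val = (x.det : ℝ) := by simpa using gl_det h
  rw [ModularForm.slash_apply, sl, mob_eq h, denom_gl h, σ, if_pos hd, hd',
    abs_of_pos (by exact_mod_cast h)]
  simp only [ContinuousAlgEquiv.refl_apply, zpow_neg]
  norm_num
  rw [div_eq_mul_inv]
  norm_cast
  ring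

lemma sl_ofZ (γ : SZ) (f : ℍ → ℂ) : sl (ofZ γ) f = f ∣[(2 : ℤ)] γ := by
  rw [sl_eq (by simp), gl_ofZ]; rfl

lemma cusp_iff (f : ℍ → ℂ) : Cusp f ↔ InS f := by
  constructor
  · rintro ⟨h1, ⟨L, hL, h2⟩, h3⟩
    exact ⟨L, hL, ⟨h1, h3⟩, fun γ hγ => by rw [← sl_ofZ]; exact h2 γ hγ⟩
  · rintro ⟨L, hL, ⟨h1, h3⟩, h2⟩
    exact ⟨h1, ⟨L, hL, fun γ hγ => by rw [sl_ofZ]; exact h2 γ hγ⟩, h3⟩

lemma mem_swap {L : ℕ} {γ δ : SZ} : γ * δ⁻¹ ∈ Gamma L ↔ δ⁻¹ * γ ∈ Gamma L :=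
  (Gamma_normal L).mem_comm_iff

/-- averages over the full group as sums over a transversal -/
lemma av_tr (ha : AvFacts) (L : ℕ) (hL : 0 < L) : ∃ s : Finset SZ, 0 < s.card ∧
    Tr (Gamma L) (fun i : s => (i : SZ)) ∧
    ∀ (X : Type) [AddCommMonoid X] [Module ℝ X] (Φ : SZ → X),
      Av ⊤ L Φ = ((s.card : ℝ)⁻¹) • ∑ i : s, Φ i := by
  obtain ⟨s, h0, -, h1, h2, h3⟩ := ha.fin ⊤ L hL
  refine ⟨s, h0.card_pos, fun γ => ?_, fun X _ _ Φ => ?_⟩
  · obtain ⟨δ, hδ, h⟩ := h1 γ trivial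
    refine ⟨⟨δ, hδ⟩, mem_swap.2 h, fun j hj => Subtype.ext ?_⟩
    refine h2 _ j.2 _ hδ ?_
    have := (Gamma L).mul_mem (mem_swap.1 hj) ((Gamma L).inv_mem h)
    simpa [mul_assoc] using this
  · rw [h3, Finset.sum_coe_sort s Φ]

lemma lev_slash {L : ℕ} {f : ℍ → ℂ} (hc : S_CU) (h : Cu L f) :
    Lev L fun γ : SZ => f ∣[(2 : ℤ)] γ := fun γ δ hδ => by
  show f ∣[(2 : ℤ)] (γ * δ) = _
  rw [SlashAction.slash_mul]
  exact (hc.sl L f γ h).2 δ hδ

lemma ee_eq (ν : ℚ) (z : ℍ) : ee ν z = Complex.exp (2 * π * Complex.I * ν * z) := rfl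

lemma fdC_eq : U.fdC = {w : ℂ | 0 < w.im ∧ 1 < ‖w‖ ∧ |w.re| < 1 / 2} := by
  ext w; simp only [U.fdC, Set.mem_setOf_eq]; tauto

lemma covol_eq (P : PeriodPair) : U.covol P = Om P := rfl

end

end Pool.Agent.MP_b2c033_nt.UA
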