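import Mathlib

/-! The concrete model: weight two cusp forms of all levels, expansions, periods, energy. -/

namespace Pool.Agent.MP_b2c033_nt.UA

open Filter MeasureTheory CongruenceSubgroup
open UpperHalfPlane hiding I
open scoped Real Manifold MatrixGroups ModularForm Modular Topology ENNReal

noncomputable section

/-- holomorphic with `y |f|` bounded -/
def Bd (f : ℍ → ℂ) : Prop :=
  MDifferentiable 𝓘(ℂ) 𝓘(ℂ) f ∧ ∃ C : ℝ, ∀ z : ℍ, z.im * ‖f z‖ ≤ C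

/-- cusp form of weight two on `Γ(L)` -/
def Cu (L : ℕ) (f : ℍ → ℂ) : Prop := Bd f ∧ ∀ γ ∈ Gamma L, f ∣[(2 : ℤ)] γ = f

/-- cusp form of weight two of some level -/
def InS (f : ℍ → ℂ) : Prop := ∃ L : ℕ, 0 < L ∧ Cu L f

/-- rational matrix of positive determinant -/
def RP (α : GL (Fin 2) ℝ) : Prop :=
  0 < α.val.det ∧ ∀ i j, ∃ r : ℚ, α.val i j = (r : ℝ)

/-- `e(ν z)` -/
def ee (ν : ℚ) (z : ℍ) : ℂ := Complex.exp (2 * π * Complex.I * ν * z)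

/-- the exponents lie in `(1 / L) ℕ` -/
def Den (L : ℕ) (b : ℚ → ℂ) : Prop := ∀ ν, b ν ≠ 0 → ∃ n : ℕ, ν * L = n

/-- `f = ∑ b ν e(ν z)` over positive `ν` with bounded denominator -/
def Ex (f : ℍ → ℂ) (b : ℚ → ℂ) : Prop :=
  (∀ ν ≤ 0, b ν = 0) ∧ (∃ L : ℕ, 0 < L ∧ Den L b) ∧
    ∀ z : ℍ, HasSum (fun ν => b ν * ee ν z) (f z)

/-- the coefficients -/
def beta (f : ℍ → ℂ) : ℚ → ℂ := Classical.epsilon (Ex f)

/-- the termwise primitive -/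
def ph (b : ℚ → ℂ) (z : ℍ) : ℂ := ∑' ν : ℚ, b ν / ν * ee ν z

/-- the primitive of `2 π i f` that vanishes at `∞` -/
def phi (f : ℍ → ℂ) : ℍ → ℂ := ph (beta f)

/-- the period -/
def per (f : ℍ → ℂ) (α : GL (Fin 2) ℝ) : ℂ :=
  phi f (α • UpperHalfPlane.I) - phi (f ∣[(2 : ℤ)] α) UpperHalfPlane.I

/-- representatives of the cosets `Γ γ` -/
def Tr {ι : Type} (Γ : Subgroup SL(2, ℤ)) (rep : ι → SL(2, ℤ)) : Prop :=
  ∀ γ : SL(2, ℤ), ∃! i, γ * (rep i)⁻¹ ∈ Γ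

/-- `∫ |f| ^ 2 dx dy` over the open fundamental domain -/
def EnL (f : ℍ → ℂ) : ℝ≥0∞ := ∫⁻ z in 𝒟ᵒ, ENNReal.ofReal ((z.im * ‖f z‖) ^ 2)

/-- the energy -/
def En (f : ℍ → ℂ) : ℝ := 4 * π ^ 2 * (EnL f).toReal

/-- the pairing on one fundamental domain, conjugate linear in the first variable -/
def pe (f g : ℍ → ℂ) : ℂ := 4 * π ^ 2 * ∫ z in 𝒟ᵒ, petersson 2 f g z

/-- covolume -/
def Om (P : PeriodPair) : ℝ := |((starRingEnd ℂ) P.ω₁ * P.ω₂).im|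

/-- the modular invariant, the same term as `H87.jj` -/
def jj (z : ℍ) : ℂ := ModularForm.E₄ z ^ 3 / ModularForm.discriminant z

/-- `(2 π) ^ 12 y ^ 6 |Δ|` -/
def vo (τ : ℍ) : ℝ := (2 * π) ^ 12 * τ.im ^ 6 * ‖ModularForm.discriminant τ‖

end

end Pool.Agent.MP_b2c033_nt.UA
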