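import Pool.Agent.MP_b2c033_nt.UA.Spec

/-! The energy as a Euclidean integral. -/

namespace Pool.Agent.MP_b2c033_nt.UA

open MeasureTheory
open UpperHalfPlane hiding I
open scoped Modular ENNReal NNReal

theorem euc_pt (z : ℍ) (c : ℂ) :
    (((1 / NNReal.mk z.im z.im_pos.le : ℝ≥0) ^ 2 : ℝ≥0) : ℝ≥0∞) *
      ENNReal.ofReal ((z.im * ‖c‖) ^ 2) = ‖c‖ₑ ^ 2 := by
  have h := z.im_pos
  rw [← ofReal_norm, ← ENNReal.ofReal_pow (norm_nonneg _), ← ENNReal.ofReal_coe_nnreal,
    ← ENNReal.ofReal_mul (NNReal.coe_nonneg _)]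
  refine congrArg ENNReal.ofReal ?_
  simp only [NNReal.coe_pow, NNReal.coe_div, NNReal.coe_one, NNReal.coe_mk]
  field_simp

theorem euc_set (s : Set ℍ) (hs : MeasurableSet s) (f : ℍ → ℂ) (hf : Continuous f) :
    ∫⁻ z in s, ENNReal.ofReal ((z.im * ‖f z‖) ^ 2) =
      ∫⁻ w in (↑) '' s, ‖f (ofComplex w)‖ₑ ^ 2 := by
  have h0 : MeasurePreserving UpperHalfPlane.coe (volume.comap UpperHalfPlane.coe)
      (volume.restrict (.range UpperHalfPlane.coe)) :=
    ⟨measurable_coe, by rw [measurableEmbedding_coe.map_comap]⟩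
  have h1 : Continuous fun z : ℍ => (1 / NNReal.mk z.im z.im_pos.le : ℝ≥0) ^ 2 := by
    refine .pow (.div₀ continuous_const ?_ ?_) _
    · exact continuous_im.subtype_mk _
    · exact fun x => NNReal.ne_iff.mp x.im_ne_zero
  have h2 : Continuous fun z : ℍ => (z.im * ‖f z‖) ^ 2 := (continuous_im.mul hf.norm).pow _
  rw [volume_def, setLIntegral_withDensity_eq_setLIntegral_mul _ h1.measurable.coe_nnreal_ennreal
    h2.measurable.ennreal_ofReal hs,
    ← Set.inter_eq_self_of_subset_left (Set.image_subset_range _ s),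
    ← Measure.restrict_restrict (measurableEmbedding_coe.measurableSet_image.2 hs),
    ← h0.setLIntegral_comp_emb measurableEmbedding_coe]
  refine lintegral_congr fun z => ?_
  rw [Pi.mul_apply, euc_pt, ofComplex_apply]

theorem euc : S_EUC := fun f hf => by
  rw [EnL, euc_set _ ModularGroup.isOpen_fdo.measurableSet f hf, ModularGroup.coe_fdo]

end Pool.Agent.MP_b2c033_nt.UA
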