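import Pool.Agent.MP_b2c033_nt.UA.Br

/-! The facts on the concrete model that the glue uses, and the energy as an integral. -/

namespace Pool.Agent.MP_b2c033_nt.UA

open CongruenceSubgroup MeasureTheory
open UpperHalfPlane hiding I
open scoped Real Manifold MatrixGroups ModularForm ENNReal
open U (Mt ofZ SZ mob sl Cusp Av AvFacts Lev fdC)

structure Fx : Prop where
  cu : S_CU
  be : S_BE
  ex3 : S_EX3
  ph1 : S_PH1
  ph2 : S_PH2
  per : S_PER
  val : S_VAL
  iso : S_ISO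
  pe : S_PE
  euc : S_EUC
  horo : S_HORO
  deg : S_DEG

lemma fdC_meas : MeasurableSet fdC := by
  have : IsOpen fdC := by
    refine (isOpen_lt continuous_const Complex.continuous_im).inter
      ((isOpen_lt Complex.continuous_re.abs continuous_const).inter
        (isOpen_lt continuous_const continuous_norm))
  exact this.measurableSet

lemma fdC_aesm {f : ℍ → ℂ} (hf : Bd f) :
    AEStronglyMeasurable (fun w => ‖f (ofComplex w)‖ ^ 2) (volume.restrict fdC) := by
  have h1 : DifferentiableOn ℂ (f ∘ ofComplex) {z | 0 < z.im} := mdifferentiable_iff.1 hf.1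
  have h2 : ContinuousOn (f ∘ ofComplex) fdC := h1.continuousOn.mono fun w hw => hw.1
  exact (h2.norm.pow 2).aestronglyMeasurable fdC_meas

lemma enl_eq (h : Fx) {f : ℍ → ℂ} (hf : Bd f) :
    EnL f = ∫⁻ w in fdC, ENNReal.ofReal (‖f (ofComplex w)‖ ^ 2) := by
  rw [h.euc f hf.1.continuous, fdC_eq]
  refine lintegral_congr fun w => ?_
  rw [ENNReal.ofReal_pow (norm_nonneg _), ofReal_norm]

lemma fdC_int (h : Fx) {f : ℍ → ℂ} (hf : Bd f) :
    IntegrableOn (fun w => ‖f (ofComplex w)‖ ^ 2) fdC := by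
  refine ⟨fdC_aesm hf, ?_⟩
  rw [hasFiniteIntegral_iff_ofReal (Filter.Eventually.of_forall fun w => by positivity),
    ← enl_eq h hf]
  exact h.pe.fin f hf

lemma en_eq (h : Fx) {f : ℍ → ℂ} (hf : Bd f) :
    En f = 4 * π ^ 2 * ∫ w in fdC, ‖f (ofComplex w)‖ ^ 2 := by
  rw [En, enl_eq h hf, integral_eq_lintegral_of_nonneg_ae
    (Filter.Eventually.of_forall fun w => by positivity) (fdC_aesm hf)]

lemma en_nonneg (f : ℍ → ℂ) : 0 ≤ En f := by unfold En; positivity

lemma ex_zero {f : ℍ → ℂ} {b : ℚ → ℂ} (h : Ex f b) (h0 : ∀ ν, b ν = 0) : f = 0 := by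
  funext z
  have := h.2.2 z
  simp only [h0, zero_mul] at this
  exact this.unique hasSum_zero

lemma ins_two (hc : S_CU) {f g : ℍ → ℂ} (hf : InS f) (hg : InS g) :
    ∃ L, 0 < L ∧ Cu L f ∧ Cu L g := by
  obtain ⟨L, hL, h1⟩ := hf
  obtain ⟨M, hM, h2⟩ := hg
  exact ⟨L * M, by positivity, hc.mono _ _ _ (dvd_mul_right _ _) h1,
    hc.mono _ _ _ (dvd_mul_left _ _) h2⟩

lemma ins_ex (h : Fx) {f : ℍ → ℂ} (hf : InS f) : Ex f (beta f) := by
  obtain ⟨L, hL, h1⟩ := hf
  exact (h.be.ex L f hL h1).1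

end Pool.Agent.MP_b2c033_nt.UA
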