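import Pool.Agent.MP_b2c033_nt.UA.Spec

/-! Periods: independence of the base point, the cocycle relation, linearity. -/

namespace Pool.Agent.MP_b2c033_nt.UA

open Filter MeasureTheory CongruenceSubgroup
open UpperHalfPlane hiding I
open scoped Real Manifold MatrixGroups ModularForm Modular Topology

noncomputable section

theorem per_ex (hb : S_BE) {f : ℍ → ℂ} (hf : InS f) : Ex f (beta f) := by
  obtain ⟨L, L0, h⟩ := hf
  exact (hb.ex L f L0 h).1

theorem per_det {α : GL (Fin 2) ℝ} (h : 0 < α.val.det) : 0 < α.det.val := by simpa using h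

theorem per_sigma {α : GL (Fin 2) ℝ} (h : 0 < α.val.det) (c : ℂ) : σ α c = c := by
  rw [σ, if_pos (per_det h), ContinuousAlgEquiv.refl_apply]

theorem per_slash {α : GL (Fin 2) ℝ} (h : 0 < α.val.det) (f : ℍ → ℂ) (z : ℍ) :
    (f ∣[(2 : ℤ)] α) z = f (α • z) * (α.val.det / denom α z ^ 2) := by
  rw [ModularForm.slash_apply, per_sigma h, abs_of_pos (per_det h), mul_assoc, div_eq_mul_inv]
  simp [zpow_ofNat]

theorem per_der (hb : S_BE) (h1 : S_PH1) {f : ℍ → ℂ} {α : GL (Fin 2) ℝ} (hf : InS f)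
    (h : 0 < α.val.det) (z : ℍ) : HasDerivAt (fun w => phi f (α • ofComplex w))
      (2 * π * Complex.I * (f ∣[(2 : ℤ)] α) z) z := by
  have d1 := h1.der f _ (per_ex hb hf) (α • z)
  have d2 := (hasStrictDerivAt_smul h z).hasDerivAt
  have d3 := HasDerivAt.comp_of_eq (z : ℂ) d1 d2 (by rw [ofComplex_apply])
  rw [per_slash h, ← mul_assoc]
  refine d3.congr_of_eventuallyEq (.of_forall fun w => ?_)
  simp only [Function.comp_apply, ofComplex_apply, phi]

theorem per_const (hc : S_CU) (hb : S_BE) (h1 : S_PH1) {f : ℍ → ℂ} {α : GL (Fin 2) ℝ}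
    (hf : InS f) (hα : RP α) (z : ℍ) :
    phi f (α • z) - phi (f ∣[(2 : ℤ)] α) z = per f α := by
  have d : ∀ w ∈ upperHalfPlaneSet, HasDerivAt (fun w => phi f (α • ofComplex w) -
      phi (f ∣[(2 : ℤ)] α) (ofComplex w)) 0 w := fun w hw => by
    have := (per_der hb h1 hf hα.1 ⟨w, hw⟩).sub
      (h1.der _ _ (per_ex hb (hc.rp f α hα hf)) ⟨w, hw⟩)
    rw [sub_self] at this
    exact this
  have := isOpen_upperHalfPlaneSet.is_const_of_deriv_eq_zero
    (convex_halfSpace_im_gt 0).isPreconnected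
    (fun w hw => (d w hw).differentiableAt.differentiableWithinAt) (fun w hw => (d w hw).deriv)
    z.im_pos UpperHalfPlane.I.im_pos
  simpa only [ofComplex_apply, per] using this

theorem per_phiadd (hb : S_BE) (h3 : S_EX3) (h1 : S_PH1) {f g : ℍ → ℂ} (hf : InS f)
    (hg : InS g) : phi (f + g) = phi f + phi g := by
  have e := h3.add _ _ _ _ (per_ex hb hf) (per_ex hb hg)
  funext z
  rw [phi, hb.eq _ _ e]
  refine (h1.sum _ _ e z).unique ?_
  simpa only [Pi.add_apply, add_div, add_mul, phi] using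
    (h1.sum _ _ (per_ex hb hf) z).add (h1.sum _ _ (per_ex hb hg) z)

theorem per_phismul (hb : S_BE) (h3 : S_EX3) (h1 : S_PH1) (c : ℂ) {f : ℍ → ℂ} (hf : InS f) :
    phi (c • f) = c • phi f := by
  have e := h3.smul c _ _ (per_ex hb hf)
  funext z
  rw [phi, hb.eq _ _ e]
  refine (h1.sum _ _ e z).unique ?_
  simpa only [Pi.smul_apply, smul_eq_mul, mul_div_assoc, mul_assoc, phi] using
    (h1.sum _ _ (per_ex hb hf) z).mul_left c

theorem per_up (hb : S_BE) (h3 : S_EX3) {f : ℍ → ℂ} {α : GL (Fin 2) ℝ} (hf : InS f)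
    (hα : RP α) (h0 : α.val 1 0 = 0) : per f α = 0 := by
  obtain ⟨a, ha⟩ := hα.2 0 0
  obtain ⟨x, hx⟩ := hα.2 0 1
  obtain ⟨d, hd⟩ := hα.2 1 1
  have e : α.val = !![(a : ℝ), (x : ℝ); 0, (d : ℝ)] := by
    rw [← ha, ← hx, ← hd, ← h0]
    exact Matrix.eta_fin_two _
  have p : 0 < a * d := by
    have := hα.1
    rw [Matrix.det_fin_two, ha, hd, h0, mul_zero, sub_zero] at this
    exact_mod_cast this
  have a0 : a ≠ 0 := left_ne_zero_of_mul p.ne'
  have d0 : d ≠ 0 := right_ne_zero_of_mul p.ne'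
  have ac : (a : ℂ) ≠ 0 := by exact_mod_cast a0
  have dc : (d : ℂ) ≠ 0 := by exact_mod_cast d0
  have ez : ((α • UpperHalfPlane.I : ℍ) : ℂ) = (a * (UpperHalfPlane.I : ℍ) + x) / d := by
    rw [coe_smul_of_det_pos (per_det hα.1), num, denom, ha, hx, hd, h0]
    simp
  rw [per, sub_eq_zero, phi, phi, hb.eq _ _ (h3.up f _ α a x d e p (per_ex hb hf)), ph, ph]
  refine Eq.trans (tsum_congr fun μ => ?_)
    ((Equiv.mulRight₀ (a / d) (div_ne_zero a0 d0)).tsum_eq _)
  have e1 : μ * (a / d) * d / a = μ := by field_simp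
  have e2 : ee μ (α • UpperHalfPlane.I) =
      Complex.exp (2 * π * Complex.I * ((μ * (a / d) : ℚ) * x / a)) *
        ee (μ * (a / d)) UpperHalfPlane.I := by
    rw [ee, ee, ← Complex.exp_add, ez]
    congr 1
    push_cast
    field_simp
    ring
  rw [Equiv.mulRight₀_apply, e1, e2]
  push_cast
  by_cases m0 : (μ : ℂ) = 0
  · simp [m0]
  · field_simp

theorem per_of (hc : S_CU) (hb : S_BE) (h3 : S_EX3) (h1 : S_PH1) : S_PER where
  const f α hf hα z := per_const hc hb h1 hf hα z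
  mul f α β hf hα hβ := by
    rw [← per_const hc hb h1 hf hα (β • UpperHalfPlane.I), per, per, mul_smul,
      SlashAction.slash_mul]
    ring
  up f α hf hα h0 := per_up hb h3 hf hα h0
  add f g α hf hg hα := by
    simp only [per, SlashAction.add_slash, per_phiadd hb h3 h1 hf hg,
      per_phiadd hb h3 h1 (hc.rp f α hα hf) (hc.rp g α hα hg), Pi.add_apply]
    ring
  smul c f α hf hα := by
    simp only [per, ModularForm.smul_slash, per_sigma hα.1, per_phismul hb h3 h1 c hf,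
      per_phismul hb h3 h1 c (hc.rp f α hα hf), Pi.smul_apply, smul_eq_mul]
    ring
  phiadd f g hf hg := per_phiadd hb h3 h1 hf hg
  phismul c f hf := per_phismul hb h3 h1 c hf

end

end Pool.Agent.MP_b2c033_nt.UA
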