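import Pool.Agent.MP_b2c033_nt.UA.Defs

/-! Row statements of block A (page b2c033_FULL_h54.md). -/

namespace Pool.Agent.MP_b2c033_nt.UA

open Filter MeasureTheory CongruenceSubgroup Asymptotics
open UpperHalfPlane hiding I
open scoped Real Manifold MatrixGroups ModularForm Modular Topology ENNReal Polynomial

noncomputable section

/-! ## The space, expansions, periods -/

structure S_CU : Prop where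
  zero : ∀ L, Cu L 0
  add : ∀ L f g, Cu L f → Cu L g → Cu L (f + g)
  smul : ∀ L (c : ℂ) f, Cu L f → Cu L (c • f)
  mono : ∀ L L' f, L ∣ L' → Cu L f → Cu L' f
  sl : ∀ L f (γ : SL(2, ℤ)), Cu L f → Cu L (f ∣[(2 : ℤ)] γ)
  bd : ∀ f (α : GL (Fin 2) ℝ), 0 < α.val.det → Bd f → Bd (f ∣[(2 : ℤ)] α)
  rpsl : ∀ γ : SL(2, ℤ), RP (γ : GL (Fin 2) ℝ)
  rpmul : ∀ α β, RP α → RP β → RP (α * β)
  rpinv : ∀ α, RP α → RP α⁻¹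
  conj : ∀ (L : ℕ) (α : GL (Fin 2) ℝ), 0 < L → RP α → ∃ M : ℕ, 0 < M ∧
    ∀ δ ∈ Gamma M, ∃ δ' ∈ Gamma L, α * (δ : GL (Fin 2) ℝ) = (δ' : GL (Fin 2) ℝ) * α
  rp : ∀ f α, RP α → InS f → InS (f ∣[(2 : ℤ)] α)

def S_EX1 : Prop := ∀ (L : ℕ) (f : ℍ → ℂ), 0 < L → Bd f →
  f ∣[(2 : ℤ)] (ModularGroup.T ^ L) = f → ∃ b, Ex f b ∧ Den L b

def S_EX2 : Prop := ∀ f b b', Ex f b → Ex f b' → b = b'

structure S_BE : Prop where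
  ex : ∀ (L : ℕ) (f : ℍ → ℂ), 0 < L → Cu L f → Ex f (beta f) ∧ Den L (beta f)
  eq : ∀ f b, Ex f b → beta f = b

structure S_EX3 : Prop where
  add : ∀ f g b b', Ex f b → Ex g b' → Ex (f + g) (b + b')
  smul : ∀ (c : ℂ) f b, Ex f b → Ex (c • f) (c • b)
  up : ∀ f b (α : GL (Fin 2) ℝ) (a x d : ℚ), α.val = !![(a : ℝ), (x : ℝ); 0, (d : ℝ)] →
    0 < a * d → Ex f b → Ex (f ∣[(2 : ℤ)] α) fun ν =>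
      (a / d : ℂ) * Complex.exp (2 * π * Complex.I * (ν * x / a)) * b (ν * d / a)

structure S_PH1 : Prop where
  sum : ∀ f b, Ex f b → ∀ z, HasSum (fun ν : ℚ => b ν / ν * ee ν z) (ph b z)
  der : ∀ f b, Ex f b → ∀ z : ℍ,
    HasDerivAt (fun w => ph b (ofComplex w)) (2 * π * Complex.I * f z) z

structure S_PH2 : Prop where
  big : ∀ f b (o : ℝ), Ex f b → (∀ ν : ℚ, (ν : ℝ) < o → b ν = 0) →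
    f =O[atImInfty] fun z => Real.exp (-2 * π * o * z.im)
  lim : ∀ f b (o : ℚ), Ex f b → (∀ ν < o, b ν = 0) →
    Tendsto (fun z => ph b z / ee o z) atImInfty (𝓝 (b o / o))

structure S_PER : Prop where
  const : ∀ f α, InS f → RP α → ∀ z : ℍ, phi f (α • z) - phi (f ∣[(2 : ℤ)] α) z = per f α
  mul : ∀ f α β, InS f → RP α → RP β →
    per f (α * β) = per f α + per (f ∣[(2 : ℤ)] α) β
  up : ∀ f α, InS f → RP α → α.val 1 0 = 0 → per f α = 0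
  add : ∀ f g α, InS f → InS g → RP α → per (f + g) α = per f α + per g α
  smul : ∀ (c : ℂ) f α, InS f → RP α → per (c • f) α = c * per f α
  phiadd : ∀ f g, InS f → InS g → phi (f + g) = phi f + phi g
  phismul : ∀ (c : ℂ) f, InS f → phi (c • f) = c • phi f

/-! ## Cosets, valence -/

structure S_GRP : Prop where
  ex : ∀ Γ : Subgroup SL(2, ℤ), Γ.FiniteIndex →
    ∃ (n : ℕ) (rep : Fin n → SL(2, ℤ)), 0 < n ∧ Tr Γ rep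
  perm : ∀ (ι : Type) (Γ : Subgroup SL(2, ℤ)) (rep : ι → SL(2, ℤ)) (γ : SL(2, ℤ)), Tr Γ rep →
    ∃ σ : Equiv.Perm ι, ∀ i, rep i * γ * (rep (σ i))⁻¹ ∈ Γ
  avg : ∀ (ι ι' A : Type) [Fintype ι] [Fintype ι'] [AddCommMonoid A]
    (Γ Γ' : Subgroup SL(2, ℤ)) (rep : ι → SL(2, ℤ)) (rep' : ι' → SL(2, ℤ)) (u : SL(2, ℤ) → A),
    Γ' ≤ Γ → Tr Γ rep → Tr Γ' rep' → (∀ δ ∈ Γ, ∀ γ, u (δ * γ) = u γ) →
    Fintype.card ι' • ∑ i, u (rep i) = Fintype.card ι • ∑ j, u (rep' j)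

def S_VAL : Prop := ∀ (ι : Type) [Fintype ι] (Γ : Subgroup SL(2, ℤ)) (rep : ι → SL(2, ℤ))
  (k : ℤ) (f : ℍ → ℂ) (o : ι → ℝ), Tr Γ rep → MDifferentiable 𝓘(ℂ) 𝓘(ℂ) f →
  (∀ δ ∈ Γ, f ∣[k] δ = f) → f ≠ 0 →
  (∀ i, (f ∣[k] rep i) =O[atImInfty] fun z => Real.exp (-2 * π * o i * z.im)) →
  12 * ∑ i, o i ≤ k * Fintype.card ι

/-! ## Measure -/

structure S_FD : Prop where
  fin : volume 𝒟ᵒ < ⊤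
  pos : 0 < volume 𝒟ᵒ
  two : ∀ᵐ z : ℍ, ∑' γ : SL(2, ℤ), (𝒟ᵒ).indicator (fun _ => (1 : ℝ≥0∞)) (γ • z) = 2

def S_W : Prop := ∀ (H : Type) [Group H] [Countable H] (ρ : H →* GL (Fin 2) ℝ)
  (η₁ η₂ Φ : ℍ → ℝ≥0∞) (c : ℝ≥0∞), c ≠ 0 → c ≠ ⊤ → Measurable η₁ → Measurable η₂ →
  Measurable Φ → (∀ᵐ z : ℍ, ∑' h, η₁ (ρ h • z) = c) → (∀ᵐ z : ℍ, ∑' h, η₂ (ρ h • z) = c) →
  (∀ h z, Φ (ρ h • z) = Φ z) → ∫⁻ z, η₁ z * Φ z = ∫⁻ z, η₂ z * Φ z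

def S_ISO1 : Prop := ∀ (ι ι' : Type) [Fintype ι] [Fintype ι'] (Γ Γ' : Subgroup SL(2, ℤ))
  (rep : ι → SL(2, ℤ)) (rep' : ι' → SL(2, ℤ)) (α : GL (Fin 2) ℝ) (Φ : ℍ → ℝ≥0∞),
  Tr Γ rep → Tr Γ' rep' →
  (∀ δ' ∈ Γ', ∃ δ ∈ Γ, α * (δ' : GL (Fin 2) ℝ) = (δ : GL (Fin 2) ℝ) * α) →
  (∀ δ ∈ Γ, ∃ δ' ∈ Γ', α * (δ' : GL (Fin 2) ℝ) = (δ : GL (Fin 2) ℝ) * α) →
  Measurable Φ → (∀ δ ∈ Γ, ∀ z, Φ (δ • z) = Φ z) →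
  ∑ i, ∫⁻ z in 𝒟ᵒ, Φ (rep i • z) = ∑ j, ∫⁻ z in 𝒟ᵒ, Φ (α • rep' j • z)

def S_ISO : Prop := ∀ (ι ι' : Type) [Fintype ι] [Fintype ι'] (L L' : ℕ)
  (rep : ι → SL(2, ℤ)) (rep' : ι' → SL(2, ℤ)) (f : ℍ → ℂ) (α : GL (Fin 2) ℝ),
  0 < L → 0 < L' → Tr (Gamma L) rep → Tr (Gamma L') rep' → RP α →
  Cu L f → Cu L' (f ∣[(2 : ℤ)] α) →
  Fintype.card ι' * ∑ i, En (f ∣[(2 : ℤ)] rep i) =
    Fintype.card ι * ∑ j, En ((f ∣[(2 : ℤ)] α) ∣[(2 : ℤ)] rep' j)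

structure S_PE : Prop where
  fin : ∀ f, Bd f → EnL f < ⊤
  self : ∀ f, Bd f → pe f f = En f
  symm : ∀ f g, (starRingEnd ℂ) (pe g f) = pe f g
  add : ∀ f g h, Bd f → Bd g → Bd h → pe (f + g) h = pe f h + pe g h
  smul : ∀ (c : ℂ) f g, pe (c • f) g = (starRingEnd ℂ) c * pe f g

def S_EUC : Prop := ∀ f : ℍ → ℂ, Continuous f →
  EnL f = ∫⁻ w in {w : ℂ | 0 < w.im ∧ 1 < ‖w‖ ∧ |w.re| < 1 / 2}, ‖f (ofComplex w)‖ₑ ^ 2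

/-! ## Horoballs -/

def S_HO0 : Prop := ∀ (f : ℍ → ℂ) (b : ℚ → ℂ) (L : ℕ) (Φ : Finset ℚ) (a y : ℝ),
  0 < L → 0 < y → Ex f b → Den L b →
  ENNReal.ofReal (L * ∑ ν ∈ Φ, ‖b ν‖ ^ 2 * Real.exp (-4 * π * ν * y)) ≤
    ∫⁻ x in Set.Ioo a (a + L), ‖f (ofComplex (x + y * Complex.I))‖ₑ ^ 2

def S_HO1 : Prop := ∀ (f : ℍ → ℂ) (b : ℚ → ℂ) (L : ℕ) (Φ : Finset ℚ),
  0 < L → Continuous f → Ex f b → Den L b →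
  ENNReal.ofReal (L * ∑ ν ∈ Φ, ‖b ν‖ ^ 2 * Real.exp (-4 * π * ν) / (4 * π * ν)) ≤
    ∑ t ∈ Finset.range L, EnL (f ∣[(2 : ℤ)] (ModularGroup.T ^ t))

def S_HORO : Prop := ∀ (ι : Type) [Fintype ι] (L : ℕ) (rep : ι → SL(2, ℤ)) (f : ℍ → ℂ)
  (Φ : SL(2, ℤ) → Finset ℚ), 0 < L → Tr (Gamma L) rep → Cu L f →
  ∑ i, ∑ ν ∈ Φ (rep i), π * (‖beta (f ∣[(2 : ℤ)] rep i) ν‖ ^ 2 * Real.exp (-4 * π * ν) / ν) ≤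
    ∑ i, En (f ∣[(2 : ℤ)] rep i)

/-! ## Area -/

def S_AR1 : Prop := ∀ (ψ : ℂ → ℂ) (U : Set ℂ), IsOpen U → DifferentiableOn ℂ ψ U →
  ∃ A : ℕ → Set ℂ, (∀ k, A k ⊆ U) ∧ Pairwise (Function.onFun Disjoint A) ∧
    (∀ k, MeasurableSet (ψ '' A k)) ∧
    ∫⁻ z in U, ‖deriv ψ z‖ₑ ^ 2 = ∑' k, volume (ψ '' A k)

def S_AR2 : Prop := ∀ (P : PeriodPair) (κ : Type) [Countable κ] (B : κ → Set ℂ) (K : ℕ)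
  (Z : Set ℂ), (∀ k, MeasurableSet (B k)) → Z.Countable →
  (∀ w ∉ Z, ∀ T : Finset (κ × ℂ), (∀ p ∈ T, p.2 ∈ B p.1 ∧ p.2 - w ∈ P.lattice) → T.card ≤ K) →
  ∑' k, volume (B k) ≤ K * ENNReal.ofReal (Om P)

def S_AREA : Prop := ∀ (P : PeriodPair) (ι : Type) [Fintype ι] (ψ : ι → ℂ → ℂ) (U : Set ℂ)
  (K : ℕ) (Z : Set ℂ), IsOpen U → (∀ i, DifferentiableOn ℂ (ψ i) U) → Z.Countable →
  (∀ w ∉ Z, ∀ T : Finset (ι × ℂ), (∀ p ∈ T, p.2 ∈ U ∧ ψ p.1 p.2 - w ∈ P.lattice) →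
    T.card ≤ K) →
  ∑ i, ∫⁻ z in U, ‖deriv (ψ i) z‖ₑ ^ 2 ≤ K * ENNReal.ofReal (Om P)

/-! ## Counting -/

def S_CN1 : Prop := ∀ (Φ : ℍ → ℂ) (κ : ℝ), MDifferentiable 𝓘(ℂ) 𝓘(ℂ) Φ →
  (∀ (γ : SL(2, ℤ)) (z : ℍ), Φ (γ • z) = Φ z) →
  (Φ =O[atImInfty] fun z => Real.exp (2 * π * κ * z.im)) → Φ ≠ 0 →
  ∃ Q : ℂ[X], Q ≠ 0 ∧ (Q.natDegree : ℝ) ≤ κ ∧ ∀ z, Φ z = Q.eval (jj z)

structure S_CN2 : Prop where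
  hol : MDifferentiable 𝓘(ℂ) 𝓘(ℂ) jj
  inj : Set.InjOn jj 𝒟ᵒ
  crit : {w : ℂ | 0 < w.im ∧ deriv (fun w => jj (ofComplex w)) w = 0}.Countable

def S_CN3 : Prop := ∀ (ι : Type) [Fintype ι] (J : ℂ → ℂ) (g : ι → ℂ → ℂ) (U : Set ℂ)
  (Q : ℂ[X]) (T : Finset (ι × ℂ)), IsOpen U → DifferentiableOn ℂ J U → Set.InjOn J U →
  (∀ i, DifferentiableOn ℂ (g i) U) → Q ≠ 0 → (∀ z ∈ U, ∏ i, g i z = Q.eval (J z)) →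
  (∀ p ∈ T, p.2 ∈ U ∧ deriv J p.2 ≠ 0 ∧ g p.1 p.2 = 0) → T.card ≤ Q.natDegree

structure S_WP : Prop where
  cnt : ∀ (P : PeriodPair) (c : ℂ), {w | P.weierstrassP w = c}.Countable
  fin : ∀ (P : PeriodPair) (g : ℍ → ℂ) (c : ℂ), c ∉ P.lattice → Tendsto g atImInfty (𝓝 c) →
    (fun z => P.weierstrassP (g z)) =O[atImInfty] fun _ => (1 : ℝ)
  pole : ∀ (P : PeriodPair) (g : ℍ → ℂ) (l c : ℂ) (o : ℚ), l ∈ P.lattice → c ≠ 0 → 0 < o →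
    Tendsto (fun z => (g z - l) / ee o z) atImInfty (𝓝 c) →
    (fun z => P.weierstrassP (g z)) =O[atImInfty] fun z => Real.exp (2 * π * (2 * o) * z.im)

/-- the setting of the degree inequality -/
structure Set0 {ι : Type} (P : PeriodPair) (L : ℕ) (rep : ι → SL(2, ℤ)) (f : ℍ → ℂ)
    (o : ι → ℚ) : Prop where
  pos : 0 < L
  tr : Tr (Gamma L) rep
  cu : Cu L f
  lat : ∀ δ ∈ Gamma L, per f (δ : GL (Fin 2) ℝ) ∈ P.lattice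
  ne : ∀ i, beta (f ∣[(2 : ℤ)] rep i) (o i) ≠ 0

open Classical in
/-- the orders at the cusps over the point `s` -/
def ms {ι : Type} [Fintype ι] (P : PeriodPair) (rep : ι → SL(2, ℤ)) (f : ℍ → ℂ) (o : ι → ℚ)
    (s : ℂ) : ℝ :=
  ∑ i, if per f (rep i : GL (Fin 2) ℝ) - s ∈ P.lattice then (o i : ℝ) else 0

/-- the norm of `℘(φ - s) - ξ` -/
def nrm {ι : Type} [Fintype ι] (P : PeriodPair) (rep : ι → SL(2, ℤ)) (f : ℍ → ℂ) (s ξ : ℂ)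
    (z : ℍ) : ℂ := ∏ i, (P.weierstrassP (phi f (rep i • z) - s) - ξ)

def S_CN4 : Prop := ∀ (ι : Type) [Fintype ι] (P : PeriodPair) (L : ℕ) (rep : ι → SL(2, ℤ))
  (f : ℍ → ℂ) (o : ι → ℚ) (s ξ : ℂ), Set0 P L rep f o → (∀ z, phi f z - s ∉ P.lattice) →
  MDifferentiable 𝓘(ℂ) 𝓘(ℂ) (nrm P rep f s ξ) ∧
  (∀ (γ : SL(2, ℤ)) (z : ℍ), nrm P rep f s ξ (γ • z) = nrm P rep f s ξ z) ∧
  nrm P rep f s ξ =O[atImInfty] fun z => Real.exp (2 * π * (2 * ms P rep f o s) * z.im)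

def S_CNT : Prop := ∀ (ι : Type) [Fintype ι] (P : PeriodPair) (L : ℕ) (rep : ι → SL(2, ℤ))
  (f : ℍ → ℂ) (o : ι → ℚ) (s : ℂ), Set0 P L rep f o → (∀ z, phi f z - s ∉ P.lattice) →
  ∃ Z : Set ℂ, Z.Countable ∧ ∀ w ∉ Z, ∀ T : Finset ((ι × Bool) × ℂ),
    (∀ p ∈ T, p.2 ∈ {w : ℂ | 0 < w.im ∧ 1 < ‖w‖ ∧ |w.re| < 1 / 2} ∧
      (if p.1.2 then 1 else -1) * (phi f (rep p.1.1 • ofComplex p.2) - s) - w ∈ P.lattice) →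
    (T.card : ℝ) ≤ 2 * ms P rep f o s

def S_DG1 : Prop := ∀ (ι : Type) [Fintype ι] (P : PeriodPair) (L : ℕ) (rep : ι → SL(2, ℤ))
  (f : ℍ → ℂ) (o : ι → ℚ) (s : ℂ), Set0 P L rep f o → (∀ z, phi f z - s ∉ P.lattice) →
  ∑ i, En (f ∣[(2 : ℤ)] rep i) ≤ Om P * ms P rep f o s

def S_DEG : Prop := ∀ (ι : Type) [Fintype ι] (P : PeriodPair) (L : ℕ) (rep : ι → SL(2, ℤ))
  (f : ℍ → ℂ) (o : ι → ℚ) (S : Finset ℂ), Set0 P L rep f o →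
  (∀ s ∈ S, ∀ s' ∈ S, s - s' ∈ P.lattice → s = s') →
  (∀ s ∈ S, ∀ z, phi f z - s ∉ P.lattice) →
  S.card * ∑ i, En (f ∣[(2 : ℤ)] rep i) ≤ Om P * ∑ i, (o i : ℝ)

/-! ## Covolume -/

def S_VO1 : Prop := ∀ P : PeriodPair, ∃ τ ∈ 𝒟,
  Om P ^ 6 * ‖P.g₂ ^ 3 - 27 * P.g₃ ^ 2‖ = vo τ ∧
    1728 * P.g₂ ^ 3 = jj τ * (P.g₂ ^ 3 - 27 * P.g₃ ^ 2)

structure S_VB : Prop where
  e4 : ∀ (τ : ℍ) (r : ℝ), r = Real.exp (-2 * π * τ.im) → 9 * r < 1 →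
    ‖ModularForm.E₄ τ‖ ≤ 1 + 240 * r / (1 - 9 * r)
  up : ∀ (τ : ℍ) (r : ℝ), r = Real.exp (-2 * π * τ.im) →
    ‖ModularForm.discriminant τ‖ ≤ r * Real.exp (24 * r / (1 - r))
  low : ∀ (τ : ℍ) (r : ℝ), r = Real.exp (-2 * π * τ.im) → 2 * r < 1 →
    r * (1 - r / (1 - r)) ^ 24 ≤ ‖ModularForm.discriminant τ‖

def S_VO2 : Prop := ∀ τ ∈ 𝒟, vo τ ≤ 14.06 ^ 6

def S_VO3 : Prop := ∀ τ ∈ 𝒟, 2400 ≤ ‖jj τ‖ →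
  vo τ ≤ 1.03 * (2 * π * Real.log (‖jj τ‖ - 1400)) ^ 6 / (‖jj τ‖ - 1400)

end

end Pool.Agent.MP_b2c033_nt.UA
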